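import Pool.Agent.J2S.Z
import Pool.Agent.JGS.Q2
import Pool.Agent.JT.FT

/-!
# [J2S] the central value of `y² = x³ + D` is divisible by `2` if `2` divides a Tamagawa number
-/

set_option autoImplicit false

open NumberField IsDedekindDomain
open scoped Classical ComplexConjugate

namespace J2S

open CM27 NAB CF JZ
open JD (ED jK)
open JGS (Fr6)

/-- `D` nonzero, sixth-power-free, not a cube (no point of order `2` over `K`), `2` divides a Tamagawa number: the value is divisible by `2`. -/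
theorem lvalT2 {D : Eis} (hD : Fr6 D) (hnc : ¬ ∃ x : Eis, x ^ 3 = D) (v : HeightOneSpectrum (𝓞 KK)) (hv : 2 ∣ SBSD.tam (ED (jK D)) v) :
    ∃ Λ : ℂ → ℂ, SBSD2.IsEntireLSeries (ED (jK D)) Λ ∧
      ∃ q : ℚ, Λ 1 * (√|(discr KK : ℝ)| : ℝ) = q * SBSD.period (ED (jK D)) ∧ (q = 0 ∨ 0 < padicValRat 2 q) := by
  have hn : ¬ JT.Cl2 D := fun h => ((JT.cl2_iff D (fun a b => Classical.propDecidable (a = b))).1 h).2.2.2 v hv
  obtain ⟨p₂, pl, h2, h3, Φ, hΦ, hs, q, hq, h⟩ := lvalS hD.2 hnc hn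
  obtain ⟨Λ, hΛ, h1⟩ := JGS.exists_Lam hD h2 h3 Φ hΦ hs hq
  exact ⟨Λ, hΛ, q, h1, h⟩

end J2S
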