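import Pool.Agent.J2E.A3

/-!
# [J2S-A] the integral `IF F k` is `0` if `k p = 1` for the primitive character and a prime `p ∣ F`
-/

set_option autoImplicit false

open MeasureTheory Set Filter Topology
open scoped Classical ComplexConjugate

namespace J2S

open CM27 JZ
open CU (la eE)
open CUL (Nl ta rp IsRep zw GalU)
open JGL (GalP)
open J2E

variable {g F : Eis} {k k' : Eis → ℂ}

theorem IF_scale (m : Eis) : ∀ (g : Eis) (k k' : Eis → ℂ), Ch g k → Ch (g * m) k' →
    (∀ x, IsCoprime x (g * m) → k' x = k x) → IF g k = 0 → IF (g * m) k' = 0 := by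
  have := eis_isDomain
  have := eis_pid
  refine UniqueFactorizationMonoid.induction_on_prime m ?_ ?_ ?_
  · intro g k k' _ h' _ _
    exact absurd (mul_zero g) h'.F0
  · intro m hm g k k' h h' hk h0
    rw [a3_unit hm h h' hk, h0]
  · intro m p hm hp ih g k k' h h' hk h0
    obtain ⟨x, hx, hx1⟩ := h'.non
    have hcop : ∀ y : Eis, IsCoprime y (g * (p * m)) → IsCoprime y (g * p) := by
      intro y hy
      rw [← mul_assoc] at hy
      exact hy.of_mul_right_left
    have h1 : Ch (g * p) (fun y => if IsCoprime y (g * p) then k y else 0) := by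
      refine h.mono hp.ne_zero ⟨x, hcop x hx, ?_⟩
      rw [← hk x hx]
      exact hx1
    have h2 := IF_step h hp h1 (fun y hy => if_pos hy)
    rw [← mul_assoc] at h'
    rw [← mul_assoc]
    refine ih (g * p) _ k' h1 h' (fun y hy => ?_) (by rw [h2, h0, mul_zero])
    rw [mul_assoc] at hy
    rw [hk y hy, if_pos (hcop y hy)]

theorem IF_zero (h : Ch g k) (h' : Ch F k') (hd : g ∣ F) (hk : ∀ x, IsCoprime x F → k' x = k x)
    (hp : ∃ p : Eis, Prime p ∧ p ∣ F ∧ k p = 1) : IF F k' = 0 := by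
  have := eis_isDomain
  have := eis_pid
  obtain ⟨p, hp, hpF, hp1⟩ := hp
  obtain ⟨m, rfl⟩ := hd
  have hpg : ¬ p ∣ g := by
    intro hpg
    have h1 : ¬ IsCoprime p g := fun hc => hp.not_isUnit (hc.isUnit_of_dvd' dvd_rfl hpg)
    rw [h.zero p h1] at hp1
    exact zero_ne_one hp1
  obtain ⟨m', rfl⟩ := (hp.dvd_or_dvd hpF).resolve_left hpg
  obtain ⟨x, hx, hx1⟩ := h'.non
  have hcop : ∀ y : Eis, IsCoprime y (g * (p * m')) → IsCoprime y (g * p) := by
    intro y hy
    rw [← mul_assoc] at hy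
    exact hy.of_mul_right_left
  have h1 : Ch (g * p) (fun y => if IsCoprime y (g * p) then k y else 0) := by
    refine h.mono hp.ne_zero ⟨x, hcop x hx, ?_⟩
    rw [← hk x hx]
    exact hx1
  have h2 := IF_step h hp h1 (fun y hy => if_pos hy)
  rw [hp1, sub_self, zero_mul] at h2
  rw [← mul_assoc] at h' ⊢
  refine IF_scale m' (g * p) _ k' h1 h' (fun y hy => ?_) h2
  rw [mul_assoc] at hy
  rw [hk y hy, if_pos (hcop y hy)]

end J2S
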