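import Pool.Agent.J2S.Defs
import Pool.Agent.J2D.U
import Pool.Agent.J2D.S4
import Pool.Agent.J2D.S5
import Pool.Agent.J2D.H1
import Pool.Agent.J2D.H2

/-!
# [J2S-D] the data of `D` for the prime `2` without the Tamagawa condition
-/

set_option autoImplicit false

open NumberField IsDedekindDomain Filter Topology
open scoped Classical ComplexConjugate

namespace J2S

open CM27 JZ
open CU (la eE)
open CUL (Nl ez DS Cont LV IsRep rp cr mn mo zw GalU)
open JGL (Fac sl)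
open J2L J2D

variable {D : Eis}

theorem fL_dvd (F : Fac D) {p : Eis} (hp : Prime p) (h6 : ¬ p ∣ 6) (hD : p ∣ D) : p ∣ fL F := by
  have := eis_isDomain
  have h2 : ¬ p ∣ 2 := fun h => h6 (h.trans ⟨3, by norm_num⟩)
  have hl : ¬ p ∣ la := fun h => h6 (h.trans ⟨2 * (1 - CU.om ^ 2), by decide⟩)
  have hu : ∀ u : Eis, IsUnit u → ¬ p ∣ u := fun u hu h => hp.not_isUnit (isUnit_of_dvd_unit h hu)
  have hη : IsUnit F.η := by
    rcases F.hη with h | h <;> rw [h]
    · exact isUnit_one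
    · exact isUnit_one.neg
  rw [F.hD] at hD
  rcases hp.dvd_or_dvd hD with h | h
  · exfalso
    rcases hp.dvd_or_dvd h with h | h
    · exact hu _ (hη.mul (CU.om_unit.pow _)) h
    · exact hl (hp.dvd_of_dvd_pow h)
  · rw [C2_Ds F] at h
    rcases hp.dvd_or_dvd h with h | h
    · exact absurd ((dvd_neg).1 (hp.dvd_of_dvd_pow h)) h2
    · obtain ⟨q, hq, h3⟩ := (hp.dvd_finsetProd_iff _).1 h
      unfold fL
      exact ((hp.dvd_of_dvd_pow h3).trans (Finset.dvd_prod_of_mem (fun q : Eis => q) hq)).mul_left _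

theorem fL_la (F : Fac D) (h : ¬ la ∣ D) : la ∣ fL F := by
  have hG : ¬ JG.GoodL D := by
    rintro ⟨η, c, -, hD⟩
    apply h
    rw [hD]
    exact (dvd_pow_self la (by norm_num)).mul_right _
  unfold fL
  rw [if_neg hG]
  exact (show la ∣ (9 : Eis) from ⟨la ^ 3 * CU.om, by decide⟩).mul_right _

theorem exists_dat (hfree : ∀ p : Eis, Prime p → ¬ p ^ 6 ∣ D) (hc : ¬ ∃ x : Eis, x ^ 3 = D) :
    ∃ d : DtW D, (∃ p₂ pl : Eis, JG.Val2 D p₂ ∧ JG.ValL D pl ∧
    ∃ Φ : ℂ → ℂ, Differentiable ℂ Φ ∧ (∀ s : ℂ, 3 / 2 < s.re →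
      Φ s = LSeries (fun n => NAB.IL CF.KK (fun I => conj (emb (JG.PsiG D p₂ pl I))) n) s) ∧
      ∃ u : ℂ, ‖u‖ = 1 ∧ Φ 1 = u * OmC / (6 * 2 ^ n2 d.v d.δ * emb d.L.f) * V d.L d.v d.δ) ∧
    ∀ s t : ℂ, s ^ 2 = emb D → t ^ 3 = emb (4 * D) → V d.L d.v d.δ * s / t ∈ CF.KK := by
  have hdom := eis_isDomain
  have h0 : D ≠ 0 := fun h' => hfree 2 Q3.prime_two (by rw [h']; exact dvd_zero _)
  obtain ⟨F⟩ := JGL.exists_Fac h0 hfree
  obtain ⟨S⟩ := exists_sq h0
  obtain ⟨Z⟩ := zd_exists F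
  obtain ⟨L, hL⟩ := exists_lv F S h0 hc
  have hj : L.j = 1 - (v2 F : ZMod 3) := hL.hj
  have hj' : 1 - L.j = (v2 F : ZMod 3) := by rw [hj, sub_sub_cancel]
  let d : DtW D :=
    { L := L
      C := cubC F h0 hc
      v := v2 F
      D₀ := Z.D₀
      ζ := Z.ζ
      δ := Z.δ
      hv := by
        have h1 := F.hE2
        unfold v2
        omega
      hD := Z.hD
      hD₀ := Z.hD₀
      hζ := Z.hζ
      hδ := Z.hδ
      hj := hj
      hq := q_neg F S Z h0 hL
      k2 := by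
        rw [hL.hk]
        exact kL_two F Z
      kpk := fun x hx => by
        rw [hL.hf] at hx
        show kpC F x = _
        rw [hL.hk, hj']
        exact kpC_k F hx
      gdvd := by
        show gC F ∣ _
        have h1 := gC_dvd F h0
        have h2 : L.j = 1 ↔ (v2 F : ZMod 3) = 0 := by
          rw [hj]
          constructor
          · intro h3
            rw [← sub_sub_cancel 1 (v2 F : ZMod 3), h3, sub_self]
          · intro h3
            rw [h3, sub_zero]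
        by_cases h3 : L.j = 1
        · rw [if_pos h3, hL.hf]
          rw [if_pos (h2.1 h3)] at h1
          exact h1
        · rw [if_neg h3, hL.hf]
          rw [if_neg (fun h4 => h3 (h2.2 h4))] at h1
          exact h1
      fdvd := fun p hp h6 hpD => by
        rw [hL.hf]
        exact fL_dvd F hp h6 hpD
      fla := fun h => by
        rw [hL.hf]
        exact fL_la F h
      gal := gal_cD F h0 }
  obtain ⟨p₂, h2, h2'⟩ := exists_p2 F S Z h0 hL
  obtain ⟨pl, hl, hl'⟩ := exists_pl F S Z h0 hL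
  obtain ⟨Φ, f1, f2, f3⟩ := entire F S Z h0 hL h2' hl'
  obtain ⟨u, hu, -, hV⟩ := V_V1 L (v2 F) Z.δ
  have hΦ : Φ 1 = u * OmC / (6 * 2 ^ n2 (v2 F) Z.δ * emb L.f) * V L (v2 F) Z.δ := by
    rw [f3, hV, map_mul, map_pow, map_ofNat]
    ring
  exact ⟨d, ⟨p₂, pl, h2, hl, Φ, f1, f2, u, hu, hΦ⟩, fun s t hs ht => b_mem F S Z h0 hL hs ht⟩

end J2S
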