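import Pool.Agent.J2L.Defs

/-!
# [J2S] `l = 2`: the central value when `2` divides a Tamagawa number: definitions

`J2L` treats the class `JT.Cl2`: all Tamagawa numbers odd. Here: the same data without the condition `kp(p) ≠ 1` for the primes `p ∣ f`.
-/

set_option autoImplicit false

open NumberField IsDedekindDomain Filter Topology
open scoped Classical ComplexConjugate

namespace J2S

open CM27 JZ
open CU (la eE)
open CUL (Nl ez DS Cont LV IsRep rp cr mn mo zw GalU)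
open J2L (Lv Cub q2)

/-- The data of the curve `y² = x³ + D` (`J2L.Dt` without the Tamagawa condition `tam`). -/
structure DtW (D : Eis) where
  L : Lv
  C : Cub D
  v : ℕ
  D₀ : Eis
  ζ : Eis
  δ : Eis
  hv : v < 6
  hD : D = 2 ^ v * D₀
  hD₀ : ¬ (2 : Eis) ∣ D₀
  hζ : ζ ^ 3 = 1
  hδ : (4 : Eis) ∣ D₀ - ζ * (1 + 2 * δ)
  hj : L.j = 1 - (v : ZMod 3)
  hq : L.q (-1) * q2 v δ (-1) = -1
  /-- the value of `k` at `2` -/
  k2 : L.k 2 * emb ζ = 1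
  /-- the cubic character of the field -/
  kpk : ∀ x : Eis, IsCoprime x (2 * L.f) → C.kp x = conj (L.k x) * cr (-2) x ^ (1 - L.j).val
  gdvd : C.g ∣ (if L.j = 1 then L.f else 2 * L.f)
  /-- the primes of bad reduction divide the level -/
  fdvd : ∀ p : Eis, Prime p → ¬ p ∣ 6 → p ∣ D → p ∣ L.f
  fla : ¬ la ∣ D → la ∣ L.f
  /-- the Galois action on `∛D` -/
  gal : ∃ M₀ : Eis, M₀ ≠ 0 ∧ ∀ σ : ℂ ≃+* ℂ, σ w = w → ∀ M g : Eis, M ≠ 0 → M₀ ∣ M → GalU σ M g → σ (JT.cD D) = C.kp g * JT.cD D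

/-- Some prime `p ∣ f` splits completely in `ℚ(ω, ∛D)`. -/
def Spl {D : Eis} (d : DtW D) : Prop := ∃ p : Eis, Prime p ∧ p ∣ d.L.f ∧ d.C.kp p = 1

/-- `2` divides a Tamagawa number of `E_D` (`D` free of sixth powers and not a cube). -/
def Ex2 (D : Eis) : Prop :=
  (∃ p c x : Eis, Prime p ∧ ¬ p ∣ 6 ∧ ¬ p ∣ c ∧ D = p ^ 3 * c ∧ p ∣ c - x ^ 3) ∨
  (∃ η : Eis, (η = 1 ∨ η = -1) ∧ la ^ 4 ∣ D - η) ∨
  (∃ c : Eis, D = 8 * c ∧ (2 : Eis) ∣ c - 1) ∨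
  (∃ c y : Eis, ¬ (2 : Eis) ∣ c ∧ D = 4 * c ∧ (4 : Eis) ∣ c - y ^ 2 - 2)

/-- The statement on the central value: rational, and zero or divisible by `2`. -/
def LValS (D : Eis) : Prop :=
  ∃ p₂ pl : Eis, JG.Val2 D p₂ ∧ JG.ValL D pl ∧
  ∃ Φ : ℂ → ℂ, Differentiable ℂ Φ ∧
    (∀ s : ℂ, 3 / 2 < s.re → Φ s = LSeries (fun n => NAB.IL CF.KK (fun I => conj (emb (JG.PsiG D p₂ pl I))) n) s) ∧
    ∃ q : ℚ, Φ 1 * conj (Φ 1) = (((q : ℝ) * JG.kap D / ‖emb (4 * D)‖ ^ ((1 : ℝ) / 3) : ℝ) : ℂ) * (Om : ℂ) ^ 2 ∧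
      (q = 0 ∨ 0 < padicValRat 2 q)

end J2S
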