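import Pool.Agent.J2E.U3c

/-!
# [J2S-I3] the valuations of `y(z)`, `h(z)` at `λ` if the order of `z` is `λ^n m`, `m ≠ 1` prime to `6`

As `u3c_y`, `u3c_h` (J2E/U3c.lean), which is the case `n = 0`; `τ = Tm`, `v(λ) = 1`, `v(3) = 2`.
PROOF. (1) `Tm_la'`: for `Nl (emb la * z)`: `-θ τ(λ z) (1 + 3 τ²) = τ³ + 3 τ`. As `JGL.Tm_la` (JGL/T.lean), which uses `OT z` only for `xw z ≠ 0` (`T_xw_ne`) and `T_x3`. Here `T_x3` is `weq` (`4 x³ = y² - 1`, `y = -θ τ`, `θ² = -3`), and `xw z ≠ 0` because of `Nl (emb la * z)`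
(look in CUL for the zeros of `xw`, near `CUL.yw_la`, `CUL.xw_la`; for example from `4 x³ (..)`: `yw_la` and `xw_la` at a point with `xw z = 0` would give the value `0 / 0 = 0` for both coordinates of `λ z`, against `weq`).
(2) STEP DOWN: if `Nl (emb la * z)` and `|τ(λ z)|² = |λ|` then `|τ(z)|² = |λ|`. With `s = v(τ(z))`, `v(λ) = v(θ) = 1`, `v(3) = 2` and `v(τ(λ z)) = 1/2`:
 `|τ|² |3| > 1` (`s < -1`): `|1 + 3 τ²| = |3| |τ|²`, `|τ³ + 3 τ| = |τ|³`, so `|θ| |λ|^(1/2) |3| = |τ|`, `|τ| < 1`: contradiction; `|3| |τ|² = 1`: `|τ³ + 3 τ| = |τ|³ > 1`, but the left side is `< 1`;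
 `|3| |τ|² < 1`: `|1 + 3 τ²| = 1`, so `|θ| |τ(λ z)| = |τ| |τ² + 3|`. If `|τ|² > |3|`: `|τ|³ = |θ| |τ(λ z)|`, so `|τ|⁶ = |λ|³`. If `|τ|² ≤ |3|` (`|τ| ≤ |λ|`): the right side is `≤ |λ| |3| = |λ|³`, the left side has square `|λ|³`: contradiction.
 (`|τ| ^ 6 = |λ| ^ 3` gives `|τ| ^ 2 = |λ|`: `pow_left_inj₀`.)
(3) Induction on `n` from `u3c_T` for `emb la ^ n * z`. (4) `u3c_y` and `u3c_h` word by word; for `h` apply (3) to `z + z` (`u3c_OT2` for the point `emb la ^ n * z`). -/

set_option autoImplicit false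

open MeasureTheory Set Filter Topology
open scoped Classical ComplexConjugate

namespace J2S

open CM27 JZ
open CU (la eE)
open CUL (Nl ta rp IsRep zw GalU OT)
open JGL (GalP Tm ym th)
open J2E

variable {B : ValuationSubring ℂ}

theorem Tm_la' {z : ℂ} (hz : Nl (emb la * z)) : -th * Tm (emb la * z) * (1 + 3 * Tm z ^ 2) = Tm z ^ 3 + 3 * Tm z := by
  rcases CUL.u4_la_cases z with ⟨-, h⟩ | ⟨hzn, hx, -⟩
  · exact absurd h hz
  have h1 := CUL.yw_la z
  have hxm : JGL.xm z ^ 3 = xw z ^ 3 := by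
    unfold JGL.xm
    linear_combination xw z ^ 3 * CUL.w3
  have hT : yw z = -(th * Tm z) := by
    unfold Tm ym
    rw [mul_div_cancel₀ _ JGL.T_th_ne, neg_neg]
  have hT' : yw (emb la * z) = -(th * Tm (emb la * z)) := by
    unfold Tm ym
    rw [mul_div_cancel₀ _ JGL.T_th_ne, neg_neg]
  have h3 : 4 * JGL.xm z ^ 3 = -(1 + 3 * Tm z ^ 2) := by
    have h4 := JGL.ym_sq hzn
    have h5 : ym z = th * Tm z := by
      unfold Tm
      rw [mul_div_cancel₀ _ JGL.T_th_ne]
    rw [h5] at h4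
    linear_combination -h4 + Tm z ^ 2 * JGL.th_sq
  have hla : emb la ^ 3 = -3 * th := CUL.la_cube
  rw [hxm] at h3
  have hx3 : xw z ^ 3 ≠ 0 := pow_ne_zero _ hx
  have hth := JGL.T_th_ne
  rw [hla, hT, hT', eq_div_iff (mul_ne_zero (mul_ne_zero (by norm_num) hth) hx3)] at h1
  have h4 : th * (-th * Tm (emb la * z) * (1 + 3 * Tm z ^ 2)) = th * (Tm z ^ 3 + 3 * Tm z) := by
    linear_combination (4 / 3) * h1 + (-th ^ 2 * Tm (emb la * z) - th * Tm z / 3) * h3
  exact mul_left_cancel₀ hth h4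

theorem is3_nl {α : Eis} {z : ℂ} (hz : Nl (emb α * z)) : Nl z := by
  rintro ⟨b, rfl⟩
  exact hz ⟨α * b, by rw [map_mul]⟩

/-- the step down -/
theorem is3_step (hB : B.valuation 3 < 1) {z : ℂ} (hz : Nl (emb la * z))
    (h : B.valuation (Tm (emb la * z)) ^ 2 = B.valuation (emb la)) : B.valuation (Tm z) ^ 2 = B.valuation (emb la) := by
  have hL := CUL.w_la B hB
  have hL1 := CUL.w_la_lt B hB
  have hL0 : 0 < B.valuation (emb la) := by
    rw [zero_lt_iff, Valuation.ne_zero_iff]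
    exact CUL.la_ne
  have vth : B.valuation th = B.valuation (emb la) := by
    rw [JGL.th_eq, map_mul, CUL.w_w, one_mul]
  have h4 := congrArg B.valuation (Tm_la' hz)
  rw [show Tm z ^ 3 + 3 * Tm z = Tm z * (Tm z ^ 2 + 3) by ring, map_mul, map_mul, map_mul, Valuation.map_neg, vth] at h4
  have e1 : B.valuation (3 * Tm z ^ 2) = B.valuation 3 * B.valuation (Tm z) ^ 2 := by rw [map_mul, map_pow]
  have e2 : B.valuation (Tm z ^ 2) = B.valuation (Tm z) ^ 2 := map_pow _ _ _
  set L := B.valuation (emb la) with hLdef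
  set u := B.valuation (Tm (emb la * z)) with hudef
  set t := B.valuation (Tm z) with htdef
  have hu1 : u < 1 := by
    by_contra h1
    push Not at h1
    have h2 : 1 ≤ u ^ 2 := one_le_pow₀ h1
    rw [h] at h2
    exact absurd hL1 (not_lt.2 h2)
  have hL2 : L * L < L := by
    calc L * L < 1 * L := (mul_lt_mul_iff_left₀ hL0).2 hL1
      _ = L := one_mul _
  -- if `|τ| > 1`
  have hbig : 1 < t → B.valuation (Tm z ^ 2 + 3) = t ^ 2 := by
    intro h1
    have h2 : (1 : B.ValueGroup) < t ^ 2 := one_lt_pow₀ h1 (by norm_num)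
    rw [Valuation.map_add_eq_of_lt_left _ (by rw [e2]; exact hB.trans h2), e2]
  have hgt : 1 ≤ B.valuation 3 * t ^ 2 → 1 < t := by
    intro h1
    by_contra h2
    push Not at h2
    have h3 : B.valuation 3 * t ^ 2 ≤ B.valuation 3 * 1 := mul_le_mul' le_rfl (pow_le_one₀ zero_le h2)
    rw [mul_one] at h3
    exact absurd (h1.trans h3) (not_le.2 hB)
  rcases lt_trichotomy (B.valuation 3 * t ^ 2) 1 with hc | hc | hc
  · -- `|3| |τ|² < 1`
    have h1 : B.valuation (1 + 3 * Tm z ^ 2) = 1 := by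
      rw [Valuation.map_add_eq_of_lt_left _ (by rw [map_one, e1]; exact hc), map_one]
    rw [h1, mul_one] at h4
    rcases lt_or_ge (B.valuation 3) (t ^ 2) with h2 | h2
    · rw [Valuation.map_add_eq_of_lt_left _ (by rw [e2]; exact h2), e2] at h4
      have h5 : (t ^ 2) ^ 3 = L ^ 3 := by
        calc (t ^ 2) ^ 3 = (t * t ^ 2) ^ 2 := by
              rw [← pow_succ', ← pow_mul, ← pow_mul]
          _ = (L * u) ^ 2 := by rw [h4]
          _ = L ^ 2 * u ^ 2 := mul_pow _ _ _
          _ = L ^ 3 := by rw [h, ← pow_succ]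
      exact (pow_left_inj₀ zero_le zero_le (by norm_num)).1 h5
    · exfalso
      have h5 : t ≤ L := by
        rw [← hL] at h2
        exact (pow_le_pow_iff_left₀ zero_le zero_le two_ne_zero).1 h2
      have h6 : B.valuation (Tm z ^ 2 + 3) ≤ L ^ 2 := by
        refine (B.valuation.map_add _ _).trans (max_le ?_ ?_)
        · rw [e2, hL]
          exact h2
        · rw [hL]
      have h7 : L * u ≤ L * L ^ 2 := by
        rw [h4]
        exact mul_le_mul' h5 h6
      have h8 : u ≤ L ^ 2 := (mul_le_mul_iff_right₀ hL0).1 h7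
      have h9 : u ^ 2 ≤ (L ^ 2) ^ 2 := pow_le_pow_left' h8 2
      rw [h] at h9
      have h10 : (L ^ 2) ^ 2 < L := by
        calc (L ^ 2) ^ 2 = L ^ 2 * L ^ 2 := pow_two _
          _ ≤ L ^ 2 * 1 := mul_le_mul' le_rfl (pow_le_one₀ zero_le hL1.le)
          _ = L * L := by rw [mul_one, pow_two]
          _ < L := hL2
      exact absurd h9 (not_le.2 h10)
  · exfalso
    have h1 := hgt hc.ge
    rw [hbig h1] at h4
    have h2 : B.valuation (1 + 3 * Tm z ^ 2) ≤ 1 := by
      refine (B.valuation.map_add _ _).trans (max_le (by rw [map_one]) ?_)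
      rw [e1, hc]
    have h3 : L * u * B.valuation (1 + 3 * Tm z ^ 2) ≤ 1 :=
      mul_le_one' (mul_le_one' hL1.le hu1.le) h2
    rw [h4, ← pow_succ'] at h3
    exact absurd h3 (not_le.2 (one_lt_pow₀ h1 (by norm_num)))
  · exfalso
    have h1 := hgt hc.le
    have h2 : B.valuation (1 + 3 * Tm z ^ 2) = B.valuation 3 * t ^ 2 := by
      rw [Valuation.map_add_eq_of_lt_right _ (by rw [map_one, e1]; exact hc), e1]
    have ht2 : 0 < t ^ 2 := pow_pos (zero_lt_one.trans h1) 2
    rw [hbig h1, h2, ← mul_assoc] at h4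
    have h3 : L * u * B.valuation 3 = t := mul_right_cancel₀ ht2.ne' h4
    have h5 : L * u * B.valuation 3 ≤ 1 := mul_le_one' (mul_le_one' hL1.le hu1.le) hB.le
    rw [h3] at h5
    exact absurd h5 (not_le.2 h1)

theorem is_T3 (hB : B.valuation 3 < 1) {z : ℂ} (n : ℕ) (hz : OT (emb la ^ n * z)) {m : Eis}
    (hm : emb m * (emb la ^ n * z) ∈ Set.range emb) (hm2 : IsCoprime m 2) : B.valuation (Tm z) ^ 2 = B.valuation (emb la) := by
  induction n generalizing z with
  | zero =>
    rw [pow_zero, one_mul] at hz hm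
    exact u3c_T hB hz hm hm2
  | succ n ih =>
    have e : emb la ^ (n + 1) * z = emb la ^ n * (emb la * z) := by
      rw [pow_succ, mul_assoc]
    rw [e] at hz hm
    have h1 := ih hz hm
    refine is3_step hB ?_ h1
    refine is3_nl (α := la ^ n) ?_
    rw [map_pow]
    exact hz.1

theorem is_y3 (hB : B.valuation 3 < 1) {z : ℂ} (n : ℕ) (hz : OT (emb la ^ n * z)) {m : Eis}
    (hm : emb m * (emb la ^ n * z) ∈ Set.range emb) (hm2 : IsCoprime m 2) : B.valuation (yw z) ^ 4 = B.valuation 3 ^ 3 := by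
  have h1 := is_T3 hB n hz hm hm2
  have hL := CUL.w_la B hB
  have vth : B.valuation th = B.valuation (emb la) := by
    rw [JGL.th_eq, map_mul, CUL.w_w, one_mul]
  have h2 : yw z = -(th * Tm z) := by
    unfold Tm ym
    rw [mul_div_cancel₀ _ JGL.T_th_ne, neg_neg]
  rw [h2, Valuation.map_neg, map_mul, vth, ← hL]
  calc (B.valuation (emb la) * B.valuation (Tm z)) ^ 4
      = B.valuation (emb la) ^ 4 * (B.valuation (Tm z) ^ 2) ^ 2 := by
        rw [mul_pow, ← pow_mul]
    _ = (B.valuation (emb la) ^ 2) ^ 3 := by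
        rw [h1, ← pow_add, ← pow_mul]

theorem is_h3 (hB : B.valuation 3 < 1) {z : ℂ} (n : ℕ) (hz : OT (emb la ^ n * z)) {m : Eis}
    (hm : emb m * (emb la ^ n * z) ∈ Set.range emb) (hm2 : IsCoprime m 2) : B.valuation (hT z) ^ 4 = B.valuation 3 := by
  obtain ⟨hz2, hm2z⟩ := u3c_OT2 hz hm hm2
  have e : emb la ^ n * z + emb la ^ n * z = emb la ^ n * (z + z) := (mul_add _ _ _).symm
  rw [e] at hz2 hm2z
  have hnz : Nl z := is3_nl (α := la ^ n) (by rw [map_pow]; exact hz.1)
  have hnz2 : Nl (z + z) := is3_nl (α := la ^ n) (by rw [map_pow]; exact hz2.1)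
  have hy := is_y3 hB n hz2 hm2z hm2
  have hy0 := u3c_y_ne hnz hnz2
  have hL := CUL.w_la B hB
  have hL0 : 0 < B.valuation (emb la) := by
    rw [zero_lt_iff, Valuation.ne_zero_iff]
    exact CUL.la_ne
  have v4 := JL.a1_four B hB
  have hww : B.valuation w = 1 := CUL.w_w B
  have ve : B.valuation eh = 1 := by
    refine JL.a1_r B hB ?_
    rw [eh_cube]
    norm_num
  have hfac := u3c_fac (weq _ hnz2) eh_cube
  have hw2 := CUL.w2
  have hw3 := CUL.w3
  have w1 : B.valuation (1 - w) = B.valuation (emb la) := by rw [CUL.emb_la]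
  have d1 : B.valuation ((1 - w) * eh) = B.valuation (emb la) := by rw [map_mul, w1, ve, mul_one]
  have d2 : B.valuation ((1 - w ^ 2) * eh) = B.valuation (emb la) := by
    have e : (1 - w ^ 2) * eh = -(w ^ 2 * ((1 - w) * eh)) := by
      linear_combination (eh : ℂ) * hw2 - (eh : ℂ) * hw3 - (eh : ℂ) * hw2
    rw [e, Valuation.map_neg, map_mul, map_pow, hww, one_pow, one_mul, d1]
  have e1 : xw (z + z) - w * eh = (xw (z + z) - eh) + (1 - w) * eh := by ring
  have e2 : xw (z + z) - w ^ 2 * eh = (xw (z + z) - eh) + (1 - w ^ 2) * eh := by ring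
  have h1 : (B.valuation (xw (z + z) - eh) * (B.valuation (xw (z + z) - w * eh) *
      B.valuation (xw (z + z) - w ^ 2 * eh))) = B.valuation (emb la) ^ 3 := by
    have h2 := congrArg B.valuation hfac
    rw [map_pow, map_mul, v4, one_mul, map_mul, map_mul] at h2
    have h3 : (B.valuation (xw (z + z) - eh) * (B.valuation (xw (z + z) - w * eh) *
      B.valuation (xw (z + z) - w ^ 2 * eh))) ^ 2 = (B.valuation (emb la) ^ 3) ^ 2 := by
      rw [← h2, ← pow_mul, hy, ← hL, ← pow_mul, ← pow_mul]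
    exact (pow_left_inj₀ zero_le zero_le (by norm_num)).1 h3
  have h2 : B.valuation (xw (z + z) - eh) = B.valuation (emb la) := by
    rcases lt_trichotomy (B.valuation (xw (z + z) - eh)) (B.valuation (emb la)) with h | h | h
    · exfalso
      rw [e1, e2, Valuation.map_add_eq_of_lt_right _ (by rwa [d1]),
        Valuation.map_add_eq_of_lt_right _ (by rwa [d2]), d1, d2] at h1
      have h3 : B.valuation (xw (z + z) - eh) * (B.valuation (emb la) * B.valuation (emb la)) <
          B.valuation (emb la) ^ 3 := by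
        rw [pow_succ', pow_two]
        exact (mul_lt_mul_iff_left₀ (mul_pos hL0 hL0)).2 h
      exact absurd h1 (ne_of_lt h3)
    · exact h
    · exfalso
      rw [e1, e2, Valuation.map_add_eq_of_lt_left _ (by rwa [d1]),
        Valuation.map_add_eq_of_lt_left _ (by rwa [d2])] at h1
      have h3 : B.valuation (emb la) ^ 3 < B.valuation (xw (z + z) - eh) ^ 3 :=
        pow_lt_pow_left₀ h zero_le (by norm_num)
      rw [← h1, pow_succ', pow_two] at h3
      exact absurd h3 (lt_irrefl _)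
  have h3 : B.valuation (hT z) ^ 2 = B.valuation (emb la) := by
    rw [← map_pow, u3c_hsq hnz hnz2 hy0, h2]
  calc B.valuation (hT z) ^ 4 = (B.valuation (hT z) ^ 2) ^ 2 := by rw [← pow_mul]
    _ = B.valuation 3 := by rw [h3, hL]

end J2S
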