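import Pool.Agent.J2S.W

/-!
# [J2S-N] if a prime `p ∣ f` splits in `ℚ(ω, ∛D)` then `f` is not a power of `p`

PROOF. `f = p ^ n m`, `¬ p ∣ m` (`FiniteMultiplicity.of_prime_left hp`, `exists_eq_pow_mul_and_not_dvd`, see `w_loc`). Assume that `m` is a unit. `kp p = 1 ≠ 0`, so `p` is prime to `g = C.g` (`C.kp_zero`).
`j = 1`: `g ∣ f` (`d.gdvd`), `g` is prime to `p ^ n` and `m` is a unit, so `g` is a unit (`IsCoprime.isUnit_of_dvd'` or `IsCoprime.dvd_of_dvd_mul_left`), and `kp x = kp 1 = 1` for all `x` (`C.kp_per`, `C.kp_unit`): contradiction to `C.kp_non`.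
`j ≠ 1`: `g ∣ 2 f`, so `g ∣ 2`. By `C.kp_non` there is `x` prime to `g` with `kp x ≠ 1`. If `2 ∣ x` then `g` is a unit (`g ∣ 2 ∣ x` and `x` is prime to `g`), as before. Otherwise `x ≡ ω^i mod 2` (`J2E.u2_mod2`, J2E/U2.lean; `IsCoprime x 2` by `Q3.prime_two`), so `kp x = kp (ω^i) = 1` (`g ∣ 2 ∣ x - ω^i`, `C.kp_per`, `C.kp_unit`). -/

set_option autoImplicit false

open MeasureTheory Set Filter Topology
open scoped Classical ComplexConjugate

namespace J2S

open CM27 JZ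
open CU (la eE)
open CUL (Nl ta rp IsRep zw cr GalU)
open JGL (GalP)
open J2L (Lv Cub LC IsU Ph IsA gE uE Lam)
open J2E

variable {D : Eis}

/-- `f` is not a power of `p` (up to units) -/
def NotPP (f p : Eis) : Prop := ∃ (n : ℕ) (m : Eis), f = p ^ n * m ∧ ¬ p ∣ m ∧ ¬ IsUnit m

theorem n_unit_non (d : DtW D) (hg : IsUnit d.C.g) : False := by
  obtain ⟨x, -, hx1⟩ := d.C.kp_non
  apply hx1
  rw [d.C.kp_per x 1 hg.dvd, d.C.kp_unit 1 isUnit_one]

theorem notPP (d : DtW D) {p : Eis} (hp : Prime p) (h1 : d.C.kp p = 1) : NotPP d.L.f p := by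
  have hdom := eis_isDomain
  have hpid := eis_pid
  have hfin : FiniteMultiplicity p d.L.f := FiniteMultiplicity.of_prime_left hp d.L.hf
  obtain ⟨m, hm, hpm⟩ := hfin.exists_eq_pow_mul_and_not_dvd
  refine ⟨_, m, hm, hpm, fun hmu => ?_⟩
  have hpg : IsCoprime p d.C.g := by
    by_contra h
    have h2 := d.C.kp_zero p h
    rw [h1] at h2
    exact one_ne_zero h2
  have hmc : IsCoprime m d.C.g := by
    obtain ⟨v, hv⟩ := hmu.exists_left_inv
    exact ⟨v, 0, by rw [zero_mul, add_zero]; exact hv⟩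
  have hfg : IsCoprime d.L.f d.C.g := by
    rw [hm]
    exact (hpg.pow_left).mul_left hmc
  by_cases hj : d.L.j = 1
  · have hg : d.C.g ∣ d.L.f := by
      have := d.gdvd
      rwa [if_pos hj] at this
    exact n_unit_non d (hfg.isUnit_of_dvd' hg dvd_rfl)
  · have hg : d.C.g ∣ 2 * d.L.f := by
      have := d.gdvd
      rwa [if_neg hj] at this
    have hg2 : d.C.g ∣ 2 := hfg.symm.dvd_of_dvd_mul_right hg
    obtain ⟨x, hx, hx1⟩ := d.C.kp_non
    by_cases h2 : (2 : Eis) ∣ x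
    · exact n_unit_non d (hx.isUnit_of_dvd' (hg2.trans h2) dvd_rfl)
    · have hx2 : IsCoprime x 2 := ((Q3.prime_two.irreducible.coprime_iff_not_dvd).2 h2).symm
      obtain ⟨i, j, hij, hd⟩ := u2_mod2 hx2
      apply hx1
      rw [d.C.kp_per x (CU.om ^ i) (hg2.trans hd)]
      have hom3 : CU.om ^ 3 = 1 := by decide
      exact d.C.kp_unit _ (IsUnit.of_mul_eq_one (CU.om ^ j) (by rw [← pow_add, hij, hom3]))

end J2S
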