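import Pool.Agent.J2S.I
import Pool.Agent.J2S.I3
import Pool.Agent.J2S.N
import Pool.Agent.J2E.U5

/-!
# [J2S-U] the elliptic unit is a unit, without the condition `Loc` at the primes `p ∣ f` for which `f` is not a power of `p`
-/

set_option autoImplicit false

open MeasureTheory Set Filter Topology
open scoped Classical ComplexConjugate

namespace J2S

open CM27 JZ
open CU (la eE)
open CUL (Nl ta rp IsRep zw GalU)
open JGL (GalP)
open J2E

variable {f c₁ D : Eis} {k κ : Eis → ℂ} {R : Finset Eis} {s : ℂ}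

theorem unit_main {Φ : Eis → ℂ} (h : Ch f k) (hR : IsR0 f k R) (hc : IsCoprime c₁ f) (hc1 : k c₁ = w)
    (hΦ : GD f k κ Φ) (hD0 : D ≠ 0) (hs : s ^ 3 = emb D) (hG : GalP fun σ g => σ s = κ g * s)
    (hloc : ∀ p, Prime p → p ∣ f → Loc D p ∨ ∀ B : ValuationSubring ℂ, B.valuation (emb p) < 1 → ∀ c c' : Eis,
      IsCoprime c f → IsCoprime c' f → B.valuation (Φ c) = B.valuation (Φ c'))
    (hval : ∀ (B : ValuationSubring ℂ) (p : Eis), Prime p → ¬ p ∣ f → B.valuation (emb p) < 1 →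
      ∀ c c' : Eis, IsCoprime c f → IsCoprime c' f → B.valuation (Φ c) = B.valuation (Φ c'))
    {i : ℕ} (hi : i < 3) : IsIntegral ℤ (ei Φ R c₁ i) ∧ IsIntegral ℤ (ei Φ R c₁ i)⁻¹ := by
  have hs0 : s ≠ 0 := by
    rintro rfl
    have h1 := U4a_emb_ne hD0
    apply h1
    rw [← hs]
    norm_num
  have hC := ei_C3 h hR hc hc1 hΦ hs0 hG
  have hP := ei_prod h hR hc hc1 hΦ
  have key : ∀ B : ValuationSubring ℂ, B.valuation (ei Φ R c₁ 0) = 1 ∧ B.valuation (ei Φ R c₁ 1) = 1 ∧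
      B.valuation (ei Φ R c₁ 2) = 1 := by
    intro B
    by_cases hex : ∃ p : Eis, Prime p ∧ B.valuation (emb p) < 1
    · obtain ⟨p, hp, hB⟩ := hex
      have hor : (p ∣ f ∧ Loc D p) ∨ ∀ c c' : Eis, IsCoprime c f → IsCoprime c' f → B.valuation (Φ c) = B.valuation (Φ c') := by
        by_cases hpf : p ∣ f
        · rcases hloc p hp hpf with h1 | h1
          · exact Or.inl ⟨hpf, h1⟩
          · exact Or.inr (h1 B hB)
        · exact Or.inr (hval B p hp hpf hB)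
      rcases hor with ⟨hpf, hl⟩ | hor
      · obtain ⟨h1, h2⟩ := Loc_val hp hD0 hl hB hs hC
        have h3 : B.valuation (ei Φ R c₁ 0) ^ 3 = 1 := by
          have h4 : B.valuation (ei Φ R c₁ 0) * B.valuation (ei Φ R c₁ 1) * B.valuation (ei Φ R c₁ 2) = 1 := by
            rw [← map_mul, ← map_mul]
            rcases hP with h | h
            · rw [h, map_one]
            · rw [h, Valuation.map_neg, map_one]
          rw [← h2, ← h1] at h4
          rw [pow_three', h4]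
        have h5 : B.valuation (ei Φ R c₁ 0) = 1 := (pow_eq_one_iff.1 h3).resolve_right (by norm_num)
        exact ⟨h5, by rw [← h1, h5], by rw [← h2, ← h1, h5]⟩
      · have hcop : ∀ j : ℕ, ∀ c ∈ R, IsCoprime (c₁ ^ j * c) f := fun j c hcR =>
          (hc.pow_left).mul_left (hR.1 c hcR).1
        have hg : ∀ j : ℕ, B.valuation (gi Φ R c₁ j) = B.valuation (gi Φ R c₁ (j + 1)) := by
          intro j
          rw [gi, gi, map_prod, map_prod]
          exact Finset.prod_congr rfl fun c hcR => hor _ _ (hcop _ _ hcR) (hcop _ _ hcR)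
        have he : ∀ j : ℕ, B.valuation (ei Φ R c₁ j) = 1 := by
          intro j
          rw [ei, map_div₀, ← hg j]
          exact div_self ((Valuation.ne_zero_iff _).mpr (gi_ne h hR hc hΦ j))
        exact ⟨he 0, he 1, he 2⟩
    · -- the valuation is trivial on `ℚ(ω)`
      have htriv : ∀ a : Eis, a ≠ 0 → B.valuation (emb a) = 1 := by
        intro a ha
        refine le_antisymm (i2_emb_le a) ?_
        by_contra hlt
        exact hex (U5_prime B a ha (not_le.1 hlt))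
      have hK : ∀ u : ℂ, u ∈ CF.KK → B.valuation u ≤ 1 := by
        intro u hu
        obtain ⟨b, a, hb, hab⟩ := U4a_repr hu
        have h1 : B.valuation (emb b) * B.valuation u = B.valuation (emb a) := by rw [← map_mul, hab]
        rw [htriv b hb, one_mul] at h1
        rw [h1]
        exact i2_emb_le a
      have hsv : B.valuation s = 1 := by
        have h1 : B.valuation s ^ 3 = 1 := by rw [← map_pow, hs, htriv D hD0]
        exact (pow_eq_one_iff.1 h1).resolve_right (by norm_num)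
      have hle : ∀ {u₀ u₁ u₂ x : ℂ}, u₀ ∈ CF.KK → u₁ ∈ CF.KK → u₂ ∈ CF.KK → B.valuation x ≤ 1 →
          B.valuation (u₀ + u₁ * x + u₂ * x ^ 2) ≤ 1 := by
        intro u₀ u₁ u₂ x h0 h1 h2 hx
        refine (B.valuation.map_add _ _).trans (max_le ((B.valuation.map_add _ _).trans (max_le ?_ ?_)) ?_)
        · exact hK _ h0
        · rw [map_mul]
          exact mul_le_one' (hK _ h1) hx
        · rw [map_mul, map_pow]
          exact mul_le_one' (hK _ h2) (pow_le_one' hx 2)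
      obtain ⟨u₀, u₁, u₂, h0, h1, h2, e0, e1, e2⟩ := hC
      refine U5_three ?_ ?_ ?_ hP
      · rw [e0]
        exact hle h0 h1 h2 hsv.le
      · rw [e1]
        refine hle h0 h1 h2 ?_
        rw [map_mul, CUL.w_w, one_mul]
        exact hsv.le
      · rw [e2]
        refine hle h0 h1 h2 ?_
        rw [map_mul, map_pow, CUL.w_w, one_pow, one_mul]
        exact hsv.le
  have hall : ∀ B : ValuationSubring ℂ, B.valuation (ei Φ R c₁ i) = 1 := by
    intro B
    obtain ⟨h0, h1, h2⟩ := key B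
    interval_cases i
    · exact h0
    · exact h1
    · exact h2
  refine ⟨U5_int fun B => (hall B).le, U5_int fun B => ?_⟩
  rw [map_inv₀, hall B, inv_one]

/-- the point `p ^ n (c / f) = c / m` -/
theorem U_point (h : Ch f k) {p : Eis} {n : ℕ} {m : Eis} (hf : f = p ^ n * m) (hm : ¬ IsUnit m) {c : Eis} (hc : IsCoprime c f) :
    Nl (emb (p ^ n) * (emb c / emb f)) ∧ emb m * (emb (p ^ n) * (emb c / emb f)) = emb c := by
  have hf0 : emb f ≠ 0 := U4a_emb_ne h.F0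
  have e : emb f = emb (p ^ n) * emb m := by rw [hf, map_mul]
  have h1 : emb (p ^ n) ≠ 0 := by
    intro h1
    rw [h1, zero_mul] at e
    exact hf0 e
  have h2 : emb m ≠ 0 := by
    intro h2
    rw [h2, mul_zero] at e
    exact hf0 e
  have h3 : emb m * (emb (p ^ n) * (emb c / emb f)) = emb c := by
    rw [e]
    field_simp
  refine ⟨?_, h3⟩
  rintro ⟨b, hb⟩
  apply hm
  have h4 : c = m * b := by
    apply emb_injective
    rw [map_mul, hb, h3]
  have h5 : m ∣ f := ⟨p ^ n, by rw [hf, mul_comm]⟩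
  exact hc.isUnit_of_dvd' ⟨b, h4⟩ h5

theorem U_la {p : Eis} (hp : Prime p) (h3 : p ∣ 3) : ∃ u : Eisˣ, p * u = la := by
  have := eis_isDomain
  have hunit : IsUnit (⟨1, 1⟩ : Eis) := by
    refine IsUnit.of_mul_eq_one ⟨0, -1⟩ ?_
    decide
  rw [U4c_three] at h3
  have h4 : p ∣ la := by
    rcases hp.dvd_or_dvd h3 with h | h
    · exact hp.dvd_of_dvd_pow h
    · exact absurd (isUnit_of_dvd_unit h hunit) hp.not_isUnit
  exact hp.associated_of_dvd CUL.la_prime h4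

theorem val_lt {B : ValuationSubring ℂ} {p n : Eis} (hB : B.valuation (emb p) < 1) (h : p ∣ n) : B.valuation (emb n) < 1 := by
  obtain ⟨e, rfl⟩ := h
  rw [map_mul, map_mul]
  exact lt_of_le_of_lt (mul_le_of_le_one_right' (i2_emb_le e)) hB

/-- the data at `λ` -/
theorem U_data (h : Ch f k) (h2 : IsCoprime f 2) {p : Eis} (hp : Prime p) (h3 : p ∣ 3) (hn : NotPP f p) :
    ∃ (n : ℕ) (m : Eis), IsCoprime m 2 ∧ ¬ la ∣ m ∧ ∀ c : Eis, IsCoprime c f →
      CUL.OT (emb la ^ n * (emb c / emb f)) ∧ emb m * (emb la ^ n * (emb c / emb f)) ∈ Set.range emb := by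
  have := eis_isDomain
  have := eis_pid
  obtain ⟨n, m, hf, hpm, hm⟩ := hn
  obtain ⟨u, hu⟩ := U_la hp h3
  -- `f = la ^ n * m'`
  have hf' : f = la ^ n * ((↑(u⁻¹) : Eis) ^ n * m) := by
    rw [hf, ← hu, mul_pow]
    have e : (u : Eis) ^ n * (↑(u⁻¹) : Eis) ^ n = 1 := by rw [← mul_pow, Units.mul_inv, one_pow]
    linear_combination -(p ^ n * m) * e
  have hl : ¬ la ∣ (↑(u⁻¹) : Eis) ^ n * m := by
    intro h1
    apply hpm
    have h4 : p ∣ (↑(u⁻¹) : Eis) ^ n * m := (Dvd.intro _ hu).trans h1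
    rcases hp.dvd_or_dvd h4 with h5 | h5
    · exact absurd (isUnit_of_dvd_unit h5 ((u⁻¹).isUnit.pow n)) hp.not_isUnit
    · exact h5
  have hm' : ¬ IsUnit ((↑(u⁻¹) : Eis) ^ n * m) := fun h1 => hm (isUnit_of_mul_isUnit_right h1)
  have h2m : IsCoprime ((↑(u⁻¹) : Eis) ^ n * m) 2 := by
    rw [hf'] at h2
    exact h2.of_mul_left_right
  refine ⟨n, _, h2m, hl, fun c hc => ?_⟩
  obtain ⟨k1, k2⟩ := U_point h hf' hm' hc
  rw [map_pow] at k1 k2
  refine ⟨⟨k1, ?_⟩, ⟨c, k2.symm⟩⟩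
  obtain ⟨v, hv, hP⟩ := CUL.l6_prim hl
  refine ⟨v * ((↑(u⁻¹) : Eis) ^ n * m), hP, v * c, ?_⟩
  rw [map_mul, map_mul]
  linear_combination (-emb v) * k2

theorem val_y (h : Ch f k) (h2 : IsCoprime f 2) {p : Eis} (hp : Prime p) (hpf : p ∣ f) (hn : NotPP f p) (B : ValuationSubring ℂ)
    (hB : B.valuation (emb p) < 1) {c c' : Eis} (hc : IsCoprime c f) (hc' : IsCoprime c' f) :
    B.valuation (yw (emb c / emb f)) = B.valuation (yw (emb c' / emb f)) := by
  have := eis_isDomain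
  have := eis_pid
  have hp2 : ¬ p ∣ 2 := fun h1 => hp.not_isUnit (h2.isUnit_of_dvd' hpf h1)
  by_cases h3 : p ∣ 3
  · obtain ⟨n, m, m2, ml, hd⟩ := U_data h h2 hp h3 hn
    have hB3 : B.valuation 3 < 1 := by
      have := val_lt hB h3
      rwa [map_ofNat] at this
    obtain ⟨a1, a2⟩ := hd c hc
    obtain ⟨b1, b2⟩ := hd c' hc'
    refine U5_pow (n := 4) (by norm_num) ?_
    rw [is_y3 hB3 n a1 a2 m2, is_y3 hB3 n b1 b2 m2]
  · have h6 : ¬ p ∣ 6 := by
      intro h6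
      have e : (6 : Eis) = 2 * 3 := by norm_num
      rw [e] at h6
      exact (hp.dvd_or_dvd h6).elim hp2 h3
    obtain ⟨n, m, hf, hpm, hm⟩ := hn
    obtain ⟨a1, a2⟩ := U_point h hf hm hc
    obtain ⟨b1, b2⟩ := U_point h hf hm hc'
    have hmp : IsCoprime m p := ((hp.irreducible.coprime_iff_not_dvd).2 hpm).symm
    have hm2 : IsCoprime m 2 := by
      rw [hf] at h2
      exact h2.of_mul_left_right
    rw [is_y hp h6 hB a1 ⟨c, a2.symm⟩ hmp hm2, is_y hp h6 hB b1 ⟨c', b2.symm⟩ hmp hm2]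

theorem val_h (h : Ch f k) (h2 : IsCoprime f 2) {p : Eis} (hp : Prime p) (hpf : p ∣ f) (hn : NotPP f p) (B : ValuationSubring ℂ)
    (hB : B.valuation (emb p) < 1) {c c' : Eis} (hc : IsCoprime c f) (hc' : IsCoprime c' f) :
    B.valuation (hT (emb c / emb f)) = B.valuation (hT (emb c' / emb f)) := by
  have := eis_isDomain
  have := eis_pid
  have hp2 : ¬ p ∣ 2 := fun h1 => hp.not_isUnit (h2.isUnit_of_dvd' hpf h1)
  by_cases h3 : p ∣ 3
  · obtain ⟨n, m, m2, ml, hd⟩ := U_data h h2 hp h3 hn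
    have hB3 : B.valuation 3 < 1 := by
      have := val_lt hB h3
      rwa [map_ofNat] at this
    obtain ⟨a1, a2⟩ := hd c hc
    obtain ⟨b1, b2⟩ := hd c' hc'
    refine U5_pow (n := 4) (by norm_num) ?_
    rw [is_h3 hB3 n a1 a2 m2, is_h3 hB3 n b1 b2 m2]
  · have h6 : ¬ p ∣ 6 := by
      intro h6
      have e : (6 : Eis) = 2 * 3 := by norm_num
      rw [e] at h6
      exact (hp.dvd_or_dvd h6).elim hp2 h3
    obtain ⟨n, m, hf, hpm, hm⟩ := hn
    obtain ⟨a1, a2⟩ := U_point h hf hm hc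
    obtain ⟨b1, b2⟩ := U_point h hf hm hc'
    have hmp : IsCoprime m p := ((hp.irreducible.coprime_iff_not_dvd).2 hpm).symm
    have hm2 : IsCoprime m 2 := by
      rw [hf] at h2
      exact h2.of_mul_left_right
    rw [is_h hp h6 hB a1 ⟨c, a2.symm⟩ hmp hm2, is_h hp h6 hB b1 ⟨c', b2.symm⟩ hmp hm2]

theorem unit_y' (h : Cu f k) (h2 : IsCoprime f 2) (hR : IsR0 f k R) (hc : IsCoprime c₁ f) (hc1 : k c₁ = w)
    (hD0 : D ≠ 0) (hs : s ^ 3 = emb D) (hG : GalP fun σ g => σ s = k g * s)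
    (hloc : ∀ p, Prime p → p ∣ f → Loc D p ∨ NotPP f p)
    {i : ℕ} (hi : i < 3) : IsIntegral ℤ (ei (fun c => yw (emb c / emb f)) R c₁ i) ∧
      IsIntegral ℤ (ei (fun c => yw (emb c / emb f)) R c₁ i)⁻¹ := by
  refine unit_main h.toCh hR hc hc1 (GD_y h h2) hD0 hs hG (fun p hp hpf => (hloc p hp hpf).imp_right fun hn B hB c c' h1 h3 =>
    val_y h.toCh h2 hp hpf hn B hB h1 h3) ?_ hi
  intro B p hp hpf hB c c' hcf hcf'
  have hN := U5_Nl h.toCh hcf
  have hN' := U5_Nl h.toCh hcf'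
  have hm := U5_mul h.toCh c
  have hm' := U5_mul h.toCh c'
  rcases U5_cases hp hpf hB with ⟨h6, hco⟩ | hB2 | ⟨hB3, hl⟩
  · rw [u3a_y hp h6 hB hN hm hco h2, u3a_y hp h6 hB hN' hm' hco h2]
  · rw [u3b_y hB2 hN hm h2, u3b_y hB2 hN' hm' h2]
  · refine U5_pow (n := 4) (by norm_num) ?_
    rw [u3c_y hB3 (U5_OT h.toCh hcf hl) hm hl h2, u3c_y hB3 (U5_OT h.toCh hcf' hl) hm' hl h2]

theorem unit_h' (h : Ch f k) (h2 : IsCoprime f 2) (h' : Cu (2 * f) κ)
    (hκ : ∀ x, IsCoprime x (2 * f) → (2 : Eis) ∣ x - 1 → κ x = k x) (hR : IsR0 f k R) (hc : IsCoprime c₁ f) (hc1 : k c₁ = w)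
    (hD0 : D ≠ 0) (hs : s ^ 3 = emb D) (hG : GalP fun σ g => σ s = κ g * s)
    (hloc : ∀ p, Prime p → p ∣ f → Loc D p ∨ NotPP f p)
    {i : ℕ} (hi : i < 3) : IsIntegral ℤ (ei (fun c => hT (emb c / emb f)) R c₁ i) ∧
      IsIntegral ℤ (ei (fun c => hT (emb c / emb f)) R c₁ i)⁻¹ := by
  refine unit_main h hR hc hc1 (GD_h h h2 h' hκ) hD0 hs hG (fun p hp hpf => (hloc p hp hpf).imp_right fun hn B hB c c' h1 h3 =>
    val_h h h2 hp hpf hn B hB h1 h3) ?_ hi
  intro B p hp hpf hB c c' hcf hcf'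
  have hN := U5_Nl h hcf
  have hN' := U5_Nl h hcf'
  have hm := U5_mul h c
  have hm' := U5_mul h c'
  rcases U5_cases hp hpf hB with ⟨h6, hco⟩ | hB2 | ⟨hB3, hl⟩
  · rw [u3a_h hp h6 hB hN hm hco h2, u3a_h hp h6 hB hN' hm' hco h2]
  · refine U5_pow (n := 2) (by norm_num) ?_
    rw [u3b_h hB2 hN hm h2, u3b_h hB2 hN' hm' h2]
  · refine U5_pow (n := 4) (by norm_num) ?_
    rw [u3c_h hB3 (U5_OT h hcf hl) hm hl h2, u3c_h hB3 (U5_OT h hcf' hl) hm' hl h2]

end J2S
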