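import Pool.Agent.J2S.A
import Pool.Agent.J2S.U

/-!
# [J2S-E] the elliptic unit if a prime `p ∣ f` splits: it is a unit with absolute values `1`
-/

set_option autoImplicit false

open MeasureTheory Set Filter Topology
open scoped Classical ComplexConjugate

namespace J2S

open CM27 JZ
open CU (la eE)
open CUL (Nl ta rp IsRep zw cr GalU)
open JGL (GalP)
open J2L (Lv Cub LC IsU Ph IsA gE uE Lam)
open J2E

variable {D : Eis}

theorem sq_form {x y : ℝ} (h : x ^ 2 + x * y + y ^ 2 = 0) : x = 0 ∧ y = 0 := by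
  have h1 : y = 0 := by nlinarith [sq_nonneg (2 * x + y), sq_nonneg y]
  rw [h1] at h
  exact ⟨by nlinarith [sq_nonneg x], h1⟩

theorem log_one {z : ℂ} (h0 : z ≠ 0) (h : Real.log ‖z‖ = 0) : ‖z‖ = 1 := by
  rcases Real.log_eq_zero.1 h with h1 | h1 | h1
  · exact absurd (norm_eq_zero.1 h1) h0
  · exact h1
  · have := norm_nonneg z
    rw [h1] at this
    norm_num at this

/-- the properties of the elliptic unit -/
structure ResS (d : DtW D) (R : Finset Eis) (a : Eis) : Prop where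
  c3 : C3 (JT.cD D) (gE d.L R a 0 / gE d.L R a 1) (gE d.L R a 1 / gE d.L R a 2) (gE d.L R a 2 / gE d.L R a 3)
  ne : ∀ i, gE d.L R a i ≠ 0
  int : ∀ i < 3, IsIntegral ℤ (gE d.L R a i / gE d.L R a (i + 1)) ∧ IsIntegral ℤ (gE d.L R a i / gE d.L R a (i + 1))⁻¹
  n0 : ‖gE d.L R a 0 / gE d.L R a 1‖ = 1
  n1 : ‖gE d.L R a 1 / gE d.L R a 2‖ = 1
  n2 : ‖gE d.L R a 2 / gE d.L R a 3‖ = 1

theorem main_S (d : DtW D) (hS : Spl d) {R : Finset Eis} {a : Eis} (hR : J2L.IsR d.L R) (ha : IsA d.L a) : ResS d R a := by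
  have hdom := eis_isDomain
  have hD0 := w_D0 d
  have hR' := w_R hR
  have ha' := w_a ha
  have h2 := w_two d.L
  have hs := JT.cD_cube D
  have hs0 : JT.cD D ≠ 0 := by
    intro h
    rw [h, zero_pow (by norm_num)] at hs
    exact hD0 (emb_injective (by rw [← hs, map_zero]))
  have hl : ∀ p, Prime p → p ∣ d.L.f → Loc D p ∨ NotPP d.L.f p := fun p hp hpf => by
    by_cases h1 : d.C.kp p = 1
    · exact Or.inr (notPP d hp h1)
    · exact Or.inl (w_loc d hp h1 hD0)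
  -- the norm of `e₂`
  have hn2 : ∀ i : Fin 1, gE d.L R a 3 = gE d.L R a 0 ∨ gE d.L R a 3 = -gE d.L R a 0 → (∀ i, gE d.L R a i ≠ 0) →
      ‖gE d.L R a 0 / gE d.L R a 1‖ = 1 → ‖gE d.L R a 1 / gE d.L R a 2‖ = 1 → ‖gE d.L R a 2 / gE d.L R a 3‖ = 1 := by
    intro _ h3 hne e0 e1
    have k0 : ‖gE d.L R a 0‖ = ‖gE d.L R a 1‖ := by
      rw [norm_div, div_eq_one_iff_eq (norm_ne_zero_iff.2 (hne 1))] at e0
      exact e0
    have k1 : ‖gE d.L R a 1‖ = ‖gE d.L R a 2‖ := by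
      rw [norm_div, div_eq_one_iff_eq (norm_ne_zero_iff.2 (hne 2))] at e1
      exact e1
    have k3 : ‖gE d.L R a 3‖ = ‖gE d.L R a 0‖ := by
      rcases h3 with h3 | h3
      · rw [h3]
      · rw [h3, norm_neg]
    rw [norm_div, div_eq_one_iff_eq (norm_ne_zero_iff.2 (hne 3)), k3, k0, k1]
  by_cases hj : d.L.j = 1
  · have hcu := w_cu d hj
    have hΦ : GD d.L.f (kd d.L) (kd d.L) (Ph d.L) := by rw [w_ph1 hj]; exact GD_y hcu h2
    have hg : d.C.g ∣ d.L.f := by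
      have := d.gdvd
      rwa [if_pos hj] at this
    have hG := w_gal1 d hj
    have hne := gi_ne hcu.toCh hR' ha.1 hΦ
    have hIF : IF d.L.f (kd d.L) = 0 := IF_zero (w_cub d.C).toCh hcu.toCh hg (fun x hx => w_kp d hj hx) hS
    obtain ⟨n, -, hn'⟩ := log_y_norm hcu h2
    have hlog := ei_log hcu.toCh h2 hR' ha.1 ha' hΦ
    have e1 : ‖∑ α ∈ rp d.L.f, kd d.L α * ((Real.log ‖Ph d.L α‖ : ℝ) : ℂ)‖ ^ 2 = 0 := by
      rw [w_ph1 hj, hn', hIF, norm_zero]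
      ring
    rw [e1, mul_zero] at hlog
    obtain ⟨l0, l1⟩ := sq_form hlog
    have e0 : ‖gE d.L R a 0 / gE d.L R a 1‖ = 1 := log_one (div_ne_zero (hne 0) (hne 1)) l0
    have e1 : ‖gE d.L R a 1 / gE d.L R a 2‖ = 1 := log_one (div_ne_zero (hne 1) (hne 2)) l1
    have h3 : gE d.L R a 3 = gE d.L R a 0 ∨ gE d.L R a 3 = -gE d.L R a 0 := by
      obtain ⟨ε, hε, he⟩ := gi_add3 hcu.toCh hR' ha.1 ha' hΦ
      have h3 := he 0
      rcases hε with rfl | rfl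
      · left; rw [one_mul] at h3; exact h3
      · right; rw [neg_one_mul] at h3; exact h3
    refine ⟨ei_C3 hcu.toCh hR' ha.1 ha' hΦ hs0 hG, hne, ?_, e0, e1, hn2 0 h3 hne e0 e1⟩
    intro i hi
    have h3 := unit_y' hcu h2 hR' ha.1 ha' hD0 hs hG hl hi
    rw [← w_ph1 hj] at h3
    exact h3
  · have hcu := w_cu2 d hj
    have hch := kd_ch d.L
    have hκ : ∀ x, IsCoprime x (2 * d.L.f) → (2 : Eis) ∣ x - 1 → k2 d x = kd d.L x := fun x hx h1 => w_k2 d hx h1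
    have hΦ : GD d.L.f (kd d.L) (k2 d) (Ph d.L) := by rw [w_ph2 hj]; exact GD_h hch h2 hcu hκ
    have hg : d.C.g ∣ 2 * d.L.f := by
      have := d.gdvd
      rwa [if_neg hj] at this
    have hG := w_gal2 d
    have hw : kd d.L CU.om ≠ 1 := by
      rw [w_kd_om]
      intro h
      have h3 : zw (d.L.j - 1) = zw 0 := by rw [h, CUL.zw_zero]
      exact hj (sub_eq_zero.1 (CUL.zw_inj h3))
    have hne := gi_ne hch hR' ha.1 hΦ
    have hS' : ∃ p : Eis, Prime p ∧ p ∣ 2 * d.L.f ∧ d.C.kp p = 1 := by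
      obtain ⟨p, hp, hpf, h1⟩ := hS
      exact ⟨p, hp, hpf.mul_left _, h1⟩
    have hIF : IF (2 * d.L.f) (k2 d) = 0 := IF_zero (w_cub d.C).toCh hcu.toCh hg (fun x hx => if_pos hx) hS'
    have hn' := log_h_norm hch h2 hw hcu hκ
    have hlog := ei_log hch h2 hR' ha.1 ha' hΦ
    have e1 : ‖∑ α ∈ rp d.L.f, kd d.L α * ((Real.log ‖Ph d.L α‖ : ℝ) : ℂ)‖ ^ 2 = 0 := by
      rw [w_ph2 hj, hn', hIF, norm_zero]
      ring
    rw [e1, mul_zero] at hlog
    obtain ⟨l0, l1⟩ := sq_form hlog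
    have e0 : ‖gE d.L R a 0 / gE d.L R a 1‖ = 1 := log_one (div_ne_zero (hne 0) (hne 1)) l0
    have e1 : ‖gE d.L R a 1 / gE d.L R a 2‖ = 1 := log_one (div_ne_zero (hne 1) (hne 2)) l1
    have h3 : gE d.L R a 3 = gE d.L R a 0 ∨ gE d.L R a 3 = -gE d.L R a 0 := by
      obtain ⟨ε, hε, he⟩ := gi_add3 hch hR' ha.1 ha' hΦ
      have h3 := he 0
      rcases hε with rfl | rfl
      · left; rw [one_mul] at h3; exact h3
      · right; rw [neg_one_mul] at h3; exact h3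
    refine ⟨ei_C3 hch hR' ha.1 ha' hΦ hs0 hG, hne, ?_, e0, e1, hn2 0 h3 hne e0 e1⟩
    intro i hi
    have h3 := unit_h' hch h2 hcu hκ hR' ha.1 ha' hD0 hs hG hl hi
    rw [← w_ph2 hj] at h3
    exact h3

end J2S
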