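import Pool.Agent.J2S.Defs
import Pool.Agent.J2L.G7d

/-!
# [J2S-G3] the moments `Ms (gM v δ)` (copy of J2L/G3.lean for `DtW`)

`m₁ = Ms yh`, `m₂ = Ms yh²`; everything modulo `2`. Duplication: `yh(2z) ≡ yh⁴ + 1`, `x(2z) ≡ x⁴` (`yh2_two`, `x2_two`), `emb ζ * k 2 = 1` (`d.k2`), `Ms_two`, `Ms_two_yh`,
`x³ = yh² + yh` (`yh_sq`), `Ms_const`, `Ms_int`.
-/

set_option autoImplicit false

open scoped Classical

namespace J2S

open CM27

open CU (om)

open CUL (Nl ez IsRep rp cr zw)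

open Q3V (OT)

open J2L

variable {D : Eis} (A : ValuationSubring ℂ) (hA : A.valuation 2 < 1) (d : DtW D) {R : Finset Eis} {a : Eis}

theorem g3a_zeta : A.valuation (emb d.ζ) ≤ 1 := by
  have h1 : emb d.ζ ^ 3 = 1 := by rw [← map_pow, d.hζ, map_one]
  have h2 : A.valuation (emb d.ζ) ^ 3 = 1 := by rw [← map_pow, h1, map_one]
  exact (pow_le_one_iff (by norm_num)).mp h2.le

theorem g3a_sub {L : Lv} {R : Finset Eis} {a : Eis} (g g' : ℂ → ℂ) :
    Ms L R a (fun z => g z - g' z) = Ms L R a g - Ms L R a g' := by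
  have h1 := Ms_add (L := L) (R := R) (a := a) g (fun z => (-1) * g' z)
  rw [Ms_smul] at h1
  have e : (fun z => g z - g' z) = fun z => g z + (-1) * g' z := by funext z; ring
  rw [e, h1]
  ring

include d in
theorem g3a_unit {R : Finset Eis} {a : Eis} (hR : IsR d.L R) (ha : IsA d.L a) {φ : ℂ → ℂ}
    (hφ : Per φ) (he : ∀ z, φ (-z) = φ z) :
    Ms d.L R a (fun z => φ (2 * z)) = emb d.ζ * Ms d.L R a φ := by
  have h1 := Ms_two hR ha hφ he
  have h2 := d.k2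
  rw [← h1]
  linear_combination (-(Ms d.L R a (fun z => φ (2 * z)))) * h2

theorem g3a_key (hR : IsR d.L R) (ha : IsA d.L a) {φ g : ℂ → ℂ}
    (hφ : Per φ) (he : ∀ z, φ (-z) = φ z)
    (hg : ∀ z, OT z → A.valuation (g z - φ (2 * z)) ≤ A.valuation 2) :
    A.valuation (Ms d.L R a g - emb d.ζ * Ms d.L R a φ) ≤ A.valuation 2 := by
  rw [← g3a_unit d hR ha hφ he, ← g3a_sub]
  exact Ms_int A hR ha hg

theorem g3a_per_pow {φ : ℂ → ℂ} (hφ : Per φ) (n : ℕ) : Per (fun z => φ z ^ n) := by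
  intro z e
  change φ (z + emb e) ^ n = φ z ^ n
  rw [hφ]

include hA in
theorem g3a_x2_int {z : ℂ} (h : OT z) : A.valuation (xw (2 * z)) ≤ 1 := x_int A hA h.two

include hA in
/-- [G3.1] -/
theorem mom_x4 (hR : IsR d.L R) (ha : IsA d.L a) :
    A.valuation (Ms d.L R a (fun z => xw z ^ 4) - emb d.ζ * Ms d.L R a xw) ≤ A.valuation 2 := by
  refine g3a_key A d hR ha per_xw xw_neg fun z hz => ?_
  rw [← Valuation.map_neg, neg_sub]
  exact x2_two A hA hz

include hA in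
theorem mom_x8 (hR : IsR d.L R) (ha : IsA d.L a) :
    A.valuation (Ms d.L R a (fun z => xw z ^ 8) - emb d.ζ * Ms d.L R a (fun z => xw z ^ 2)) ≤ A.valuation 2 := by
  refine g3a_key A d hR ha (g3a_per_pow per_xw 2) (fun z => by rw [xw_neg]) fun z hz => ?_
  have h1 := x2_two A hA hz
  have h2 := g3a_x2_int A hA hz
  have h3 : A.valuation (xw z ^ 4) ≤ 1 := by
    rw [map_pow]
    exact pow_le_one₀ zero_le (x_int A hA hz)
  have e : xw z ^ 8 - xw (2 * z) ^ 2 = -((xw (2 * z) - xw z ^ 4) * (xw (2 * z) + xw z ^ 4)) := by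
    ring
  rw [e, Valuation.map_neg, map_mul]
  exact (mul_le_mul' h1 ((A.valuation.map_add _ _).trans (max_le h2 h3))).trans (mul_one _).le

include hA in
theorem g3a_yh2 (hR : IsR d.L R) (ha : IsA d.L a) (ho : OddO d.L a) :
    A.valuation (Ms d.L R a (fun z => yh (2 * z)) - emb d.ζ * Ms d.L R a yh) ≤ A.valuation 2 := by
  have h1 := Ms_two_yh A hA hR ha ho
  have e : Ms d.L R a (fun z => yh (2 * z)) - emb d.ζ * Ms d.L R a yh =
      emb d.ζ * (Ms d.L R a (fun z => yh (2 * z)) * d.L.k 2 - Ms d.L R a yh) := by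
    have h2 := d.k2
    linear_combination (-(Ms d.L R a (fun z => yh (2 * z)))) * h2
  rw [e, map_mul]
  exact (mul_le_mul' (g3a_zeta A d) h1).trans (one_mul _).le

include hA in
theorem mom_y4 (hR : IsR d.L R) (ha : IsA d.L a) (ho : OddO d.L a) :
    A.valuation (Ms d.L R a (fun z => yh z ^ 4) - emb d.ζ * Ms d.L R a yh) ≤ A.valuation 2 := by
  have h1 := g3a_yh2 A hA d hR ha ho
  have h2 : A.valuation (Ms d.L R a (fun z => yh z ^ 4 + 1 - yh (2 * z))) ≤ A.valuation 2 := by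
    refine Ms_int A hR ha fun z hz => ?_
    rw [← Valuation.map_neg, neg_sub]
    exact yh2_two A hA hz
  rw [g3a_sub (fun z => yh z ^ 4 + 1), Ms_add (fun z => yh z ^ 4) (fun _ => 1), Ms_const,
    add_zero] at h2
  have e : Ms d.L R a (fun z => yh z ^ 4) - emb d.ζ * Ms d.L R a yh =
      (Ms d.L R a (fun z => yh z ^ 4) - Ms d.L R a (fun z => yh (2 * z))) +
        (Ms d.L R a (fun z => yh (2 * z)) - emb d.ζ * Ms d.L R a yh) := by ring
  rw [e]
  exact (A.valuation.map_add _ _).trans (max_le h2 h1)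

include hA in
/-- `Ms (yh(2·)²) k 2 ≡ Ms yh²`: from `yh² = x³ - yh`. -/
theorem mom_y8 (hR : IsR d.L R) (ha : IsA d.L a) (ho : OddO d.L a) :
    A.valuation (Ms d.L R a (fun z => yh z ^ 8) - emb d.ζ * Ms d.L R a (fun z => yh z ^ 2)) ≤ A.valuation 2 := by
  have h1 := g3a_yh2 A hA d hR ha ho
  have h2 : A.valuation (Ms d.L R a (fun z => yh z ^ 8 + yh (2 * z) + 1) -
      emb d.ζ * Ms d.L R a (fun z => xw z ^ 3)) ≤ A.valuation 2 := by
    refine g3a_key A d hR ha (g3a_per_pow per_xw 3) (fun z => by rw [xw_neg]) fun z hz => ?_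
    have h3 := yh2_two A hA hz
    have h4 := yh_sq hz.two
    have h5 := yh_int A hA hz
    have h6 := yh_int A hA hz.two
    have h7 : A.valuation (yh z ^ 4) ≤ 1 := by
      rw [map_pow]
      exact pow_le_one₀ zero_le h5
    have e : yh z ^ 8 + yh (2 * z) + 1 - xw (2 * z) ^ 3 =
        -((yh (2 * z) - (yh z ^ 4 + 1)) * (yh (2 * z) + (yh z ^ 4 + 1))) - 2 * yh z ^ 4 := by
      linear_combination h4
    rw [e]
    refine (A.valuation.map_sub _ _).trans (max_le ?_ ?_)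
    · rw [Valuation.map_neg, map_mul]
      refine (mul_le_mul' h3 ((A.valuation.map_add _ _).trans (max_le h6
        ((A.valuation.map_add _ _).trans (max_le h7 (by rw [map_one])))))).trans (mul_one _).le
    · rw [map_mul]
      exact (mul_le_mul' le_rfl h7).trans (mul_one _).le
  have h3 : Ms d.L R a (fun z => yh z ^ 8 + yh (2 * z) + 1) =
      Ms d.L R a (fun z => yh z ^ 8) + Ms d.L R a (fun z => yh (2 * z)) := by
    rw [Ms_add (fun z => yh z ^ 8 + yh (2 * z)) (fun _ => 1), Ms_const, add_zero,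
      Ms_add (fun z => yh z ^ 8) (fun z => yh (2 * z))]
  have h4 : Ms d.L R a (fun z => xw z ^ 3) =
      Ms d.L R a (fun z => yh z ^ 2) + Ms d.L R a yh := by
    rw [← Ms_add (fun z => yh z ^ 2) yh]
    exact Ms_congr hR ha fun z hz => (yh_sq hz).symm
  rw [h3, h4] at h2
  have e : Ms d.L R a (fun z => yh z ^ 8) - emb d.ζ * Ms d.L R a (fun z => yh z ^ 2) =
      (Ms d.L R a (fun z => yh z ^ 8) + Ms d.L R a (fun z => yh (2 * z)) -
        emb d.ζ * (Ms d.L R a (fun z => yh z ^ 2) + Ms d.L R a yh)) -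
        (Ms d.L R a (fun z => yh (2 * z)) - emb d.ζ * Ms d.L R a yh) := by ring
  rw [e]
  exact (A.valuation.map_sub _ _).trans (max_le h2 h1)

/-! ### helpers of row G3b -/

theorem g3b_mul (A : ValuationSubring ℂ) {c x : ℂ} (hc : c ∈ A) (hx : A.valuation x ≤ A.valuation 2) : A.valuation (c * x) ≤ A.valuation 2 := by
  rw [map_mul]
  calc A.valuation c * A.valuation x ≤ 1 * A.valuation 2 := mul_le_mul' ((ValuationSubring.valuation_le_one_iff A _).2 hc) hx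
    _ = A.valuation 2 := one_mul _

theorem g3b_two (A : ValuationSubring ℂ) {J : ℂ} (hJ : J ∈ A) : A.valuation (2 * J) ≤ A.valuation 2 := by
  rw [mul_comm]
  exact g3b_mul A hJ le_rfl

theorem g3b_add (A : ValuationSubring ℂ) {x y : ℂ} (hx : A.valuation x ≤ A.valuation 2) (hy : A.valuation y ≤ A.valuation 2) :
    A.valuation (x + y) ≤ A.valuation 2 := (Valuation.map_add A.valuation _ _).trans (max_le hx hy)

theorem g3b_w (A : ValuationSubring ℂ) : w ∈ A := (ValuationSubring.valuation_le_one_iff A _).1 (Q3V.v_w A).le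

theorem g3b_int (A : ValuationSubring ℂ) (n : ℤ) : (n : ℂ) ∈ A := intCast_mem A n

theorem g3b_emb (A : ValuationSubring ℂ) (x : Eis) : emb x ∈ A := by
  have h : emb x = (x.re : ℂ) + (x.im : ℂ) * w := by
    rw [emb_apply]
  rw [h]
  exact add_mem (g3b_int A _) (mul_mem (g3b_int A _) (g3b_w A))

/-- the four classes of `δ` modulo `2`, in `ℂ` -/
theorem g3b_del (A : ValuationSubring ℂ) (δ : Eis) : (2 : Eis) ∣ δ ∧ (∃ k ∈ A, emb δ = 2 * k) ∨
    ¬ (2 : Eis) ∣ δ ∧ (2 : Eis) ∣ δ - 1 ∧ (∃ k ∈ A, emb δ = 1 + 2 * k) ∨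
    ¬ (2 : Eis) ∣ δ ∧ ¬ (2 : Eis) ∣ δ - 1 ∧ (2 : Eis) ∣ δ - om ∧ (∃ k ∈ A, emb δ = w + 2 * k) ∨
    ¬ (2 : Eis) ∣ δ ∧ ¬ (2 : Eis) ∣ δ - 1 ∧ ¬ (2 : Eis) ∣ δ - om ∧ (∃ k ∈ A, emb δ = w ^ 2 + 2 * k) := by
  have key : ∀ r : Eis, (2 : Eis) ∣ δ - r → ∃ k ∈ A, emb δ = emb r + 2 * k := by
    rintro r ⟨k, hk⟩
    refine ⟨emb k, g3b_emb A k, ?_⟩
    have h1 : δ = r + 2 * k := by rw [← hk]; ring
    rw [h1, map_add, map_mul, map_ofNat]
  by_cases h0 : (2 : Eis) ∣ δ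
  · left
    refine ⟨h0, ?_⟩
    obtain ⟨k, hk, h⟩ := key 0 (by rwa [sub_zero])
    exact ⟨k, hk, by rw [h, map_zero, zero_add]⟩
  right
  by_cases h1 : (2 : Eis) ∣ δ - 1
  · left
    refine ⟨h0, h1, ?_⟩
    obtain ⟨k, hk, h⟩ := key 1 h1
    exact ⟨k, hk, by rw [h, map_one]⟩
  right
  by_cases h2 : (2 : Eis) ∣ δ - om
  · left
    refine ⟨h0, h1, h2, ?_⟩
    obtain ⟨k, hk, h⟩ := key om h2
    exact ⟨k, hk, by rw [h, CU.emb_om]⟩
  · right
    refine ⟨h0, h1, h2, ?_⟩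
    have h3 : (2 : Eis) ∣ δ - om ^ 2 := by
      have e0 : ∀ x : Eis, (2 : Eis) ∣ x ↔ (2 : ℤ) ∣ x.re ∧ (2 : ℤ) ∣ x.im := by
        intro x
        have e1 : (2 : Eis).re = 2 := rfl
        have e2 : (2 : Eis).im = 0 := rfl
        constructor
        · rintro ⟨k, rfl⟩
          rw [QuadraticAlgebra.re_mul, QuadraticAlgebra.im_mul, e1, e2]
          constructor <;> omega
        · rintro ⟨⟨u, hu⟩, ⟨v, hv⟩⟩
          refine ⟨⟨u, v⟩, ?_⟩
          apply QuadraticAlgebra.ext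
          · rw [QuadraticAlgebra.re_mul, e1, e2, hu]
            ring
          · rw [QuadraticAlgebra.im_mul, e1, e2, hv]
            ring
      have e5 : (om : Eis) ^ 2 = ⟨-1, -1⟩ := by decide
      rw [e5]
      rw [e0] at h0 h1 h2 ⊢
      simp only [QuadraticAlgebra.re_sub, QuadraticAlgebra.im_sub] at h0 h1 h2 ⊢
      have e1 : (1 : Eis).re = 1 := rfl
      have e2 : (1 : Eis).im = 0 := rfl
      have e3 : (om : Eis).re = 0 := rfl
      have e4 : (om : Eis).im = 1 := rfl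
      rw [e1, e2] at h1
      rw [e3, e4] at h2
      omega
    obtain ⟨k, hk, h⟩ := key (om ^ 2) h3
    exact ⟨k, hk, by rw [h, map_pow, CU.emb_om]⟩

/-- congruence of moments -/
theorem g3b_Ms (A : ValuationSubring ℂ) {L : Lv} {R : Finset Eis} {a : Eis} (hR : IsR L R) (ha : IsA L a) {g g' : ℂ → ℂ}
    (h : ∀ z, OT z → A.valuation (g z - g' z) ≤ A.valuation 2) : A.valuation (Ms L R a g - Ms L R a g') ≤ A.valuation 2 := by
  have e : Ms L R a g - Ms L R a g' = Ms L R a (fun z => g z - g' z) := by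
    have h1 : Ms L R a g = Ms L R a (fun z => (fun z => g z - g' z) z + g' z) := Ms_congr hR ha (fun z _ => by ring)
    rw [h1, Ms_add]
    ring
  rw [e]
  exact Ms_int A hR ha h

theorem g3b_mem (A : ValuationSubring ℂ) {L : Lv} {R : Finset Eis} {a : Eis} (hR : IsR L R) (ha : IsA L a) {g : ℂ → ℂ}
    (h : ∀ z, OT z → A.valuation (g z) ≤ 1) : Ms L R a g ∈ A :=
  (ValuationSubring.valuation_le_one_iff A _).1 (Ms_int A hR ha h)


include hA in
theorem g3b_x3 (hR : IsR d.L R) (ha : IsA d.L a) :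
    Ms d.L R a (fun z => xw z ^ 3) = Ms d.L R a yh + Ms d.L R a (fun z => yh z ^ 2) := by
  rw [← Ms_add]
  refine Ms_congr hR ha (fun z hz => ?_)
  rw [← yh_sq hz]
  ring

include hA in
theorem g3b_x6 (hR : IsR d.L R) (ha : IsA d.L a) (ho : OddO d.L a) :
    A.valuation (Ms d.L R a (fun z => xw z ^ 6) - (emb d.ζ * Ms d.L R a yh + Ms d.L R a (fun z => yh z ^ 2))) ≤ A.valuation 2 := by
  have h1 : A.valuation (Ms d.L R a (fun z => xw z ^ 6) - Ms d.L R a (fun z => yh z ^ 4 + yh z ^ 2)) ≤ A.valuation 2 := by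
    refine g3b_Ms A hR ha (fun z hz => ?_)
    have hy : yh z ∈ A := (ValuationSubring.valuation_le_one_iff A _).1 (yh_int A hA hz)
    have e : xw z ^ 6 - (yh z ^ 4 + yh z ^ 2) = 2 * yh z ^ 3 := by
      have h2 := yh_sq hz
      have h3 : xw z ^ 6 = (xw z ^ 3) ^ 2 := by ring
      rw [h3, ← h2]
      ring
    rw [e]
    exact g3b_two A (pow_mem hy 3)
  have h2 : Ms d.L R a (fun z => yh z ^ 4 + yh z ^ 2) = Ms d.L R a (fun z => yh z ^ 4) + Ms d.L R a (fun z => yh z ^ 2) := Ms_add _ _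
  rw [h2] at h1
  have h3 := mom_y4 A hA d hR ha ho
  have e : Ms d.L R a (fun z => xw z ^ 6) - (emb d.ζ * Ms d.L R a yh + Ms d.L R a (fun z => yh z ^ 2)) =
      (Ms d.L R a (fun z => xw z ^ 6) - (Ms d.L R a (fun z => yh z ^ 4) + Ms d.L R a (fun z => yh z ^ 2))) +
      (Ms d.L R a (fun z => yh z ^ 4) - emb d.ζ * Ms d.L R a yh) := by ring
  rw [e]
  exact g3b_add A h1 h3

include hA in
theorem g3b_x12 (hR : IsR d.L R) (ha : IsA d.L a) (ho : OddO d.L a) :
    A.valuation (Ms d.L R a (fun z => xw z ^ 12) - (emb d.ζ * Ms d.L R a (fun z => yh z ^ 2) + emb d.ζ * Ms d.L R a yh)) ≤ A.valuation 2 := by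
  have h1 : A.valuation (Ms d.L R a (fun z => xw z ^ 12) - Ms d.L R a (fun z => yh z ^ 8 + yh z ^ 4)) ≤ A.valuation 2 := by
    refine g3b_Ms A hR ha (fun z hz => ?_)
    have hy : yh z ∈ A := (ValuationSubring.valuation_le_one_iff A _).1 (yh_int A hA hz)
    have e : xw z ^ 12 - (yh z ^ 8 + yh z ^ 4) = 2 * (2 * yh z ^ 7 + 3 * yh z ^ 6 + 2 * yh z ^ 5) := by
      have h2 := yh_sq hz
      have h3 : xw z ^ 12 = (xw z ^ 3) ^ 4 := by ring
      rw [h3, ← h2]
      ring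
    rw [e]
    have h2 : (2 : ℂ) ∈ A := by exact_mod_cast g3b_int A 2
    have h3 : (3 : ℂ) ∈ A := by exact_mod_cast g3b_int A 3
    exact g3b_two A (by (repeat' (first | assumption | apply pow_mem | apply add_mem | apply sub_mem | apply neg_mem | apply mul_mem)))
  have h2 : Ms d.L R a (fun z => yh z ^ 8 + yh z ^ 4) = Ms d.L R a (fun z => yh z ^ 8) + Ms d.L R a (fun z => yh z ^ 4) := Ms_add _ _
  rw [h2] at h1
  have h3 := mom_y4 A hA d hR ha ho
  have h4 := mom_y8 A hA d hR ha ho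
  have e : Ms d.L R a (fun z => xw z ^ 12) - (emb d.ζ * Ms d.L R a (fun z => yh z ^ 2) + emb d.ζ * Ms d.L R a yh) =
      ((Ms d.L R a (fun z => xw z ^ 12) - (Ms d.L R a (fun z => yh z ^ 8) + Ms d.L R a (fun z => yh z ^ 4))) +
      (Ms d.L R a (fun z => yh z ^ 8) - emb d.ζ * Ms d.L R a (fun z => yh z ^ 2))) +
      (Ms d.L R a (fun z => yh z ^ 4) - emb d.ζ * Ms d.L R a yh) := by ring
  rw [e]
  exact g3b_add A (g3b_add A h1 h4) h3

include hA in
/-- [G3.2] `Ms x³ = m₁ + m₂`, `Ms x⁶ ≡ ζ m₁ + m₂`; four cases for `δ` modulo `2`, for example `δ = ω`: `gM = w² x⁶ + x³`. -/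
theorem gM_zero (hR : IsR d.L R) (ha : IsA d.L a) (ho : OddO d.L a) :
    A.valuation (emb d.ζ ^ 2 * Ms d.L R a (gM 0 d.δ) - ((emb d.ζ + emb d.δ) ^ 2 * Ms d.L R a yh +
      emb d.δ * emb d.ζ ^ 2 * Ms d.L R a (fun z => yh z ^ 2))) ≤ A.valuation 2 := by
  have h3 := g3b_x3 A hA d hR ha
  have h6 := g3b_x6 A hA d hR ha ho
  have hm1 : Ms d.L R a yh ∈ A := g3b_mem A hR ha (fun z hz => yh_int A hA hz)
  have hm2 : Ms d.L R a (fun z => yh z ^ 2) ∈ A := g3b_mem A hR ha (fun z hz => by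
    rw [map_pow]; exact pow_le_one₀ zero_le (yh_int A hA hz))
  have hz : emb d.ζ ∈ A := g3b_emb A _
  have hw := g3b_w A
  have hw2 := CUL.w2
  have hz3 : emb d.ζ ^ 3 = 1 := by rw [← map_pow, d.hζ, map_one]
  obtain ⟨m1, e1⟩ : ∃ m, m = Ms d.L R a yh := ⟨_, rfl⟩
  obtain ⟨m2, e2⟩ : ∃ m, m = Ms d.L R a (fun z => yh z ^ 2) := ⟨_, rfl⟩
  obtain ⟨M6, e6⟩ : ∃ m, m = Ms d.L R a (fun z => xw z ^ 6) := ⟨_, rfl⟩
  obtain ⟨Z, eZ⟩ : ∃ m, m = emb d.ζ := ⟨_, rfl⟩
  rw [← e1, ← e2] at h3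
  rw [← e1] at hm1
  rw [← e2] at hm2
  rw [← e1, ← e2, ← e6, ← eZ] at h6
  rw [← eZ] at hz hz3
  rw [← e1, ← e2, ← eZ]
  have h1A : (1 : ℂ) ∈ A := one_mem A
  have h2A : (2 : ℂ) ∈ A := by exact_mod_cast g3b_int A 2
  rcases g3b_del A d.δ with ⟨hd, k, hk, hδ⟩ | ⟨hd, hd1, k, hk, hδ⟩ | ⟨hd, hd1, hd2, k, hk, hδ⟩ | ⟨hd, hd1, hd2, k, hk, hδ⟩
  · have hg : Ms d.L R a (gM 0 d.δ) = m1 := by
      rw [e1]
      congr 1
      funext z
      unfold gM
      rw [if_pos rfl, if_pos hd]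
    rw [hg, hδ]
    have e : Z ^ 2 * m1 - ((Z + 2 * k) ^ 2 * m1 + 2 * k * Z ^ 2 * m2) = 2 * (-(2 * Z * k + 2 * k ^ 2) * m1 - k * Z ^ 2 * m2) := by ring
    rw [e]
    exact g3b_two A (by (repeat' (first | assumption | apply pow_mem | apply add_mem | apply sub_mem | apply neg_mem | apply mul_mem)))
  · have hg : Ms d.L R a (gM 0 d.δ) = m1 + M6 := by
      rw [e1, e6, ← Ms_add]
      congr 1
      funext z
      unfold gM
      rw [if_pos rfl, if_neg hd, if_pos hd1]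
    rw [hg, hδ]
    have e : Z ^ 2 * (m1 + M6) - ((Z + (1 + 2 * k)) ^ 2 * m1 + (1 + 2 * k) * Z ^ 2 * m2) =
        Z ^ 2 * (M6 - (Z * m1 + m2)) + 2 * (-(Z + 2 * Z * k + 2 * k + 2 * k ^ 2) * m1 - k * Z ^ 2 * m2) := by
      linear_combination m1 * hz3
    rw [e]
    exact g3b_add A (g3b_mul A (by (repeat' (first | assumption | apply pow_mem | apply add_mem | apply sub_mem | apply neg_mem | apply mul_mem))) h6) (g3b_two A (by (repeat' (first | assumption | apply pow_mem | apply add_mem | apply sub_mem | apply neg_mem | apply mul_mem))))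
  · have hg : Ms d.L R a (gM 0 d.δ) = w ^ 2 * M6 + (m1 + m2) := by
      rw [← h3, e6, ← Ms_smul, ← Ms_add]
      congr 1
      funext z
      unfold gM
      rw [if_pos rfl, if_neg hd, if_neg hd1, if_pos hd2]
    rw [hg, hδ]
    have e : Z ^ 2 * (w ^ 2 * M6 + (m1 + m2)) - ((Z + (w + 2 * k)) ^ 2 * m1 + (w + 2 * k) * Z ^ 2 * m2) =
        (Z ^ 2 * w ^ 2) * (M6 - (Z * m1 + m2)) + 2 * (-(Z * w + 2 * Z * k + 2 * w * k + 2 * k ^ 2) * m1 - (w + k) * Z ^ 2 * m2) := by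
      linear_combination w ^ 2 * m1 * hz3 + Z ^ 2 * m2 * hw2
    rw [e]
    exact g3b_add A (g3b_mul A (by (repeat' (first | assumption | apply pow_mem | apply add_mem | apply sub_mem | apply neg_mem | apply mul_mem))) h6) (g3b_two A (by (repeat' (first | assumption | apply pow_mem | apply add_mem | apply sub_mem | apply neg_mem | apply mul_mem))))
  · have hg : Ms d.L R a (gM 0 d.δ) = w * M6 + (m1 + m2) := by
      rw [← h3, e6, ← Ms_smul, ← Ms_add]
      congr 1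
      funext z
      unfold gM
      rw [if_pos rfl, if_neg hd, if_neg hd1, if_neg hd2]
    rw [hg, hδ]
    have hw3 := CUL.w3
    have e : Z ^ 2 * (w * M6 + (m1 + m2)) - ((Z + (w ^ 2 + 2 * k)) ^ 2 * m1 + (w ^ 2 + 2 * k) * Z ^ 2 * m2) =
        (Z ^ 2 * w) * (M6 - (Z * m1 + m2)) + 2 * (-(Z * w ^ 2 + 2 * Z * k + 2 * w ^ 2 * k + 2 * k ^ 2) * m1 - (w ^ 2 + k) * Z ^ 2 * m2) := by
      linear_combination w * m1 * hz3 + Z ^ 2 * m2 * hw2 - w * m1 * hw3
    rw [e]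
    exact g3b_add A (g3b_mul A (by (repeat' (first | assumption | apply pow_mem | apply add_mem | apply sub_mem | apply neg_mem | apply mul_mem))) h6) (g3b_two A (by (repeat' (first | assumption | apply pow_mem | apply add_mem | apply sub_mem | apply neg_mem | apply mul_mem))))

include hA in
theorem gM_three (hR : IsR d.L R) (ha : IsA d.L a) (ho : OddO d.L a) :
    A.valuation (Ms d.L R a (gM 3 d.δ) - (1 + emb d.ζ) * Ms d.L R a (fun z => yh z ^ 2)) ≤ A.valuation 2 := by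
  have h6 := g3b_x6 A hA d hR ha ho
  have h12 := g3b_x12 A hA d hR ha ho
  have hm1 : Ms d.L R a yh ∈ A := g3b_mem A hR ha (fun z hz => yh_int A hA hz)
  have hz : emb d.ζ ∈ A := g3b_emb A _
  have hg : Ms d.L R a (gM 3 d.δ) = Ms d.L R a (fun z => xw z ^ 6) + Ms d.L R a (fun z => xw z ^ 12) := by
    rw [← Ms_add]
    congr 1
  have e : Ms d.L R a (gM 3 d.δ) - (1 + emb d.ζ) * Ms d.L R a (fun z => yh z ^ 2) =
      (Ms d.L R a (fun z => xw z ^ 6) - (emb d.ζ * Ms d.L R a yh + Ms d.L R a (fun z => yh z ^ 2))) +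
      (Ms d.L R a (fun z => xw z ^ 12) - (emb d.ζ * Ms d.L R a (fun z => yh z ^ 2) + emb d.ζ * Ms d.L R a yh)) +
      2 * (emb d.ζ * Ms d.L R a yh) := by
    rw [hg]
    ring
  rw [e]
  exact g3b_add A (g3b_add A h6 h12) (g3b_two A (mul_mem hz hm1))

include hA in
theorem gM_two (hR : IsR d.L R) (ha : IsA d.L a) :
    A.valuation (Ms d.L R a (gM 2 d.δ) - (1 + emb d.ζ * emb d.δ) * Ms d.L R a xw) ≤ A.valuation 2 := by
  have h4 := mom_x4 A hA d hR ha
  have hm : Ms d.L R a xw ∈ A := g3b_mem A hR ha (fun z hz => x_int A hA hz)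
  have hz : emb d.ζ ∈ A := g3b_emb A _
  have hw := g3b_w A
  obtain ⟨m, e1⟩ : ∃ m, m = Ms d.L R a xw := ⟨_, rfl⟩
  obtain ⟨M4, e4⟩ : ∃ m, m = Ms d.L R a (fun z => xw z ^ 4) := ⟨_, rfl⟩
  obtain ⟨Z, eZ⟩ : ∃ m, m = emb d.ζ := ⟨_, rfl⟩
  rw [← e1, ← e4, ← eZ] at h4
  rw [← e1] at hm
  rw [← eZ] at hz
  rw [← e1, ← eZ]
  rcases g3b_del A d.δ with ⟨hd, k, hk, hδ⟩ | ⟨hd, hd1, k, hk, hδ⟩ | ⟨hd, hd1, hd2, k, hk, hδ⟩ | ⟨hd, hd1, hd2, k, hk, hδ⟩
  · have hg : Ms d.L R a (gM 2 d.δ) = m := by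
      rw [e1]
      congr 1
      funext z
      unfold gM
      rw [if_neg (by norm_num), if_neg (by norm_num), if_pos rfl, if_pos hd]
    rw [hg, hδ]
    have e : m - (1 + Z * (2 * k)) * m = 2 * (-(Z * k * m)) := by ring
    rw [e]
    exact g3b_two A (by (repeat' (first | assumption | apply pow_mem | apply add_mem | apply sub_mem | apply neg_mem | apply mul_mem)))
  · have hg : Ms d.L R a (gM 2 d.δ) = m + M4 := by
      rw [e1, e4, ← Ms_add]
      congr 1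
      funext z
      unfold gM
      rw [if_neg (by norm_num), if_neg (by norm_num), if_pos rfl, if_neg hd, if_pos hd1]
    rw [hg, hδ]
    have e : m + M4 - (1 + Z * (1 + 2 * k)) * m = (M4 - Z * m) + 2 * (-(Z * k * m)) := by ring
    rw [e]
    exact g3b_add A h4 (g3b_two A (by (repeat' (first | assumption | apply pow_mem | apply add_mem | apply sub_mem | apply neg_mem | apply mul_mem))))
  · have hg : Ms d.L R a (gM 2 d.δ) = m + w * M4 := by
      rw [e1, e4, ← Ms_smul, ← Ms_add]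
      congr 1
      funext z
      unfold gM
      rw [if_neg (by norm_num), if_neg (by norm_num), if_pos rfl, if_neg hd, if_neg hd1, if_pos hd2]
    rw [hg, hδ]
    have e : m + w * M4 - (1 + Z * (w + 2 * k)) * m = w * (M4 - Z * m) + 2 * (-(Z * k * m)) := by ring
    rw [e]
    exact g3b_add A (g3b_mul A hw h4) (g3b_two A (by (repeat' (first | assumption | apply pow_mem | apply add_mem | apply sub_mem | apply neg_mem | apply mul_mem))))
  · have hg : Ms d.L R a (gM 2 d.δ) = m + w ^ 2 * M4 := by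
      rw [e1, e4, ← Ms_smul, ← Ms_add]
      congr 1
      funext z
      unfold gM
      rw [if_neg (by norm_num), if_neg (by norm_num), if_pos rfl, if_neg hd, if_neg hd1, if_neg hd2]
    rw [hg, hδ]
    have e : m + w ^ 2 * M4 - (1 + Z * (w ^ 2 + 2 * k)) * m = w ^ 2 * (M4 - Z * m) + 2 * (-(Z * k * m)) := by ring
    rw [e]
    exact g3b_add A (g3b_mul A (by (repeat' (first | assumption | apply pow_mem | apply add_mem | apply sub_mem | apply neg_mem | apply mul_mem))) h4) (g3b_two A (by (repeat' (first | assumption | apply pow_mem | apply add_mem | apply sub_mem | apply neg_mem | apply mul_mem))))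

include hA in
theorem gM_five (hR : IsR d.L R) (ha : IsA d.L a) :
    A.valuation (Ms d.L R a (gM 5 d.δ) - emb d.ζ * Ms d.L R a xw) ≤ A.valuation 2 := by
  exact mom_x4 A hA d hR ha

theorem gM_four : gM 4 d.δ = fun z => xw z ^ 2 := by
  funext z
  unfold gM
  norm_num

include hA in
theorem gM_one (hR : IsR d.L R) (ha : IsA d.L a) :
    A.valuation (Ms d.L R a (gM 1 d.δ) - Ms d.L R a (lam1 d.ζ d.δ)) ≤ A.valuation 2 := by
  have h8 := mom_x8 A hA d hR ha
  have hm : Ms d.L R a (fun z => xw z ^ 2) ∈ A := g3b_mem A hR ha (fun z hz => by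
    rw [map_pow]; exact pow_le_one₀ zero_le (x_int A hA hz))
  have hz : emb d.ζ ∈ A := g3b_emb A _
  have hw := g3b_w A
  have h1A : (1 : ℂ) ∈ A := one_mem A
  have h2A : (2 : ℂ) ∈ A := by exact_mod_cast g3b_int A 2
  have hw2 := CUL.w2
  have hw3 := CUL.w3
  have hlam : Ms d.L R a (lam1 d.ζ d.δ) = Ms d.L R a (fun z => xw z ^ 20) + Ms d.L R a (fun z => xw z ^ 14) +
      Ms d.L R a (fun z => xw z ^ 8) + Ms d.L R a (fun z => xw z ^ 5) + Ms d.L R a (fun z => xw z ^ 2) +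
      (1 + emb d.δ + emb d.ζ * emb d.δ ^ 2) * Ms d.L R a (fun z => xw z ^ 2) := by
    rw [← Ms_smul, ← Ms_add, ← Ms_add, ← Ms_add, ← Ms_add, ← Ms_add]
    rfl
  rw [hlam]
  obtain ⟨m, e1⟩ : ∃ m, m = Ms d.L R a (fun z => xw z ^ 2) := ⟨_, rfl⟩
  obtain ⟨M5, e5⟩ : ∃ m, m = Ms d.L R a (fun z => xw z ^ 5) := ⟨_, rfl⟩
  obtain ⟨M8, e8⟩ : ∃ m, m = Ms d.L R a (fun z => xw z ^ 8) := ⟨_, rfl⟩
  obtain ⟨M14, e14⟩ : ∃ m, m = Ms d.L R a (fun z => xw z ^ 14) := ⟨_, rfl⟩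
  obtain ⟨M20, e20⟩ : ∃ m, m = Ms d.L R a (fun z => xw z ^ 20) := ⟨_, rfl⟩
  obtain ⟨Z, eZ⟩ : ∃ m, m = emb d.ζ := ⟨_, rfl⟩
  rw [← e1, ← e8, ← eZ] at h8
  rw [← e1] at hm
  rw [← eZ] at hz
  rw [← e1, ← e5, ← e8, ← e14, ← e20, ← eZ]
  rcases g3b_del A d.δ with ⟨hd, k, hk, hδ⟩ | ⟨hd, hd1, k, hk, hδ⟩ | ⟨hd, hd1, hd2, k, hk, hδ⟩ | ⟨hd, hd1, hd2, k, hk, hδ⟩
  · have hg : Ms d.L R a (gM 1 d.δ) = M5 + M8 + M14 + M20 := by
      rw [e5, e8, e14, e20, ← Ms_add, ← Ms_add, ← Ms_add]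
      congr 1
      funext z
      unfold gM
      rw [if_neg (by norm_num), if_pos rfl, if_pos hd]
    rw [hg, hδ]
    have e : M5 + M8 + M14 + M20 - (M20 + M14 + M8 + M5 + m + (1 + 2 * k + Z * (2 * k) ^ 2) * m) =
        2 * (-((1 + k + Z * (k ^ 2 + k ^ 2)) * m)) := by ring
    rw [e]
    exact g3b_two A (by (repeat' (first | assumption | apply pow_mem | apply add_mem | apply sub_mem | apply neg_mem | apply mul_mem)))
  · have hg : Ms d.L R a (gM 1 d.δ) = m + M5 + M14 + M20 := by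
      rw [e1, e5, e14, e20, ← Ms_add, ← Ms_add, ← Ms_add]
      congr 1
      funext z
      unfold gM
      rw [if_neg (by norm_num), if_pos rfl, if_neg hd, if_pos hd1]
    rw [hg, hδ]
    have e : m + M5 + M14 + M20 - (M20 + M14 + M8 + M5 + m + (1 + (1 + 2 * k) + Z * (1 + 2 * k) ^ 2) * m) =
        (-1) * (M8 - Z * m) + 2 * (-((1 + k + Z + 2 * k * Z + 2 * (Z * k ^ 2)) * m)) := by ring
    rw [e]
    exact g3b_add A (g3b_mul A (neg_mem h1A) h8) (g3b_two A (by (repeat' (first | assumption | apply pow_mem | apply add_mem | apply sub_mem | apply neg_mem | apply mul_mem))))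
  · have hg : Ms d.L R a (gM 1 d.δ) = w * m + M5 + w * M8 + M14 + M20 := by
      rw [e1, e5, e8, e14, e20, ← Ms_smul, ← Ms_smul, ← Ms_add, ← Ms_add, ← Ms_add, ← Ms_add]
      congr 1
      funext z
      unfold gM
      rw [if_neg (by norm_num), if_pos rfl, if_neg hd, if_neg hd1, if_pos hd2]
    rw [hg, hδ]
    have e : w * m + M5 + w * M8 + M14 + M20 - (M20 + M14 + M8 + M5 + m + (1 + (w + 2 * k) + Z * (w + 2 * k) ^ 2) * m) =
        (w - 1) * (M8 - Z * m) + 2 * ((Z * w - 1 - k - 2 * (Z * w * k) - 2 * (Z * k ^ 2)) * m) := by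
      linear_combination (-(Z * m)) * hw2
    rw [e]
    exact g3b_add A (g3b_mul A (by (repeat' (first | assumption | apply pow_mem | apply add_mem | apply sub_mem | apply neg_mem | apply mul_mem))) h8) (g3b_two A (by (repeat' (first | assumption | apply pow_mem | apply add_mem | apply sub_mem | apply neg_mem | apply mul_mem))))
  · have hg : Ms d.L R a (gM 1 d.δ) = w ^ 2 * m + M5 + w ^ 2 * M8 + M14 + M20 := by
      rw [e1, e5, e8, e14, e20, ← Ms_smul, ← Ms_smul, ← Ms_add, ← Ms_add, ← Ms_add, ← Ms_add]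
      congr 1
      funext z
      unfold gM
      rw [if_neg (by norm_num), if_pos rfl, if_neg hd, if_neg hd1, if_neg hd2]
    rw [hg, hδ]
    have e : w ^ 2 * m + M5 + w ^ 2 * M8 + M14 + M20 -
        (M20 + M14 + M8 + M5 + m + (1 + (w ^ 2 + 2 * k) + Z * (w ^ 2 + 2 * k) ^ 2) * m) =
        (w ^ 2 - 1) * (M8 - Z * m) + 2 * ((-(Z * (1 + w)) - 1 - k - 2 * (Z * w ^ 2 * k) - 2 * (Z * k ^ 2)) * m) := by
      linear_combination (Z * m) * hw2 - (Z * m * w) * hw3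
    rw [e]
    exact g3b_add A (g3b_mul A (by (repeat' (first | assumption | apply pow_mem | apply add_mem | apply sub_mem | apply neg_mem | apply mul_mem))) h8) (g3b_two A (by (repeat' (first | assumption | apply pow_mem | apply add_mem | apply sub_mem | apply neg_mem | apply mul_mem))))

include hA in
/-- [G7d.3] `lam1` has weight `2`: `S_1 = w S_0` (`rot_zero`), `Ms lam1 = 3 S_0` (`Ms_zero`), `S_0 + S_1 = - w² S_0`, `gM_one`. -/
theorem lam_lt (hv : d.v = 1) {R : Finset Eis} {a : Eis} (hR : IsR d.L R) (ha : IsA d.L a) :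
    A.valuation (∑ c ∈ R, lam1 d.ζ d.δ (pt d.L c) + ∑ c ∈ R, lam1 d.ζ d.δ (pt d.L (a * c))) < 1 ↔
      A.valuation (Ms d.L R a (gM 1 d.δ)) < 1 := by
  have hj : d.L.j = 0 := by
    rw [d.hj, hv]
    decide
  have hper : Per (lam1 d.ζ d.δ) := by
    intro z e
    unfold lam1
    rw [per_xw z e]
  have hev : ∀ z, lam1 d.ζ d.δ (-z) = lam1 d.ζ d.δ z := by
    intro z
    unfold lam1
    rw [xw_neg]
  have hw : ∀ z, lam1 d.ζ d.δ (w * z) = w ^ 2 * lam1 d.ζ d.δ z := by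
    intro z
    have h3 := CUL.w3
    have e5 : w ^ 5 = w ^ 2 := by linear_combination w ^ 2 * h3
    have e8 : w ^ 8 = w ^ 2 := by linear_combination (w ^ 5 + w ^ 2) * h3
    have e14 : w ^ 14 = w ^ 2 := by linear_combination (w ^ 11 + w ^ 8 + w ^ 5 + w ^ 2) * h3
    have e20 : w ^ 20 = w ^ 2 := by linear_combination (w ^ 17 + w ^ 14 + w ^ 11 + w ^ 8 + w ^ 5 + w ^ 2) * h3
    unfold lam1
    rw [xw_w, mul_pow, mul_pow, mul_pow, mul_pow, mul_pow, e5, e8, e14, e20]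
    ring
  have h1 := rot_zero hR ha hj hper hev hw 0
  have h2 := Ms_zero hR ha hj hper hev hw
  have h3 := gM_one A hA d hR ha
  simp only [pow_zero, one_mul, zero_add, pow_one] at h1
  set S := ∑ c ∈ R, lam1 d.ζ d.δ (pt d.L c) with hS
  have e1 : S + ∑ c ∈ R, lam1 d.ζ d.δ (pt d.L (a * c)) = -(w ^ 2 * S) := by
    rw [h1]
    have h3 := CUL.w3
    have h2 := CUL.w2
    linear_combination w * S * h3 + S * h2
  have vw : A.valuation w = 1 := w_val A
  have v1 : A.valuation (S + ∑ c ∈ R, lam1 d.ζ d.δ (pt d.L (a * c))) = A.valuation S := by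
    rw [e1, Valuation.map_neg, map_mul, map_pow, vw, one_pow, one_mul]
  have v2 : A.valuation (Ms d.L R a (lam1 d.ζ d.δ)) = A.valuation S := by
    rw [h2, map_mul, Q3V.v_three A hA, one_mul]
  rw [v1, ← v2]
  have h4 := h3.trans_lt hA
  constructor
  · intro h
    have e : Ms d.L R a (gM 1 d.δ) = (Ms d.L R a (gM 1 d.δ) - Ms d.L R a (lam1 d.ζ d.δ)) + Ms d.L R a (lam1 d.ζ d.δ) := by ring
    rw [e]
    exact Valuation.map_add_lt _ h4 h
  · intro h
    have e : Ms d.L R a (lam1 d.ζ d.δ) = Ms d.L R a (gM 1 d.δ) - (Ms d.L R a (gM 1 d.δ) - Ms d.L R a (lam1 d.ζ d.δ)) := by ring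
    rw [e]
    exact Valuation.map_sub_lt _ h h4

end J2S
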