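import Pool.Agent.J2E.U3a

/-!
# [J2S-I] `y(z)` and `h(z)` are units at `p ∤ 6` if the order of `z` is not a power of `p`

As `u3a_y`, `u3a_h` (J2E/U3a.lean), but now `z` is a point with `m α z = 0`, `m` odd and prime to `p`, `α z ≠ 0` (think `α = p ^ n`, `z = c/(p ^ n m)`).
PROOF. (1) `|x(z)| ≤ 1`: otherwise `Kr B z` (`Or.inr`), `0 < |tt z|` (`(JZ.i1_t B v2 (weq z hz) h).1`), so `Kr B (emb α * z)` by `(JZ.i2_P_all v2 (Or.inr h) h0 α).1` (JZ/I2.lean), that is `emb α * z` is in the lattice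
(no: `hz`) or `|x(α z)| > 1`, against `JZ.i2_main v2 hz hm vm` for the point `emb α * z`. `Nl z` follows from `Nl (emb α * z)`.
(2) The same for `z + z` (`α (z + z) = α z + α z`, `u3a_nl2` for the point `emb α * z` gives `Nl` and the multiple by `m`).
(3) Now the proofs of `u3a_y` and `u3a_h` word by word with (1), (2) in place of `i2_main`.
-/

set_option autoImplicit false

open MeasureTheory Set Filter Topology
open scoped Classical ComplexConjugate

namespace J2S

open CM27 JZ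
open CU (la eE)
open CUL (Nl ta rp IsRep zw GalU)
open JGL (GalP)
open J2E

variable {B : ValuationSubring ℂ}

theorem nl_of_mul {α : Eis} {z : ℂ} (hz : Nl (emb α * z)) : Nl z := by
  rintro ⟨b, rfl⟩
  exact hz ⟨α * b, by rw [map_mul]⟩

theorem is_x {p : Eis} (hp : Prime p) (h6 : ¬ p ∣ 6) (hB : B.valuation (emb p) < 1) {z : ℂ} {m α : Eis} (hz : Nl (emb α * z))
    (hm : emb m * (emb α * z) ∈ Set.range emb) (hmp : IsCoprime m p) : B.valuation (xw z) ≤ 1 := by
  obtain ⟨h2, h3⟩ := u3a_ndvd h6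
  have v2 := JGL.u2_two_eq hp hB h2
  have vm := i2_unit hB hmp
  by_contra h
  push Not at h
  have hzn : Nl z := nl_of_mul hz
  have ht := i1_t B v2 (weq z hzn) h
  have h0 : 0 < B.valuation (tt z) := ht.1
  rcases (i2_P_all v2 (Or.inr h) h0 α).1 with h1 | h1
  · exact hz h1
  · exact absurd (i2_main v2 hz hm vm) (not_le.2 h1)

/-- the point `2 z` -/
theorem is_dbl {z : ℂ} {m α : Eis} (hz : Nl (emb α * z)) (hm : emb m * (emb α * z) ∈ Set.range emb) (hm2 : IsCoprime m 2) :
    Nl (emb α * (z + z)) ∧ emb m * (emb α * (z + z)) ∈ Set.range emb := by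
  have e : emb α * (z + z) = emb α * z + emb α * z := mul_add _ _ _
  rw [e]
  exact u3a_nl2 hz hm hm2

theorem is_y {p : Eis} (hp : Prime p) (h6 : ¬ p ∣ 6) (hB : B.valuation (emb p) < 1) {z : ℂ} {m α : Eis} (hz : Nl (emb α * z))
    (hm : emb m * (emb α * z) ∈ Set.range emb) (hmp : IsCoprime m p) (hm2 : IsCoprime m 2) : B.valuation (yw z) = 1 := by
  obtain ⟨h2, h3⟩ := u3a_ndvd h6
  have v2 := JGL.u2_two_eq hp hB h2
  have v4 := i1_four B v2
  have v3 : B.valuation 3 = 1 := by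
    have := i2_unit hB (JGL.u2_cop hp h3)
    rwa [map_ofNat] at this
  have v9 : B.valuation 9 = 1 := by
    rw [show (9 : ℂ) = 3 * 3 by norm_num, map_mul, v3, one_mul]
  obtain ⟨h2z', hm2z⟩ := is_dbl hz hm hm2
  have hzn : Nl z := nl_of_mul hz
  have h2z : Nl (z + z) := nl_of_mul h2z'
  have hx := is_x hp h6 hB hz hm hmp
  have hX := is_x hp h6 hB h2z' hm2z hmp
  have hc := weq z hzn
  have hy := i1_y_le B v2 hc hx
  refine le_antisymm hy ?_
  by_contra hlt
  push Not at hlt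
  have hd := JGL.u2_dbl hzn h2z
  have hy2 : B.valuation (yw z ^ 2) < 1 := by
    rw [map_pow]
    exact pow_lt_one₀ zero_le hlt (by norm_num)
  -- `|x| = 1`
  have h4 : B.valuation (4 * xw z ^ 3) = 1 := by
    have e : 4 * xw z ^ 3 = yw z ^ 2 - 1 := by rw [hc]; ring
    rw [e, Valuation.map_sub_eq_of_lt_right _ (by rwa [map_one]), map_one]
  have hx3 : B.valuation (xw z) ^ 3 = 1 := by
    rwa [map_mul, v4, one_mul, map_pow] at h4
  have hx1 : B.valuation (xw z) = 1 := u3a_pow (by norm_num) hx3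
  have h5 : B.valuation (4 * (xw z ^ 3 - 2)) = 1 := by
    have e : 4 * (xw z ^ 3 - 2) = yw z ^ 2 - 9 := by rw [hc]; ring
    rw [e, Valuation.map_sub_eq_of_lt_right _ (by rwa [v9]), v9]
  rw [map_mul, v4, one_mul] at h5
  have h7 : B.valuation (xw z ^ 4 - 2 * xw z) = 1 := by
    have e : xw z ^ 4 - 2 * xw z = xw z * (xw z ^ 3 - 2) := by ring
    rw [e, map_mul, hx1, h5, one_mul]
  rw [← hd, ← hc, map_mul] at h7
  have h8 : B.valuation (xw (z + z)) * B.valuation (yw z ^ 2) < 1 := by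
    calc B.valuation (xw (z + z)) * B.valuation (yw z ^ 2) ≤ 1 * B.valuation (yw z ^ 2) :=
          mul_le_mul' hX le_rfl
      _ = B.valuation (yw z ^ 2) := one_mul _
      _ < 1 := hy2
  exact absurd h7 (ne_of_lt h8)

theorem is_h {p : Eis} (hp : Prime p) (h6 : ¬ p ∣ 6) (hB : B.valuation (emb p) < 1) {z : ℂ} {m α : Eis} (hz : Nl (emb α * z))
    (hm : emb m * (emb α * z) ∈ Set.range emb) (hmp : IsCoprime m p) (hm2 : IsCoprime m 2) : B.valuation (hT z) = 1 := by
  obtain ⟨h2, h3⟩ := u3a_ndvd h6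
  have v2 := JGL.u2_two_eq hp hB h2
  have v4 := i1_four B v2
  obtain ⟨h2z', hm2z⟩ := is_dbl hz hm hm2
  have hzn : Nl z := nl_of_mul hz
  have h2z : Nl (z + z) := nl_of_mul h2z'
  have hX := is_x hp h6 hB h2z' hm2z hmp
  have hy := is_y hp h6 hB hz hm hmp hm2
  have hy' := is_y hp h6 hB h2z' hm2z hmp hm2
  have hy0 : yw z ≠ 0 := by
    intro h0
    rw [h0, map_zero] at hy
    exact zero_ne_one hy
  have hww : B.valuation w = 1 := CUL.w_w B
  have ve : B.valuation eh = 1 := by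
    have h5 : B.valuation (4 * eh ^ 3) = 1 := by
      rw [eh_cube, show (4 : ℂ) * (-1 / 4) = -1 by norm_num, Valuation.map_neg, map_one]
    rw [map_mul, v4, one_mul, map_pow] at h5
    exact u3a_pow (by norm_num) h5
  have hfac := u3a_fac (weq _ h2z) eh_cube
  have k0 : B.valuation (xw (z + z) - eh) ≤ 1 := (B.valuation.map_sub _ _).trans (max_le hX ve.le)
  have k1 : B.valuation (xw (z + z) - w * eh) ≤ 1 :=
    (B.valuation.map_sub _ _).trans (max_le hX (by rw [map_mul, hww, ve, one_mul]))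
  have k2 : B.valuation (xw (z + z) - w ^ 2 * eh) ≤ 1 :=
    (B.valuation.map_sub _ _).trans (max_le hX (by rw [map_mul, map_pow, hww, ve, one_pow, one_mul]))
  have k3 : B.valuation ((xw (z + z) - eh) * ((xw (z + z) - w * eh) * (xw (z + z) - w ^ 2 * eh))) = 1 := by
    have e := congrArg B.valuation hfac
    rw [map_pow, hy', one_pow, mul_assoc, map_mul, v4, one_mul] at e
    exact e.symm
  have k4 := (JGL.u2_unit_of_mul k0 (by rw [map_mul]; exact mul_le_one' k1 k2) k3).1
  have k5 := u3a_hsq hzn h2z hy0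
  have k6 : B.valuation (hT z) ^ 2 = 1 := by
    rw [← map_pow, k5, k4]
  exact u3a_pow (by norm_num) k6

end J2S
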