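import Pool.Agent.J2L.N0

/-!
# [J2S-K] an algebraic integer of `ℚ(ω, ∛D)` with absolute values `1` is a root of unity (Kronecker); its order is odd if the relative norm is `1`

PROOF of `root_one`. `x : JT.KM D` the element with value `e₀` (`J2N.mem_KM` for the membership, `u_j ∈ CF.KK`). `NumberField.Embeddings.pow_eq_one_of_norm_eq_one (K := JT.KM D) (A := ℂ) : IsIntegral ℤ x → (∀ φ : K →+* A, ‖φ x‖ = 1) → ∃ n, 0 < n ∧ x ^ n = 1`.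
For `φ : JT.KM D →+* ℂ`: `φ w` is `w` or `conj w` (`w² + w + 1 = 0`, factor). First let `φ w = w`: `φ` fixes the elements of `CF.KK` (`CUL.mem_KK`: `x + y w`, `x y ∈ ℚ`; for `u ∈ CF.KK` note `u ∈ JT.KM D`, `CF.KK_le`), `φ (cD D) ^ 3 = φ (emb D) = emb D = cD D ^ 3`, so
`φ (cD D) = w ^ i cD D`, `i < 3` (factor `X³ - Y³`; `cD D ≠ 0` or not does not matter), and `φ x = u₀ + u₁ (w^i s) + u₂ (w^i s)²` is `e₀`, `e₁` or `e₂`. If `φ w = conj w`, apply this to `(starRingEnd ℂ).comp φ` and use `‖conj z‖ = ‖z‖`.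
PROOF of `odd_order`. `n = 2 ^ a m`, `m` odd (`Nat.exists_eq_two_pow_mul_odd`). `v = u ^ m`, `v ^ (2 ^ a) = 1`; claim `v = 1`. Take the least `a` with `v ^ (2 ^ a) = 1`. If `a = 1`: `v = -1` (`v² = 1`, `v ≠ 1`), but the norm of `v` is `1` (`N1.zpow`, `n1_iff` with `exists_sig`: `v σ(v) σ²(v) = 1`) and the norm of `-1` is `-1`.
If `a ≥ 2`: `y = v ^ (2 ^ (a - 2))` has `y² = -1` (`(y²)² = 1`, `y² ≠ 1` by minimality), `y ∈ KM D`: `(y σ(y) σ²(y))² = -1`, against `n0b_no` (J2L/N0.lean). -/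

set_option autoImplicit false

open NumberField IsDedekindDomain Filter Topology
open scoped Classical ComplexConjugate

namespace J2S

open CM27 JZ
open CU (la eE om)
open CUL (Nl)
open J2L

variable {D : Eis}

theorem k_wm (D : Eis) : w ∈ JT.KM D := IntermediateField.subset_adjoin ℚ _ (Set.mem_insert _ _)

theorem k_sm (D : Eis) : JT.cD D ∈ JT.KM D :=
  IntermediateField.subset_adjoin ℚ _ (Set.mem_insert_of_mem _ (Set.mem_singleton _))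

theorem k_KK {φ : JT.KM D →+* ℂ} (hφ : φ ⟨w, k_wm D⟩ = w) {u : ℂ} (hu : u ∈ CF.KK) (hm : u ∈ JT.KM D) :
    φ ⟨u, hm⟩ = u := by
  obtain ⟨x, y, hxy⟩ := (CUL.mem_KK u).1 hu
  have e : (⟨u, hm⟩ : JT.KM D) = (x : JT.KM D) + (y : JT.KM D) * ⟨w, k_wm D⟩ := by
    apply Subtype.ext
    push_cast
    exact hxy
  rw [e, map_add, map_mul, hφ, map_ratCast, map_ratCast, hxy]

/-- the values of the embeddings with `φ w = w` -/
theorem k_phi {φ : JT.KM D →+* ℂ} (hφ : φ ⟨w, k_wm D⟩ = w) {u₀ u₁ u₂ : ℂ} (h0 : u₀ ∈ CF.KK) (h1 : u₁ ∈ CF.KK)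
    (h2 : u₂ ∈ CF.KK) (hm : u₀ + u₁ * JT.cD D + u₂ * JT.cD D ^ 2 ∈ JT.KM D) :
    φ ⟨u₀ + u₁ * JT.cD D + u₂ * JT.cD D ^ 2, hm⟩ = u₀ + u₁ * JT.cD D + u₂ * JT.cD D ^ 2 ∨
    φ ⟨u₀ + u₁ * JT.cD D + u₂ * JT.cD D ^ 2, hm⟩ = u₀ + u₁ * (w * JT.cD D) + u₂ * (w * JT.cD D) ^ 2 ∨
    φ ⟨u₀ + u₁ * JT.cD D + u₂ * JT.cD D ^ 2, hm⟩ = u₀ + u₁ * (w ^ 2 * JT.cD D) + u₂ * (w ^ 2 * JT.cD D) ^ 2 := by
  have hK : ∀ u ∈ CF.KK, u ∈ JT.KM D := fun u hu => CF.KK_le (JT.KM D) (k_wm D) hu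
  obtain ⟨X, hX⟩ : ∃ X, X = φ ⟨JT.cD D, k_sm D⟩ := ⟨_, rfl⟩
  have hD : emb D ∈ CF.KK := by
    rw [emb_apply]
    exact add_mem (intCast_mem _ _) (mul_mem (intCast_mem _ _) CF.d2_w_mem)
  have hX3 : X ^ 3 = JT.cD D ^ 3 := by
    have e : (⟨JT.cD D, k_sm D⟩ : JT.KM D) ^ 3 = ⟨emb D, hK _ hD⟩ := by
      apply Subtype.ext
      exact JT.cD_cube D
    rw [hX, ← map_pow, e, k_KK hφ hD, JT.cD_cube]
  have e : (⟨u₀ + u₁ * JT.cD D + u₂ * JT.cD D ^ 2, hm⟩ : JT.KM D) =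
      ⟨u₀, hK _ h0⟩ + ⟨u₁, hK _ h1⟩ * ⟨JT.cD D, k_sm D⟩ + ⟨u₂, hK _ h2⟩ * ⟨JT.cD D, k_sm D⟩ ^ 2 := by
    apply Subtype.ext
    rfl
  have e1 : φ ⟨u₀ + u₁ * JT.cD D + u₂ * JT.cD D ^ 2, hm⟩ = u₀ + u₁ * X + u₂ * X ^ 2 := by
    rw [e, map_add, map_add, map_mul, map_mul, map_pow, k_KK hφ h0, k_KK hφ h1, k_KK hφ h2, hX]
  have h3 := CUL.w3
  have h4 : (X - JT.cD D) * ((X - w * JT.cD D) * (X - w ^ 2 * JT.cD D)) = 0 := by
    have hw2 : w ^ 2 + w + 1 = 0 := by rw [CUL.w2]; ring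
    linear_combination hX3 - (X * JT.cD D * (X - JT.cD D)) * hw2 + JT.cD D ^ 2 * (X - JT.cD D) * h3
  rw [e1]
  rcases mul_eq_zero.1 h4 with h5 | h5
  · left
    rw [sub_eq_zero.1 h5]
  · rcases mul_eq_zero.1 h5 with h6 | h6
    · right; left
      rw [sub_eq_zero.1 h6]
    · right; right
      rw [sub_eq_zero.1 h6]

/-- the conjugate of `w` -/
theorem k_conj (z : ℂ) (hz : z ^ 2 + z + 1 = 0) : z = w ∨ z = conj w := by
  have h1 : conj w = -1 - w := by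
    have h2 := CUL.w2
    have h3 := CM27.w_im
    have h4 := CM27.w_re
    apply Complex.ext
    · rw [Complex.conj_re, Complex.sub_re, Complex.neg_re, Complex.one_re, h4]
      norm_num
    · rw [Complex.conj_im, Complex.sub_im, Complex.neg_im, Complex.one_im]
      ring
  have h2 : (z - w) * (z - (-1 - w)) = 0 := by
    linear_combination hz - CUL.w2
  rcases mul_eq_zero.1 h2 with h3 | h3
  · exact Or.inl (sub_eq_zero.1 h3)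
  · right
    rw [h1]
    exact sub_eq_zero.1 h3

theorem root_one {u₀ u₁ u₂ : ℂ} (h0 : u₀ ∈ CF.KK) (h1 : u₁ ∈ CF.KK) (h2 : u₂ ∈ CF.KK)
    (hi : IsIntegral ℤ (u₀ + u₁ * JT.cD D + u₂ * JT.cD D ^ 2)) (n0 : ‖u₀ + u₁ * JT.cD D + u₂ * JT.cD D ^ 2‖ = 1)
    (n1 : ‖u₀ + u₁ * (w * JT.cD D) + u₂ * (w * JT.cD D) ^ 2‖ = 1)
    (n2 : ‖u₀ + u₁ * (w ^ 2 * JT.cD D) + u₂ * (w ^ 2 * JT.cD D) ^ 2‖ = 1) :
    ∃ n : ℕ, 0 < n ∧ (u₀ + u₁ * JT.cD D + u₂ * JT.cD D ^ 2) ^ n = 1 := by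
  have hm : u₀ + u₁ * JT.cD D + u₂ * JT.cD D ^ 2 ∈ JT.KM D := (J2N.mem_KM _).2 ⟨u₀, u₁, u₂, h0, h1, h2, rfl⟩
  have key : ∀ φ : JT.KM D →+* ℂ, φ ⟨w, k_wm D⟩ = w → ‖φ ⟨u₀ + u₁ * JT.cD D + u₂ * JT.cD D ^ 2, hm⟩‖ = 1 := by
    intro φ hφ
    rcases k_phi hφ h0 h1 h2 hm with h | h | h
    · rw [h]; exact n0
    · rw [h]; exact n1
    · rw [h]; exact n2
  have hxi : IsIntegral ℤ (⟨u₀ + u₁ * JT.cD D + u₂ * JT.cD D ^ 2, hm⟩ : JT.KM D) := by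
    rw [← isIntegral_algebraMap_iff (algebraMap (JT.KM D) ℂ).injective]
    exact hi
  obtain ⟨n, hn, hx⟩ := NumberField.Embeddings.pow_eq_one_of_norm_eq_one (K := JT.KM D) (A := ℂ) hxi (by
    intro φ
    have h3 : φ ⟨w, k_wm D⟩ ^ 2 + φ ⟨w, k_wm D⟩ + 1 = 0 := by
      have e : (⟨w, k_wm D⟩ : JT.KM D) ^ 2 + ⟨w, k_wm D⟩ + 1 = 0 := by
        apply Subtype.ext
        have h4 := CUL.w2
        push_cast
        linear_combination h4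
      rw [← map_pow, ← map_add, ← map_one φ, ← map_add, e, map_zero]
    rcases k_conj _ h3 with h4 | h4
    · exact key φ h4
    · have h5 := key ((starRingEnd ℂ).comp φ) (by
        rw [RingHom.comp_apply, h4, Complex.conj_conj])
      rw [RingHom.comp_apply, Complex.norm_conj] at h5
      exact h5)
  refine ⟨n, hn, ?_⟩
  have h6 := congrArg (fun z : JT.KM D => (z : ℂ)) hx
  push_cast at h6
  exact h6

theorem odd_order (hc : ¬ ∃ x : Eis, x ^ 3 = D) {u : ℂ} (hN : N1 D u) {n : ℕ} (hn : 0 < n) (hu : u ^ n = 1) :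
    ∃ m : ℕ, Odd m ∧ u ^ m = 1 := by
  obtain ⟨σ, hσ, hs⟩ := exists_sig hc
  obtain ⟨a, m, hm, rfl⟩ := Nat.exists_eq_two_pow_mul_odd hn.ne'
  have hpw : ∀ n : ℕ, N1 D (u ^ n) := fun n => by
    have h1 := hN.zpow hc (n : ℤ)
    rwa [zpow_natCast] at h1
  refine ⟨m, hm, ?_⟩
  have hv : ∃ a : ℕ, (u ^ m) ^ (2 ^ a) = 1 := ⟨a, by rw [← pow_mul, mul_comm m]; exact hu⟩
  obtain ⟨b, hb⟩ : ∃ b, b = Nat.find hv := ⟨_, rfl⟩
  have hb1 : (u ^ m) ^ (2 ^ b) = 1 := by rw [hb]; exact Nat.find_spec hv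
  have hb2 : ∀ c < b, (u ^ m) ^ (2 ^ c) ≠ 1 := fun c hc => Nat.find_min hv (by rwa [← hb])
  match b, hb1, hb2 with
  | 0, h1, _ => rwa [pow_zero, pow_one] at h1
  | 1, h1, h2 =>
    exfalso
    have h3 := h2 0 one_pos
    rw [pow_zero, pow_one] at h3
    rw [pow_one] at h1
    have h4 : (u ^ m - 1) * (u ^ m + 1) = 0 := by linear_combination h1
    have h5 : u ^ m = -1 := eq_neg_of_add_eq_zero_left ((mul_eq_zero.1 h4).resolve_left (sub_ne_zero.2 h3))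
    have h6 := ((n1_iff hσ hs _).1 (hpw m)).2.2
    rw [h5, map_neg, map_one, map_neg, map_one] at h6
    norm_num at h6
  | c + 2, h1, h2 =>
    exfalso
    obtain ⟨y, hy⟩ : ∃ y, y = (u ^ m) ^ (2 ^ c) := ⟨_, rfl⟩
    have e1 : (u ^ m) ^ (2 ^ (c + 1)) = y ^ 2 := by rw [hy, pow_succ 2 c, pow_mul (u ^ m)]
    have e2 : (u ^ m) ^ (2 ^ (c + 2)) = (y ^ 2) ^ 2 := by rw [← e1, pow_succ 2 (c + 1), pow_mul (u ^ m)]
    rw [e2] at h1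
    have h3 := h2 (c + 1) (by omega)
    rw [e1] at h3
    have h4 : (y ^ 2 - 1) * (y ^ 2 + 1) = 0 := by linear_combination h1
    have h5 : y ^ 2 = -1 := eq_neg_of_add_eq_zero_left ((mul_eq_zero.1 h4).resolve_left (sub_ne_zero.2 h3))
    have h6 : y ∈ JT.KM D := by
      have h7 := (n1_iff hσ hs _).1 (hpw (m * 2 ^ c))
      rw [hy, ← pow_mul]
      exact h7.2.1
    refine n0b_no hσ hs h6 ?_
    have h8 : (σ y) ^ 2 = -1 := by rw [← map_pow, h5, map_neg, map_one]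
    have h9 : (σ (σ y)) ^ 2 = -1 := by rw [← map_pow, h8, map_neg, map_one]
    rw [mul_pow, mul_pow, h5, h8, h9]
    norm_num

end J2S
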