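import Pool.Agent.J2L.G7d
import Pool.Agent.J2L.G6

/-!
# [J2S-M] the moments if the elliptic unit is a root of unity of odd order

`A` a valuation ring of `ℂ` above `2`, `IsR L R`, `IsA L a`. A root of unity of odd order which is `≡ 1` modulo the maximal ideal is `1` (`root_eq`): with `x = 1 + t`, `|t| < 1`, `x ^ n = 1`, `n` odd: `0 = x ^ n - 1 = (x - 1) (1 + x + .. + x ^ (n - 1))` (`geom_sum`),
and `1 + x + .. ≡ n` modulo the maximal ideal, a unit.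
-/

set_option autoImplicit false

open scoped Classical

namespace J2S

open CM27
open CU (om)
open CUL (Nl ez IsRep rp cr zw)
open Q3V (OT)
open J2L

variable (A : ValuationSubring ℂ) (hA : A.valuation 2 < 1)

include hA in
/-- [M.0] `A.valuation n = 1` for odd `n`. -/
theorem root_eq {x : ℂ} {n : ℕ} (hn : Odd n) (h : x ^ n = 1) (h1 : A.valuation (x - 1) < 1) : x = 1 := by
  have hx : A.valuation x ≤ 1 := by
    have e : x = (x - 1) + 1 := by ring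
    rw [e]
    exact (A.valuation.map_add _ _).trans (max_le h1.le (by rw [map_one]))
  have hxA : x ∈ A := (ValuationSubring.valuation_le_one_iff A _).1 hx
  have hpow : ∀ i : ℕ, A.valuation (x ^ i - 1) < 1 := by
    intro i
    rw [← mul_geom_sum x i, map_mul]
    have h2 : A.valuation (∑ j ∈ Finset.range i, x ^ j) ≤ 1 :=
      (ValuationSubring.valuation_le_one_iff A _).2 (sum_mem fun j _ => pow_mem hxA j)
    calc A.valuation (x - 1) * A.valuation (∑ j ∈ Finset.range i, x ^ j) ≤ A.valuation (x - 1) * 1 := mul_le_mul' le_rfl h2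
      _ < 1 := by rwa [mul_one]
  by_contra hne
  have hs : ∑ j ∈ Finset.range n, x ^ j = 0 := by
    have h3 := mul_geom_sum x n
    rw [h, sub_self] at h3
    exact (mul_eq_zero.1 h3).resolve_left (sub_ne_zero.2 hne)
  have h2 : A.valuation (∑ j ∈ Finset.range n, (x ^ j - 1)) < 1 := Valuation.map_sum_lt _ one_ne_zero (fun j _ => hpow j)
  have e1 : ∑ j ∈ Finset.range n, (x ^ j - 1) = -(n : ℂ) := by
    rw [Finset.sum_sub_distrib, hs, Finset.sum_const, Finset.card_range, nsmul_eq_mul]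
    ring
  rw [e1] at h2
  obtain ⟨k, rfl⟩ := hn
  have h3 : A.valuation (2 * (k : ℂ)) < 1 := lt_of_le_of_lt (g3b_two A (natCast_mem A k)) hA
  have h4 := Valuation.map_add_lt _ h2 h3
  have e2 : -((2 * k + 1 : ℕ) : ℂ) + 2 * (k : ℂ) = -1 := by
    push_cast
    ring
  rw [e2, Valuation.map_neg, map_one] at h4
  exact lt_irrefl _ h4

/-- `x ≡ 1 mod 2` up to a bound -/
theorem m_lt (hA : A.valuation 2 < 1) {x y c : ℂ} (hy : y ∈ A) (hc : A.valuation c < 1) (h : A.valuation (x - (1 + c * y)) < 1) :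
    A.valuation (x - 1) < 1 := by
  have _ := hA
  have e : x - 1 = (x - (1 + c * y)) + c * y := by ring
  rw [e]
  refine Valuation.map_add_lt _ h ?_
  rw [map_mul]
  calc A.valuation c * A.valuation y ≤ A.valuation c * 1 := mul_le_mul' le_rfl ((ValuationSubring.valuation_le_one_iff A _).2 hy)
    _ < 1 := by rwa [mul_one]

include hA in
theorem m_Y {L : Lv} {R : Finset Eis} {a : Eis} (hR : IsR L R) (ha : IsA L a) (i : ℕ) :
    ∑ c ∈ R, yh (pt L (a ^ i * c)) ∈ A := sum_mem (fun _ hc => g3c_yh A hA hR ha i hc)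

include hA in
theorem m_four : A.valuation 4 < 1 := by
  have e : (4 : ℂ) = 2 * 2 := by norm_num
  rw [e]
  exact lt_of_le_of_lt (g3b_two A (by exact_mod_cast g3b_int A 2)) hA

include hA in
/-- [M.1] `j = 1`. `e63 A hA hR ha hj i k : ((g_i/g_k) ^ 63 - (1 + 2 (Y_i + Y_k))) ≤ |4|`, so `|(g_i/g_k) ^ 63 - 1| < 1`, `root_eq`: `(g_i/g_k) ^ 63 = 1` and `|2 (Y_i + Y_k)| ≤ |4|`, `|Y_i + Y_k| ≤ |2|` (`g3c_half`). -/
theorem Y_cong {L : Lv} {R : Finset Eis} {a : Eis} (hR : IsR L R) (ha : IsA L a) (hj : L.j = 1) {i k n : ℕ} (hn : Odd n)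
    (he : (gE L R a i / gE L R a k) ^ n = 1) :
    A.valuation (∑ c ∈ R, yh (pt L (a ^ i * c)) + ∑ c ∈ R, yh (pt L (a ^ k * c))) ≤ A.valuation 2 := by
  have h1 := e63 A hA hR ha hj i k
  have hY := add_mem (m_Y A hA hR ha i) (m_Y A hA hR ha k)
  have h2 := m_lt A hA hY hA (lt_of_le_of_lt h1 (m_four A hA))
  have h3 : ((gE L R a i / gE L R a k) ^ 63) ^ n = 1 := by
    rw [← pow_mul, mul_comm, pow_mul, he, one_pow]
  have h4 := root_eq A hA hn h3 h2
  rw [h4] at h1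
  apply g3c_half A
  have e : (1 : ℂ) - (1 + 2 * (∑ c ∈ R, yh (pt L (a ^ i * c)) + ∑ c ∈ R, yh (pt L (a ^ k * c)))) =
      -(2 * (∑ c ∈ R, yh (pt L (a ^ i * c)) + ∑ c ∈ R, yh (pt L (a ^ k * c)))) := by ring
  rw [e, Valuation.map_neg] at h1
  exact h1

/-- `X₀ ≡ X₁ ≡ X₂ mod 2` -/
theorem m_three {X₀ X₁ X₂ : ℂ} (h1 : X₁ ∈ A) (h01 : A.valuation (X₀ + X₁) ≤ A.valuation 2) (h12 : A.valuation (X₁ + X₂) ≤ A.valuation 2) :
    A.valuation (X₀ + w ^ 2 * X₁ + w * X₂) ≤ A.valuation 2 := by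
  have hw := g3b_w A
  have e : X₀ + w ^ 2 * X₁ + w * X₂ = (X₀ + X₁) + w * (X₁ + X₂) + 2 * (-((1 + w) * X₁)) := by
    linear_combination X₁ * CUL.w2
  rw [e]
  exact g3b_add A (g3b_add A h01 (g3b_mul A hw h12)) (g3b_two A (neg_mem (mul_mem (add_mem (one_mem A) hw) h1)))

theorem m_Ms {L : Lv} {R : Finset Eis} {a : Eis} (g : ℂ → ℂ) :
    Ms L R a g = ∑ c ∈ R, g (pt L (a ^ 0 * c)) + w ^ 2 * ∑ c ∈ R, g (pt L (a ^ 1 * c)) + w * ∑ c ∈ R, g (pt L (a ^ 2 * c)) := by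
  unfold Ms
  rw [Finset.sum_range_succ, Finset.sum_range_succ, Finset.sum_range_succ, Finset.sum_range_zero]
  linear_combination (w * ∑ c ∈ R, g (pt L (a ^ 2 * c))) * CUL.w3

include hA in
/-- [M.2] With `Y_i = ∑_{c ∈ R} yh(a^i c/f)`: `Y_0 ≡ Y_1 ≡ Y_2 mod 2`, so `Ms yh = Y_0 + w² Y_1 + w⁴ Y_2 ≡ Y_0 (1 + w² + w⁴) = 0`; `∑ yh² ≡ Y_i² mod 2` (`g3c_sq`, J2L/G3.lean), so `Ms yh² ≡ Y_0² (1 + w² + w⁴) = 0`. -/
theorem Ms_yh {L : Lv} {R : Finset Eis} {a : Eis} (hR : IsR L R) (ha : IsA L a) (hj : L.j = 1) {n n' : ℕ} (hn : Odd n) (hn' : Odd n')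
    (he : (gE L R a 0 / gE L R a 1) ^ n = 1) (he' : (gE L R a 1 / gE L R a 2) ^ n' = 1) :
    A.valuation (Ms L R a yh) ≤ A.valuation 2 ∧ A.valuation (Ms L R a (fun z => yh z ^ 2)) ≤ A.valuation 2 := by
  have h01 := Y_cong A hA hR ha hj hn he
  have h12 := Y_cong A hA hR ha hj hn' he'
  rw [m_Ms yh, m_Ms (fun z => yh z ^ 2)]
  refine ⟨m_three A (m_Y A hA hR ha 1) h01 h12, ?_⟩
  have hsq : ∀ i, ∃ J ∈ A, (∑ c ∈ R, yh (pt L (a ^ i * c))) ^ 2 = ∑ c ∈ R, yh (pt L (a ^ i * c)) ^ 2 + 2 * J := fun i =>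
    g3c_sq A R (fun c => yh (pt L (a ^ i * c))) (fun c hc => g3c_yh A hA hR ha i hc)
  have key : ∀ i k : ℕ, A.valuation (∑ c ∈ R, yh (pt L (a ^ i * c)) + ∑ c ∈ R, yh (pt L (a ^ k * c))) ≤ A.valuation 2 →
      A.valuation (∑ c ∈ R, yh (pt L (a ^ i * c)) ^ 2 + ∑ c ∈ R, yh (pt L (a ^ k * c)) ^ 2) ≤ A.valuation 2 := by
    intro i k h
    obtain ⟨J, hJ, e1⟩ := hsq i
    obtain ⟨K, hK, e2⟩ := hsq k
    have hi := m_Y A hA hR ha i
    have hk := m_Y A hA hR ha k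
    have e : ∑ c ∈ R, yh (pt L (a ^ i * c)) ^ 2 + ∑ c ∈ R, yh (pt L (a ^ k * c)) ^ 2 =
        (∑ c ∈ R, yh (pt L (a ^ i * c)) + ∑ c ∈ R, yh (pt L (a ^ k * c))) *
          (∑ c ∈ R, yh (pt L (a ^ i * c)) + ∑ c ∈ R, yh (pt L (a ^ k * c))) +
        2 * (-(∑ c ∈ R, yh (pt L (a ^ i * c))) * (∑ c ∈ R, yh (pt L (a ^ k * c))) - J - K) := by
      linear_combination -e1 - e2
    rw [e]
    exact g3b_add A (g3b_mul A (add_mem hi hk) h) (g3b_two A (sub_mem (sub_mem (mul_mem (neg_mem hi) hk) hJ) hK))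
  refine m_three A (sum_mem fun c hc => pow_mem (g3c_yh A hA hR ha 1 hc) 2) (key 0 1 h01) (key 1 2 h12)

include hA in
/-- [M.3] `j ≠ 1`: `e3_cong`: `|e³ - 1| ≤ |ϕ| < 1` (the sums are integral), `root_eq`. -/
theorem e3_one {L : Lv} {R : Finset Eis} {a : Eis} (hR : IsR L R) (ha : IsA L a) (hj : L.j ≠ 1) {n : ℕ} (hn : Odd n)
    (he : (gE L R a 0 / gE L R a 1) ^ n = 1) : (gE L R a 0 / gE L R a 1) ^ 3 = 1 := by
  have h1 := e3_cong A hA hR ha hj
  have s0 := g6a_S A hA hR ha 0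
  have s1 := g6a_S A hA hR ha 1
  simp only [pow_zero, one_mul] at s0
  simp only [pow_one] at s1
  have hph := ph_lt A hA
  have hph2 : A.valuation ph ^ 2 < 1 := pow_lt_one₀ zero_le hph two_ne_zero
  have h2 := m_lt A hA (add_mem s0 s1) hph (lt_of_le_of_lt h1 hph2)
  refine root_eq A hA hn ?_ h2
  rw [← pow_mul, mul_comm, pow_mul, he, one_pow]

theorem m_ph : A.valuation (0 : ℂ) < A.valuation ph := by
  rw [map_zero]
  exact zero_lt_iff.2 ((Valuation.ne_zero_iff _).2 ph_ne)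

include hA in
/-- [M.4] `j = 0`: `e3_lt` (`e³ - 1 = 0`, `0 < |ϕ|`). `j = 2`: `e3_lt2`. -/
theorem Ms_x2 {L : Lv} {R : Finset Eis} {a : Eis} (hR : IsR L R) (ha : IsA L a) (hj : L.j = 0) {n : ℕ} (hn : Odd n)
    (he : (gE L R a 0 / gE L R a 1) ^ n = 1) : A.valuation (Ms L R a (fun z => xw z ^ 2)) < 1 := by
  refine (e3_lt A hA hR ha hj).1 ?_
  rw [e3_one A hA hR ha (by rw [hj]; decide) hn he, sub_self]
  exact m_ph A

include hA in
theorem Ms_x {L : Lv} {R : Finset Eis} {a : Eis} (hR : IsR L R) (ha : IsA L a) (hj : L.j = 2) {n : ℕ} (hn : Odd n)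
    (he : (gE L R a 0 / gE L R a 1) ^ n = 1) : A.valuation (Ms L R a xw) < 1 := by
  refine (e3_lt2 A hA hR ha hj).1 ?_
  rw [e3_one A hA hR ha (by rw [hj]; decide) hn he, sub_self]
  exact m_ph A

include hA in
/-- [M.5] `v = 1`, `j = 0`: `e³ = 1`, so `e` is `1`, `w` or `w²` and in `Ω = Subring.closure (genS L 1)`; `Unr A (4 ^ N) Ω` by `unr_closure A hA L hN hf` with `θ = 1`, `e = 0` (`exists_N L`); `NF.const`: `NF A (4 ^ N) Ω e 0 0`; `nf_e` with `b = B = 0`. -/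
theorem lam_two {L : Lv} {R : Finset Eis} {a : Eis} (hR : IsR L R) (ha : IsA L a) (hj : L.j = 0) (ζ δ : Eis) {n : ℕ} (hn : Odd n)
    (he : (gE L R a 0 / gE L R a 1) ^ n = 1) :
    A.valuation (∑ c ∈ R, lam1 ζ δ (pt L c) + ∑ c ∈ R, lam1 ζ δ (pt L (a * c))) ≤ A.valuation 2 := by
  have h3 := e3_one A hA hR ha (by rw [hj]; decide) hn he
  have he1 : A.valuation (gE L R a 0 / gE L R a 1) = 1 := g7dc_e A hA hR ha hj
  obtain ⟨N, hN, -, hf⟩ := exists_N L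
  have hu : Unr A (4 ^ N) (Subring.closure (genS L 1)) := by
    refine unr_closure A hA L hN hf (by rw [map_one]) (zero_mem _) ?_
    rw [one_pow, sub_self, mul_zero, sub_zero, map_zero]
    exact zero_le
  have hw : w ∈ Subring.closure (genS L 1) := Subring.subset_closure (Or.inl rfl)
  have hmem : gE L R a 0 / gE L R a 1 ∈ Subring.closure (genS L 1) := by
    have h4 : (gE L R a 0 / gE L R a 1 - 1) * ((gE L R a 0 / gE L R a 1 - w) * (gE L R a 0 / gE L R a 1 - w ^ 2)) = 0 := by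
      have hw3 := CUL.w3
      have hw2 := CUL.w2
      generalize gE L R a 0 / gE L R a 1 = x at h3 ⊢
      linear_combination h3 + (x - 1) * hw3 + (x - x ^ 2) * hw2
    rcases mul_eq_zero.1 h4 with h5 | h5
    · rw [sub_eq_zero.1 h5]
      exact one_mem _
    · rcases mul_eq_zero.1 h5 with h6 | h6
      · rw [sub_eq_zero.1 h6]
        exact hw
      · rw [sub_eq_zero.1 h6]
        exact pow_mem hw 2
  have hc := NF.const hu hmem he1
  have h5 := nf_e A hA hR ha hj ζ δ hN hf hu hc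
  rw [← Valuation.map_neg] at h5
  refine le_of_eq_of_le ?_ h5
  congr 1
  ring

end J2S
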