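import Pool.Agent.J2S.Defs
import Pool.Agent.J2E.W

/-!
# [J2S-W] the elliptic unit for the data of `D` without the Tamagawa condition: the characters (copy of J2E/W.lean)
-/

set_option autoImplicit false

open MeasureTheory Set Filter Topology
open scoped Classical ComplexConjugate

namespace J2S

open CM27 JZ
open CU (la eE)
open CUL (Nl ta rp IsRep zw cr GalU)
open JGL (GalP)
open J2L (Lv Cub LC IsU Ph IsA gE uE Lam)
open J2E

variable {D : Eis}

/-- `kp = kd` for `j = 1` -/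
theorem w_kp (d : DtW D) (hj : d.L.j = 1) {x : Eis} (hx : IsCoprime x d.L.f) : kd d.L x = d.C.kp x := by
  have hg : d.C.g ∣ d.L.f := by
    have := d.gdvd
    rwa [if_pos hj] at this
  have h0 : ∀ y : Eis, IsCoprime y (2 * d.L.f) → kd d.L y = d.C.kp y := by
    intro y hy
    rw [d.kpk y hy, hj, sub_self, ZMod.val_zero, pow_zero, mul_one]
    rfl
  by_cases h2 : (2 : Eis) ∣ x
  · have h3 : ¬ (2 : Eis) ∣ x + d.L.f := fun h => d.L.hf2 ((dvd_add_right h2).1 h)
    have hpid := eis_pid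
    have hdom := eis_isDomain
    have h4 : IsCoprime (x + d.L.f) (2 * d.L.f) := by
      refine IsCoprime.mul_right ((Q3.prime_two.irreducible.coprime_iff_not_dvd).2 h3).symm ?_
      have := (IsCoprime.add_mul_left_left_iff (x := x) (y := d.L.f) (z := 1)).2 hx
      rwa [mul_one] at this
    have h5 := h0 _ h4
    rw [(kd_ch d.L).per (x + d.L.f) x ⟨1, by ring⟩, (w_cub d.C).per (x + d.L.f) x (by
      rw [add_sub_cancel_left]; exact hg)] at h5
    exact h5
  · have hpid := eis_pid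
    have hdom := eis_isDomain
    exact h0 x (IsCoprime.mul_right ((Q3.prime_two.irreducible.coprime_iff_not_dvd).2 h2).symm hx)

theorem w_cu (d : DtW D) (hj : d.L.j = 1) : Cu d.L.f (kd d.L) :=
  { kd_ch d.L with unit := fun _ hu => w_kd_unit d.L hj hu }

/-- the character modulo `2 f` -/
noncomputable def k2 (d : DtW D) (x : Eis) : ℂ := if IsCoprime x (2 * d.L.f) then d.C.kp x else 0

theorem w_odd {x f : Eis} (h : IsCoprime x (2 * f)) : ¬ (2 : Eis) ∣ x :=
  fun h2 => Q3.prime_two.not_isUnit ((h.of_mul_right_left).isUnit_of_dvd' h2 dvd_rfl)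

theorem w_k2 (d : DtW D) {x : Eis} (hx : IsCoprime x (2 * d.L.f)) (h1 : (2 : Eis) ∣ x - 1) : k2 d x = kd d.L x := by
  have h2 : cr (-2) x = 1 := by
    rw [CUL.cr_congr w_prime_two w_primary_two (a := x) (b := 1) (by rwa [neg_dvd]), CUL.cr_one w_prime_two w_primary_two]
  unfold k2
  rw [if_pos hx, d.kpk x hx, h2, one_pow, mul_one]
  rfl

theorem w_cu2 (d : DtW D) (hj : d.L.j ≠ 1) : Cu (2 * d.L.f) (k2 d) := by
  have hdom := eis_isDomain
  have hg : d.C.g ∣ 2 * d.L.f := by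
    have := d.gdvd
    rwa [if_neg hj] at this
  have hc := w_cub d.C
  refine ⟨⟨mul_ne_zero two_ne_zero d.L.hf, fun x hx => if_neg hx, fun x hx => ?_, fun x y => ?_, fun x y hxy => ?_, ?_⟩,
    fun u hu => ?_⟩
  · unfold k2
    rw [if_pos hx]
    exact hc.cube x (hx.of_isCoprime_of_dvd_right hg)
  · unfold k2
    by_cases hx : IsCoprime x (2 * d.L.f)
    · by_cases hy : IsCoprime y (2 * d.L.f)
      · rw [if_pos (hx.mul_left hy), if_pos hx, if_pos hy, hc.mul]
      · rw [if_neg hy, if_neg (fun hc => hy hc.of_mul_left_right), mul_zero]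
    · rw [if_neg hx, if_neg (fun hc => hx hc.of_mul_left_left), zero_mul]
  · have h1 : IsCoprime x (2 * d.L.f) ↔ IsCoprime y (2 * d.L.f) := by
      obtain ⟨t, ht⟩ := hxy
      have e : x = y + t * (2 * d.L.f) := by linear_combination ht
      rw [e]
      exact IsCoprime.add_mul_right_left_iff
    unfold k2
    rw [hc.per x y (hg.trans hxy)]
    simp only [h1]
  · obtain ⟨x, hx, hx1⟩ := (kd_ch d.L).non
    obtain ⟨a, b, hab⟩ := w_two d.L
    -- `x' = x * (2 b) + f a`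
    have e1 : d.L.f ∣ x * (2 * b) + d.L.f * a - x := ⟨-(a * x) + a, by linear_combination x * hab⟩
    have e2 : (2 : Eis) ∣ x * (2 * b) + d.L.f * a - 1 := ⟨x * b - b, by linear_combination hab⟩
    have h2 : IsCoprime (x * (2 * b) + d.L.f * a) (2 * d.L.f) := by
      refine IsCoprime.mul_right ?_ ?_
      · obtain ⟨t, ht⟩ := e2
        exact ⟨1, -t, by linear_combination ht⟩
      · obtain ⟨t, ht⟩ := e1
        have e : x * (2 * b) + d.L.f * a = x + t * d.L.f := by linear_combination ht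
        rw [e]
        exact IsCoprime.add_mul_right_left_iff.2 hx
    refine ⟨_, h2, ?_⟩
    rw [w_k2 d h2 e2, (kd_ch d.L).per _ x e1]
    exact hx1
  · unfold k2
    have h1 : IsCoprime u (2 * d.L.f) := by
      obtain ⟨v, hv⟩ := hu.exists_left_inv
      exact ⟨v, 0, by rw [zero_mul, add_zero]; exact hv⟩
    rw [if_pos h1, hc.unit u hu]

theorem w_loc (d : DtW D) {p : Eis} (hp : Prime p) (ht : d.C.kp p ≠ 1) (hD0 : D ≠ 0) : Loc D p := by
  have hdom := eis_isDomain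
  have hfin : FiniteMultiplicity p D := by
    have hpid := eis_pid
    exact FiniteMultiplicity.of_prime_left hp hD0
  obtain ⟨c, hc, hpc⟩ := hfin.exists_eq_pow_mul_and_not_dvd
  by_cases h3 : 3 ∣ multiplicity p D
  swap
  · exact Or.inl ⟨_, c, h3, hpc, hc⟩
  right
  obtain ⟨m, hm⟩ := h3
  rw [hm] at hc
  refine ⟨m, c, hpc, hc, ?_⟩
  by_cases hp3 : p ∣ 3
  · right
    refine ⟨hp3, fun η hη h4 => ht ?_⟩
    have hla : la ∣ p ∧ p ∣ la := by
      have e : (3 : Eis) = la * la * (-CU.om ^ 2) := by decide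
      have h5 : p ∣ la * la * (-CU.om ^ 2) := by rw [← e]; exact hp3
      have h6 : p ∣ la := by
        rcases hp.dvd_or_dvd h5 with h | h
        · exact (hp.dvd_or_dvd h).elim id id
        · exfalso
          apply hp.not_isUnit
          refine isUnit_of_dvd_unit h ?_
          exact IsUnit.of_mul_eq_one (-CU.om) (by decide)
      exact ⟨(hp.associated_of_dvd CUL.la_prime h6).symm.dvd, h6⟩
    obtain ⟨u, hu⟩ := hp.associated_of_dvd CUL.la_prime hla.2
    -- `la = p u`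
    have hla2 : ¬ la ∣ c := fun h => hpc (hla.2.trans h)
    have hD2 : D = la ^ (3 * m) * ((↑(u⁻¹) : Eis) ^ (3 * m) * c) := by
      rw [hc, ← hu, mul_pow]
      have e : (u : Eis) ^ (3 * m) * (↑(u⁻¹) : Eis) ^ (3 * m) = 1 := by
        rw [← mul_pow, Units.mul_inv, one_pow]
      linear_combination -(p ^ (3 * m) * c) * e
    have hu3 : ((↑(u⁻¹) : Eis) ^ 3 = 1 ∨ (↑(u⁻¹) : Eis) ^ 3 = -1) := by
      obtain ⟨n, hn | hn⟩ := Q3L.unit_cases (u⁻¹).isUnit
      · left
        rw [hn, ← pow_mul, mul_comm, pow_mul]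
        have : (Q3.om : Eis) ^ 3 = 1 := by decide
        rw [this, one_pow]
      · right
        rw [hn, neg_pow, ← pow_mul, mul_comm n, pow_mul]
        have : (Q3.om : Eis) ^ 3 = 1 := by decide
        rw [this, one_pow]
        norm_num
    have hu4 : ((↑(u⁻¹) : Eis) ^ (3 * m) = 1 ∨ (↑(u⁻¹) : Eis) ^ (3 * m) = -1) := by
      rw [pow_mul]
      rcases hu3 with h | h
      · left; rw [h, one_pow]
      · rw [h]; exact neg_one_pow_eq_or _ _
    obtain ⟨ε, hε, hεe⟩ : ∃ ε : Eis, (ε = 1 ∨ ε = -1) ∧ ε = (↑(u⁻¹) : Eis) ^ (3 * m) := ⟨_, hu4, rfl⟩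
    rw [← hεe] at hD2
    have hεη : ε * η = 1 ∨ ε * η = -1 := by
      rcases hε with rfl | rfl <;> rcases hη with rfl | rfl <;> simp
    have h7 : la ^ 4 ∣ ε * c - ε * η := by
      rw [← mul_sub]
      exact h4.mul_left _
    have h8 := d.C.ramL (ε * c) (3 * m) hD2 (by
      intro h
      rcases hε with rfl | rfl
      · exact hla2 (by rwa [one_mul] at h)
      · exact hla2 (by rwa [neg_one_mul, dvd_neg] at h))
    have h9 := (h8.2 (dvd_mul_right 3 m) ⟨ε * η, hεη, (pow_dvd_pow la (by norm_num : 3 ≤ 4)).trans h7⟩).2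
      ⟨ε * η, hεη, h7⟩
    have h10 : d.C.kp la = d.C.kp p := by
      rw [← hu, (w_cub d.C).mul, (w_cub d.C).unit _ u.isUnit, mul_one]
    rw [← h10]
    exact h9
  · left
    refine ⟨hp3, fun x hx => ht ?_⟩
    have h4 := (d.C.ram p c (3 * m) hp hp3 hc hpc).2 (dvd_mul_right 3 m)
    refine h4.2 ⟨x, ?_⟩
    rw [← dvd_neg, neg_sub]
    exact hx

theorem w_kp2 (d : DtW D) (hj : d.L.j ≠ 1) : d.C.kp 2 ≠ 1 := by
  have h23 : ¬ (2 : Eis) ∣ 3 := by
    rintro ⟨t, ht⟩
    apply Q3.prime_two.not_isUnit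
    exact IsUnit.of_mul_eq_one (t - 1) (by linear_combination -ht)
  have h1 := (d.C.ram 2 d.D₀ d.v Q3.prime_two h23 d.hD d.hD₀).1.2 (fun h => hj (by
    rw [d.hj]
    obtain ⟨t, ht⟩ := h
    rw [ht]
    push_cast
    have : (3 : ZMod 3) = 0 := rfl
    rw [this, zero_mul, sub_zero]))
  have h2 : ¬ IsCoprime (2 : Eis) d.C.g := fun hc => Q3.prime_two.not_isUnit (hc.isUnit_of_dvd' dvd_rfl h1)
  rw [d.C.kp_zero 2 h2]
  exact zero_ne_one

theorem w_D0 (d : DtW D) : D ≠ 0 := by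
  have hdom := eis_isDomain
  intro h
  rw [d.hD] at h
  rcases mul_eq_zero.1 h with h1 | h1
  · exact pow_ne_zero _ (two_ne_zero : (2 : Eis) ≠ 0) h1
  · exact d.hD₀ (by rw [h1]; exact dvd_zero _)

theorem w_gal1 (d : DtW D) (hj : d.L.j = 1) : GalP fun σ g => σ (JT.cD D) = kd d.L g * JT.cD D := by
  have hdom := eis_isDomain
  obtain ⟨M₀, h0, h1⟩ := d.gal
  refine ⟨M₀ * d.L.f, mul_ne_zero h0 d.L.hf, fun σ hσ M g hM hd hG => ?_⟩
  have h2 := h1 σ hσ M g hM (dvd_of_mul_right_dvd hd) hG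
  have h3 : IsCoprime g d.L.f := (hG.dvd hM (M' := d.L.f) (dvd_of_mul_left_dvd hd)).2.1
  show σ (JT.cD D) = kd d.L g * JT.cD D
  rw [w_kp d hj h3]
  exact h2

theorem w_gal2 (d : DtW D) : GalP fun σ g => σ (JT.cD D) = k2 d g * JT.cD D := by
  have hdom := eis_isDomain
  obtain ⟨M₀, h0, h1⟩ := d.gal
  have h2f : (2 : Eis) * d.L.f ≠ 0 := mul_ne_zero two_ne_zero d.L.hf
  refine ⟨M₀ * (2 * d.L.f), mul_ne_zero h0 h2f, fun σ hσ M g hM hd hG => ?_⟩
  have h2 := h1 σ hσ M g hM (dvd_of_mul_right_dvd hd) hG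
  have h3 : IsCoprime g (2 * d.L.f) := (hG.dvd hM (M' := 2 * d.L.f) (dvd_of_mul_left_dvd hd)).2.1
  show σ (JT.cD D) = k2 d g * JT.cD D
  unfold k2
  rw [if_pos h3]
  exact h2

theorem w_Lam {k' κ' : Eis → ℂ} (L : Lv) {R : Finset Eis} {a : Eis} (hR : IsR0 L.f k' R) (ha : IsCoprime a L.f)
    (hΦ : GD L.f k' κ' (Ph L)) : ‖Lam L R a‖ ^ 2 =
      Real.log ‖ei (Ph L) R a 0‖ ^ 2 + Real.log ‖ei (Ph L) R a 0‖ * Real.log ‖ei (Ph L) R a 1‖ +
        Real.log ‖ei (Ph L) R a 1‖ ^ 2 := by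
  have hne : ∀ i : ℕ, ∀ c ∈ R, Ph L (a ^ i * c) ≠ 0 := fun i c hc =>
    hΦ.ne _ (ha.pow_left.mul_left (hR.1 c hc).1)
  have hg : ∀ i : ℕ, gi (Ph L) R a i ≠ 0 := fun i => Finset.prod_ne_zero_iff.2 (hne i)
  have hlog : ∀ i : ℕ, Real.log ‖gi (Ph L) R a i‖ = ∑ c ∈ R, Real.log ‖Ph L (a ^ i * c)‖ := by
    intro i
    unfold gi
    rw [norm_prod, Real.log_prod fun c hc => norm_ne_zero_iff.2 (hne i c hc)]
  have he : ∀ i : ℕ, Real.log ‖ei (Ph L) R a i‖ =
      Real.log ‖gi (Ph L) R a i‖ - Real.log ‖gi (Ph L) R a (i + 1)‖ := by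
    intro i
    unfold ei
    rw [norm_div, Real.log_div (norm_ne_zero_iff.2 (hg i)) (norm_ne_zero_iff.2 (hg (i + 1)))]
  rw [he 0, he 1, ← w_norm_sq]
  congr 2
  unfold Lam
  rw [Finset.sum_range_succ, Finset.sum_range_succ, Finset.sum_range_succ, Finset.sum_range_zero, hlog, hlog, hlog]
  push_cast
  ring

end J2S
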