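import Pool.Agent.J2S.E
import Pool.Agent.J2S.K
import Pool.Agent.J2S.M
import Pool.Agent.J2S.G3
import Pool.Agent.J2L.Z

/-!
# [J2S-X] the moment is `0` modulo the maximal ideals above `2` if `2` divides a Tamagawa number
-/

set_option autoImplicit false

open NumberField IsDedekindDomain Filter Topology
open scoped Classical ComplexConjugate

namespace J2S

open CM27 JZ
open CU (la eE om)
open CUL (Nl ez IsRep rp cr zw)
open J2L

variable {D : Eis}

theorem ex2_of (hfree : ∀ p : Eis, Prime p → ¬ p ^ 6 ∣ D) (hnc : ¬ ∃ x : Eis, x ^ 3 = D) (hn : ¬ JT.Cl2 D) : Ex2 D := by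
  by_contra hex
  apply hn
  unfold Ex2 at hex
  push Not at hex
  obtain ⟨h1, h2, h3, h4⟩ := hex
  refine ⟨hfree, hnc, fun p c hp h6 hc hD x hx => h1 p c x hp h6 hc hD hx, fun η hη h => h2 η hη h, fun c hD h => h3 c hD h,
    fun c hc hD y hy => h4 c y hc hD hy⟩

theorem pow_cancel {v k : ℕ} {x y : Eis} (hx : ¬ (2 : Eis) ∣ x) (hy : ¬ (2 : Eis) ∣ y) (h : 2 ^ v * x = 2 ^ k * y) : v = k ∧ x = y := by
  have := CM27.eis_isDomain
  have h20 : (2 : Eis) ≠ 0 := Q3.prime_two.ne_zero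
  rcases lt_trichotomy v k with hv | hv | hv
  · exfalso
    obtain ⟨l, hk⟩ : ∃ l, k = v + (l + 1) := ⟨k - v - 1, by omega⟩
    apply hx
    rw [hk, pow_add, mul_assoc] at h
    have h1 := mul_left_cancel₀ (pow_ne_zero v h20) h
    exact ⟨2 ^ l * y, by rw [h1]; ring⟩
  · subst hv
    exact ⟨rfl, mul_left_cancel₀ (pow_ne_zero v h20) h⟩
  · exfalso
    obtain ⟨l, hk⟩ : ∃ l, v = k + (l + 1) := ⟨v - k - 1, by omega⟩
    apply hy
    rw [hk, pow_add, mul_assoc] at h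
    have h1 := mul_left_cancel₀ (pow_ne_zero k h20) h
    exact ⟨2 ^ l * x, by rw [← h1]; ring⟩

/-- an odd square modulo `4` -/
theorem sq_mod4 {y : Eis} (hy : ¬ (2 : Eis) ∣ y) : ∃ ξ t : Eis, ξ ^ 3 = 1 ∧ y ^ 2 = ξ + 4 * t := by
  obtain ⟨ξ, hξ, t, ht⟩ := r4_exists y
  have hξ0 : ξ ≠ 0 := by
    rintro rfl
    exact hy ⟨t, by linear_combination ht⟩
  have hξ3 := zc_cube hξ hξ0
  have hs' : y = ξ + 2 * t := by linear_combination ht
  exact ⟨ξ ^ 2, ξ * t + t ^ 2, by rw [← pow_mul, mul_comm, pow_mul, hξ3, one_pow], by rw [hs']; ring⟩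

theorem cases_ex (d : DtW D) (hex : Ex2 D) :
    Spl d ∨ (d.v = 3 ∧ (2 : Eis) ∣ 1 + d.ζ) ∨ (d.v = 2 ∧ (2 : Eis) ∣ 1 + d.ζ * d.δ) := by
  have hdom := CM27.eis_isDomain
  have h20 : (2 : Eis) ≠ 0 := Q3.prime_two.ne_zero
  obtain ⟨r, hr⟩ := d.hδ
  rcases hex with ⟨p, c, x, hp, h6, hc, hD, hx⟩ | ⟨η, hη, h4⟩ | ⟨c, hD, hc⟩ | ⟨c, y, hc, hD, hy⟩
  · left
    have h3 : ¬ p ∣ 3 := fun h => h6 (h.trans ⟨2, by norm_num⟩)
    refine ⟨p, hp, d.fdvd p hp h6 (by rw [hD]; exact (dvd_pow_self p (by norm_num)).mul_right _), ?_⟩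
    refine ((d.C.ram p c 3 hp h3 hD hc).2 dvd_rfl).2 ⟨x, ?_⟩
    rw [← dvd_neg, neg_sub]
    exact hx
  · left
    have hla : ¬ la ∣ D := by
      intro h
      have h5 : la ∣ η := by
        have h6 : η = D - (D - η) := by ring
        rw [h6]
        exact dvd_sub h ((dvd_pow_self la (by norm_num)).trans h4)
      have h7 : IsUnit η := by
        rcases hη with h | h <;> rw [h]
        · exact isUnit_one
        · exact isUnit_one.neg
      exact CUL.la_prime.not_isUnit (isUnit_of_dvd_unit h5 h7)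
    refine ⟨la, CUL.la_prime, d.fla hla, ?_⟩
    exact ((d.C.ramL D 0 (by rw [pow_zero, one_mul]) hla).2 (dvd_zero 3) ⟨η, hη, (pow_dvd_pow la (by norm_num)).trans h4⟩).2 ⟨η, hη, h4⟩
  · right
    left
    have hc2 : ¬ (2 : Eis) ∣ c := by
      intro h
      have h1 : (2 : Eis) ∣ 1 := by
        have h2 := dvd_sub h hc
        rwa [sub_sub_cancel] at h2
      exact Q3.prime_two.not_isUnit (isUnit_of_dvd_one h1)
    have h1 : (2 : Eis) ^ d.v * d.D₀ = 2 ^ 3 * c := by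
      rw [← d.hD, hD]
      norm_num
    obtain ⟨hv, hD0⟩ := pow_cancel d.hD₀ hc2 h1
    refine ⟨hv, ?_⟩
    obtain ⟨t, ht⟩ := hc
    refine ⟨1 + t - d.ζ * d.δ - 2 * r, ?_⟩
    rw [hD0] at hr
    linear_combination ht - hr
  · right
    right
    have h1 : (2 : Eis) ^ d.v * d.D₀ = 2 ^ 2 * c := by
      rw [← d.hD, hD]
      norm_num
    obtain ⟨hv, hD0⟩ := pow_cancel d.hD₀ hc h1
    refine ⟨hv, ?_⟩
    obtain ⟨t, ht⟩ := hy
    have hy2 : ¬ (2 : Eis) ∣ y := by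
      rintro ⟨b, hb⟩
      exact hc ⟨2 * b ^ 2 + 1 + 2 * t, by rw [hb] at ht; linear_combination ht⟩
    obtain ⟨ξ, b, hξ, hb⟩ := sq_mod4 hy2
    rw [hD0] at hr
    -- `ζ (1 + 2 δ) ≡ ξ + 2 mod 4`
    have h2 : ξ = d.ζ := by
      have h3 : (2 : Eis) ∣ ξ - d.ζ := ⟨d.ζ * d.δ + 2 * r - 1 - 2 * t - 2 * b, by linear_combination hr - ht - hb⟩
      exact r4_unique (zc_r4 hξ) (zc_r4 d.hζ) h3
    have h4 : 2 * (1 + d.ζ * d.δ) = 2 * (2 * (b + t - r + 1)) := by
      linear_combination ht - hr + hb + h2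
    exact ⟨_, mul_left_cancel₀ h20 h4⟩

/-- `e₀` and `e₁` have odd order -/
theorem units_odd (d : DtW D) (hnc : ¬ ∃ x : Eis, x ^ 3 = D) (hS : Spl d) {R : Finset Eis} {a : Eis} (hR : IsR d.L R)
    (ha : IsA d.L a) (ho : OddO d.L a) : ∃ m : ℕ, Odd m ∧ (gE d.L R a 0 / gE d.L R a 1) ^ m = 1 ∧
      (gE d.L R a 1 / gE d.L R a 2) ^ m = 1 := by
  have h := main_S d hS hR ha
  obtain ⟨u₀, u₁, u₂, h0, h1, h2, e0, e1, e2⟩ := h.c3
  have h3 := gE_three hR ha ho
  have n0 := h.n0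
  have n1 := h.n1
  have n2 := h.n2
  rw [e0] at n0
  rw [e1] at n1
  rw [e2] at n2
  have hi := (h.int 0 (by norm_num)).1
  rw [zero_add, e0] at hi
  obtain ⟨n, hn, hn1⟩ := root_one h0 h1 h2 hi n0 n1 n2
  rw [← e0] at hn1
  have hN : N1 D (gE d.L R a 0 / gE d.L R a 1) := by
    refine ⟨?_, u₀, u₁, u₂, h0, h1, h2, e0, ?_⟩
    · rw [e0]
      exact hi
    · rw [← e0, ← e1, ← e2, h3]
      have k0 := h.ne 0
      have k1 := h.ne 1
      have k2 := h.ne 2
      field_simp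
  obtain ⟨m, hm, hm1⟩ := odd_order hnc hN hn hn1
  refine ⟨m, hm, hm1, ?_⟩
  obtain ⟨σ, hσ, hs⟩ := exists_sig (D := D) hnc
  have h5 : σ (gE d.L R a 0 / gE d.L R a 1) = gE d.L R a 1 / gE d.L R a 2 := by
    rw [e0, sig_rep hσ (i := 1) (by rw [pow_one]; exact hs) h0 h1 h2, pow_one, e1]
  rw [← h5, ← map_pow, hm1, map_one]

theorem val_mul_lt (A : ValuationSubring ℂ) {x y : ℂ} (hx : A.valuation x ≤ 1) (hy : A.valuation y < 1) : A.valuation (x * y) < 1 := by
  rw [map_mul]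
  exact lt_of_le_of_lt (mul_le_of_le_one_left' hx) hy

theorem lt_of_cong (A : ValuationSubring ℂ) (hA : A.valuation 2 < 1) {x y : ℂ} (h : A.valuation (x - y) ≤ A.valuation 2)
    (hy : A.valuation y < 1) : A.valuation x < 1 := by
  have e : x = (x - y) + y := by ring
  rw [e]
  exact Valuation.map_add_lt _ (h.trans_lt hA) hy

theorem emb_le (A : ValuationSubring ℂ) (x : Eis) : A.valuation (emb x) ≤ 1 := val_of_int A (JL.isIntegral_emb _)

theorem mom_lt (d : DtW D) (hnc : ¬ ∃ x : Eis, x ^ 3 = D) (hex : Ex2 D) {R : Finset Eis} {a : Eis} (hR : IsR d.L R)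
    (ha : IsA d.L a) (ho : OddO d.L a) (A : ValuationSubring ℂ) (hA : A.valuation 2 < 1) :
    A.valuation (Ms d.L R a (gM d.v d.δ)) < 1 := by
  have hz : A.valuation (emb d.ζ) = 1 := by
    have h1 : A.valuation (emb d.ζ) ^ 3 = 1 := by rw [← map_pow, ← map_pow, d.hζ, map_one, map_one]
    exact (pow_eq_one_iff.1 h1).resolve_right (by norm_num)
  have hxi : A.valuation (Ms d.L R a xw) ≤ 1 := Ms_int A hR ha fun z hz => x_int A hA hz
  have hyi : A.valuation (Ms d.L R a (fun z => yh z ^ 2)) ≤ 1 := Ms_int A hR ha fun z hz => by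
    rw [map_pow]
    exact pow_le_one' (yh_int A hA hz) 2
  rcases cases_ex d hex with hS | ⟨hv, h1⟩ | ⟨hv, h1⟩
  · obtain ⟨m, hm, e0, e1⟩ := units_odd d hnc hS hR ha ho
    have hv6 := d.hv
    have hj := d.hj
    obtain ⟨v, hvv⟩ : ∃ v, v = d.v := ⟨_, rfl⟩
    rw [← hvv] at hv6 hj ⊢
    interval_cases v
    · -- `v = 0`
      have hj1 : d.L.j = 1 := by rw [hj]; decide
      obtain ⟨m1, m2⟩ := Ms_yh A hA hR ha hj1 hm hm e0 e1
      have h2 := gM_zero A hA d hR ha ho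
      have h3 : A.valuation (emb d.ζ ^ 2 * Ms d.L R a (gM 0 d.δ)) < 1 := by
        refine lt_of_cong A hA h2 ?_
        refine Valuation.map_add_lt _ ?_ ?_
        · refine val_mul_lt A ?_ (m1.trans_lt hA)
          rw [← map_add, ← map_pow]
          exact emb_le A _
        · refine val_mul_lt A ?_ (m2.trans_lt hA)
          rw [← map_pow, ← map_mul]
          exact emb_le A _
      rwa [map_mul, map_pow, hz, one_pow, one_mul] at h3
    · -- `v = 1`
      have hj0 : d.L.j = 0 := by rw [hj]; decide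
      exact (lam_lt A hA d hvv.symm hR ha).1 ((lam_two A hA hR ha hj0 d.ζ d.δ hm e0).trans_lt hA)
    · -- `v = 2`
      have hj2 : d.L.j = 2 := by rw [hj]; decide
      refine lt_of_cong A hA (gM_two A hA d hR ha) (val_mul_lt A ?_ (Ms_x A hA hR ha hj2 hm e0))
      rw [← map_mul, ← map_one emb, ← map_add]
      exact emb_le A _
    · -- `v = 3`
      have hj1 : d.L.j = 1 := by rw [hj]; decide
      obtain ⟨m1, m2⟩ := Ms_yh A hA hR ha hj1 hm hm e0 e1
      refine lt_of_cong A hA (gM_three A hA d hR ha ho) (val_mul_lt A ?_ (m2.trans_lt hA))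
      rw [← map_one emb, ← map_add]
      exact emb_le A _
    · -- `v = 4`
      have hj0 : d.L.j = 0 := by rw [hj]; decide
      rw [gM_four d]
      exact Ms_x2 A hA hR ha hj0 hm e0
    · -- `v = 5`
      have hj2 : d.L.j = 2 := by rw [hj]; decide
      exact lt_of_cong A hA (gM_five A hA d hR ha) (val_mul_lt A (emb_le A _) (Ms_x A hA hR ha hj2 hm e0))
  · rw [hv]
    refine lt_of_cong A hA (gM_three A hA d hR ha ho) ?_
    rw [mul_comm]
    refine val_mul_lt A hyi ?_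
    rw [← map_one emb, ← map_add]
    exact (emb_lt A hA _).2 h1
  · rw [hv]
    refine lt_of_cong A hA (gM_two A hA d hR ha) ?_
    rw [mul_comm]
    refine val_mul_lt A hxi ?_
    rw [← map_mul, ← map_one emb, ← map_add]
    exact (emb_lt A hA _).2 h1

end J2S
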