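import Pool.Agent.J2S.X
import Pool.Agent.J2S.D

/-!
# [J2S-Z] the central value is divisible by `2` if `2` divides a Tamagawa number (copy of J2L/Z.lean for `DtW`)
-/

set_option autoImplicit false

open NumberField IsDedekindDomain Filter Topology
open scoped Classical ComplexConjugate

namespace J2S

open CM27 JZ
open CU (la eE om)
open CUL (Nl ez IsRep rp cr zw)
open J2L

variable {D : Eis}

theorem zb_D (d : DtW D) (A : ValuationSubring ℂ) (hA : A.valuation 2 < 1) : A.valuation (emb D) = A.valuation 2 ^ d.v := by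
  have h1 : A.valuation (emb d.D₀) = 1 := by
    refine le_antisymm (val_of_int A (JL.isIntegral_emb _)) ?_
    exact not_lt.1 fun h => d.hD₀ ((emb_lt A hA _).1 h)
  have h2 : emb D = 2 ^ d.v * emb d.D₀ := by
    have h3 := congrArg emb d.hD
    rw [map_mul, map_pow, map_ofNat] at h3
    exact h3
  rw [h2, map_mul, map_pow, h1, mul_one]

theorem zb_main (d : DtW D) {R : Finset Eis} {a : Eis} (hR : IsR d.L R) (ha : IsA d.L a) {s t : ℂ} (hs : s ^ 2 = emb D)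
    (ht : t ^ 3 = emb (4 * D)) (hb : V d.L d.v d.δ * s / t ∈ CF.KK) (h0 : V d.L d.v d.δ ≠ 0) (A : ValuationSubring ℂ)
    (hA : A.valuation 2 < 1) : ∃ (q : ℚ) (m : ℤ), 0 < q ∧
      (V d.L d.v d.δ * s / t) * conj (V d.L d.v d.δ * s / t) = q ∧ padicValRat 2 q = 2 * m ∧
      ((n2 d.v d.δ : ℤ) + if n2 d.v d.δ = 0 then 1 else 0) ≤ m ∧
      (m = ((n2 d.v d.δ : ℤ) + if n2 d.v d.δ = 0 then 1 else 0) ↔
        ¬ A.valuation (Ms d.L R a (gM d.v d.δ)) < 1) := by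
  obtain ⟨C, E, hV, hE, hC⟩ := lead_all A hA hR ha d.hv d.hj d.hq
  have hτ0 : A.valuation (2 : ℂ) ≠ 0 := (Valuation.ne_zero_iff _).2 two_ne_zero
  have hτp : 0 < A.valuation (2 : ℂ) := zero_lt_iff.2 hτ0
  have hD1 := zb_D d A hA
  have hDv : A.valuation (emb D) ≠ 0 := by
    rw [hD1]
    exact pow_ne_zero _ hτ0
  have hD0 : emb D ≠ 0 := (Valuation.ne_zero_iff _).1 hDv
  have hs0 : s ≠ 0 := by
    rintro rfl
    apply hD0
    rw [← hs]
    ring
  have h4 : emb (4 * D) = 2 ^ 2 * emb D := by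
    rw [map_mul, map_ofNat]
    norm_num
  have ht0 : t ≠ 0 := by
    rintro rfl
    rw [h4] at ht
    have h5 : (2 : ℂ) ^ 2 * emb D = 0 := by
      rw [← ht]
      ring
    exact (mul_ne_zero (pow_ne_zero 2 two_ne_zero) hD0) h5
  have hb0 : V d.L d.v d.δ * s / t ≠ 0 := div_ne_zero (mul_ne_zero h0 hs0) ht0
  obtain ⟨q, m, hq0, hq, hqm, hbv⟩ := val_KK2 A hA hb hb0
  have hMs : A.valuation (Ms d.L R a (gM d.v d.δ)) ≤ 1 :=
    Ms_int A hR ha (fun z hz => zb_gM_int A hA d.v d.δ hz)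
  refine ⟨q, m, hq0, hq, hqm, ?_⟩
  obtain ⟨X, hX⟩ : ∃ X, X = A.valuation (Ms d.L R a (gM d.v d.δ) + E) := ⟨_, rfl⟩
  have hX1 : X ≤ 1 := by
    rw [hX]
    exact A.valuation.map_add_le hMs hE.le
  have hXiff : X = 1 ↔ ¬ A.valuation (Ms d.L R a (gM d.v d.δ)) < 1 := by
    constructor
    · intro h1 h2
      have h3 : X < 1 := by
        rw [hX]
        exact A.valuation.map_add_lt h2 hE
      exact absurd h1 h3.ne
    · intro h1
      have h2 : A.valuation (Ms d.L R a (gM d.v d.δ)) = 1 := le_antisymm hMs (not_lt.1 h1)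
      rw [hX, Valuation.map_add_eq_of_lt_left, h2]
      rw [h2]
      exact hE
  obtain ⟨N, hN⟩ : ∃ N : ℕ, N = n2 d.v d.δ + if n2 d.v d.δ = 0 then 1 else 0 := ⟨_, rfl⟩
  have hNz : ((n2 d.v d.δ : ℤ) + if n2 d.v d.δ = 0 then 1 else 0) = (N : ℤ) := by
    rw [hN]
    split_ifs <;> push_cast <;> ring
  rw [hNz]
  have hv6 := d.hv
  have hexp : 6 * n2 d.v d.δ + (if n2 d.v d.δ = 0 then 6 else 0) + 4 - d.v + 3 * d.v = 6 * N + (4 + 2 * d.v) := by
    rw [hN]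
    split_ifs with h6
    · rw [h6]
      omega
    · omega
  have hV6 : A.valuation (V d.L d.v d.δ) ^ 6 =
      A.valuation 2 ^ (6 * n2 d.v d.δ + (if n2 d.v d.δ = 0 then 6 else 0) + 4 - d.v) * X ^ 6 := by
    rw [hV, map_mul, mul_pow, hC, hX]
  have hs6 : A.valuation s ^ 6 = A.valuation 2 ^ (3 * d.v) := by
    have h7 : A.valuation s ^ 6 = A.valuation (s ^ 2) ^ 3 := by
      rw [map_pow, ← pow_mul]
    rw [h7, hs, hD1, ← pow_mul, mul_comm]
  have ht6 : A.valuation t ^ 6 = A.valuation 2 ^ (4 + 2 * d.v) := by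
    have h7 : A.valuation t ^ 6 = A.valuation (t ^ 3) ^ 2 := by
      rw [map_pow, ← pow_mul]
    rw [h7, ht, h4, map_mul, map_pow, hD1, ← pow_add, ← pow_mul]
    congr 1
    ring
  have hb6 : (A.valuation 2 ^ m) ^ 6 * A.valuation t ^ 6 = A.valuation (V d.L d.v d.δ) ^ 6 * A.valuation s ^ 6 := by
    rw [← hbv, ← mul_pow, ← mul_pow, ← map_mul, ← map_mul, div_mul_cancel₀ _ ht0]
  have key : A.valuation (2 : ℂ) ^ (6 * (m - N)) = X ^ 6 := by
    have h8 : (A.valuation (2 : ℂ) ^ m) ^ 6 = A.valuation 2 ^ (6 * N) * X ^ 6 := by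
      have h9 : A.valuation (2 : ℂ) ^ (4 + 2 * d.v) ≠ 0 := pow_ne_zero _ hτ0
      apply mul_right_cancel₀ h9
      rw [← ht6, hb6, hV6, hs6, ht6, mul_right_comm, ← pow_add, hexp, pow_add, mul_right_comm]
    have h10 : (A.valuation (2 : ℂ) ^ m) ^ 6 = A.valuation (2 : ℂ) ^ (6 * m) := by
      rw [mul_comm, zpow_mul]
      rfl
    have h11 : A.valuation (2 : ℂ) ^ (6 * N) = A.valuation (2 : ℂ) ^ (6 * (N : ℤ)) := by
      rw [← zpow_natCast]
      push_cast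
      rfl
    rw [h10, h11] at h8
    rw [mul_sub, zpow_sub₀ hτ0, h8, mul_comm, mul_div_assoc, div_self (zpow_ne_zero _ hτ0), mul_one]
  have hanti := zpow_right_strictAnti₀ hτp hA
  have hle : (N : ℤ) ≤ m := by
    have h12 : A.valuation (2 : ℂ) ^ (6 * (m - N)) ≤ A.valuation (2 : ℂ) ^ (0 : ℤ) := by
      rw [key, zpow_zero]
      exact pow_le_one' hX1 6
    have h13 := hanti.le_iff_ge.1 h12
    omega
  refine ⟨hle, ?_⟩
  rw [← hXiff]
  constructor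
  · intro h14
    rw [h14, sub_self, mul_zero, zpow_zero] at key
    exact (pow_eq_one_iff.1 key.symm).resolve_right (by norm_num)
  · intro h14
    rw [h14, one_pow, ← zpow_zero (A.valuation (2 : ℂ))] at key
    have h15 := hanti.injective key
    omega

/-- [Z.3] `D = 2^v D₀`, `D₀ ≡ ζ (1 + 2 δ) mod 4` is a square modulo `4` iff `2 ∣ δ` (`ζ = (ζ²)²`; an odd `y ≡ ζ² (1 + 2t)` has `y² ≡ ζ mod 4`). -/
theorem good2_iff (d : DtW D) : JG.Good2 D ↔ n2 d.v d.δ = 0 := by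
  have := CM27.eis_isDomain
  have h20 : (2 : Eis) ≠ 0 := Q3.prime_two.ne_zero
  have hn : n2 d.v d.δ = 0 ↔ d.v = 4 ∧ (2 : Eis) ∣ d.δ := by
    unfold n2
    split_ifs with h1 h2 h3
    · constructor
      · intro h; exact absurd h (by norm_num)
      · rintro ⟨h, -⟩; omega
    · exact ⟨fun _ => ⟨h3, h2⟩, fun _ => rfl⟩
    · constructor
      · intro h; exact absurd h (by norm_num)
      · rintro ⟨h, -⟩; exact absurd h h3
    · constructor
      · intro h; exact absurd h (by norm_num)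
      · rintro ⟨-, h⟩; exact absurd h h2
  rw [hn]
  obtain ⟨c', hc'⟩ := d.hδ
  constructor
  · rintro ⟨s, c, hs, hD⟩
    have hs2 : ¬ (2 : Eis) ∣ s ^ 2 + 4 * c := by
      rintro ⟨t, ht⟩
      apply hs
      exact Q3.prime_two.dvd_of_dvd_pow (n := 2) ⟨t - 2 * c, by linear_combination ht⟩
    have h1 : (2 : Eis) ^ d.v * d.D₀ = 2 ^ 4 * (s ^ 2 + 4 * c) := by
      rw [← d.hD, hD]
      norm_num
    obtain ⟨hv, hD0⟩ := zc_pow d.hD₀ hs2 h1
    refine ⟨hv, ?_⟩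
    obtain ⟨ξ, hξ, t, ht⟩ := r4_exists s
    have hξ0 : ξ ≠ 0 := by
      rintro rfl
      exact hs ⟨t, by linear_combination ht⟩
    have hξ3 := zc_cube hξ hξ0
    have hs' : s = ξ + 2 * t := by linear_combination ht
    have h2 : (2 : Eis) ∣ ξ ^ 2 - d.ζ := by
      refine ⟨2 * c' + d.ζ * d.δ - 2 * (ξ * t + t ^ 2 + c), ?_⟩
      rw [hD0, hs'] at hc'
      linear_combination hc'
    have h3 : ξ ^ 2 = d.ζ := by
      apply r4_unique (zc_r4 _) (zc_r4 d.hζ) h2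
      rw [← pow_mul, mul_comm, pow_mul, hξ3, one_pow]
    have h4 : 2 * (d.ζ * d.δ) = 2 * (2 * (ξ * t + t ^ 2 + c - c')) := by
      rw [hD0, hs'] at hc'
      linear_combination h3 - hc'
    have h5 := mul_left_cancel₀ h20 h4
    refine ⟨d.ζ ^ 2 * (ξ * t + t ^ 2 + c - c'), ?_⟩
    linear_combination d.ζ ^ 2 * h5 - d.δ * d.hζ
  · rintro ⟨hv, δ', hδ'⟩
    refine ⟨d.ζ ^ 2, d.ζ * δ' + c', ?_, ?_⟩
    · rintro ⟨t, ht⟩
      apply Q3.prime_two.not_isUnit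
      apply IsUnit.of_mul_eq_one (t * d.ζ)
      linear_combination d.hζ - d.ζ * ht
    · have hD := d.hD
      rw [hv] at hD
      rw [hδ'] at hc'
      linear_combination hD + 16 * hc' - 16 * d.ζ * d.hζ

/-- the factor of the period -/
theorem zc_kap (d : DtW D) : JG.kap D = 4 ^ (if n2 d.v d.δ = 0 then 1 else 0) * (if JG.GoodL D then 3 else 1) := by
  unfold JG.kap
  have h := good2_iff d
  by_cases h0 : n2 d.v d.δ = 0
  · rw [if_pos (h.2 h0), if_pos h0]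
    rfl
  · rw [if_neg (fun h1 => h0 (h.1 h1)), if_neg h0]
    rfl

/-- the `2`-adic valuation of the denominator -/
theorem zc_den (d : DtW D) : ∃ q₀ : ℚ, 0 < q₀ ∧ q₀ = 9 * 4 ^ n2 d.v d.δ * (d.L.f.norm : ℚ) * (JG.kap D : ℚ) ∧
    padicValRat 2 q₀ = 2 * ((n2 d.v d.δ : ℤ) + if n2 d.v d.δ = 0 then 1 else 0) := by
  have hN : (d.L.f.norm : ℚ) = ((d.L.f.norm.natAbs : ℕ) : ℚ) := by
    have h1 : ((d.L.f.norm.natAbs : ℕ) : ℤ) = d.L.f.norm := by
      apply Int.natAbs_of_nonneg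
      have := zc_norm_pos d.L
      have h2 : (0 : ℤ) < d.L.f.norm := by exact_mod_cast this
      exact h2.le
    rw [← Int.cast_natCast (R := ℚ) d.L.f.norm.natAbs, h1]
  have hodd := zc_norm_odd d.L
  obtain ⟨N, hNdef⟩ : ∃ N : ℕ, N = d.L.f.norm.natAbs := ⟨_, rfl⟩
  obtain ⟨e, he⟩ : ∃ e : ℕ, e = if n2 d.v d.δ = 0 then 1 else 0 := ⟨_, rfl⟩
  obtain ⟨t, ht, htt⟩ : ∃ t : ℕ, t = (if JG.GoodL D then 3 else 1) ∧ ¬ 2 ∣ t := by
    refine ⟨_, rfl, ?_⟩
    split_ifs <;> norm_num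
  have hM : ¬ 2 ∣ 9 * N * t := by
    intro h
    rcases (Nat.Prime.dvd_mul Nat.prime_two).1 h with h | h
    · rcases (Nat.Prime.dvd_mul Nat.prime_two).1 h with h | h
      · omega
      · exact hodd (by rwa [← hNdef])
    · exact htt h
  have hM0 : 9 * N * t ≠ 0 := by
    intro h; rw [h] at hM; exact hM (dvd_zero _)
  have hMq : (0 : ℚ) < ((9 * N * t : ℕ) : ℚ) := by exact_mod_cast Nat.pos_of_ne_zero hM0
  have he2 : (if n2 d.v d.δ = 0 then (1 : ℤ) else 0) = (e : ℤ) := by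
    rw [he]; split_ifs <;> rfl
  refine ⟨4 ^ (n2 d.v d.δ + e) * ((9 * N * t : ℕ) : ℚ), by positivity, ?_, ?_⟩
  · rw [zc_kap d, ← he, ← ht, hN, ← hNdef]
    push_cast
    ring
  · have h2 : Fact (Nat.Prime 2) := ⟨Nat.prime_two⟩
    have h4 : padicValRat 2 (4 : ℚ) = 2 := by
      have : (4 : ℚ) = ((2 : ℕ) : ℚ) ^ 2 := by norm_num
      rw [this, padicValRat.pow, padicValRat.self (by norm_num)]
      norm_num
    rw [padicValRat.mul (by positivity) hMq.ne', padicValRat.pow, h4, padicValRat.of_nat,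
      padicValNat.eq_zero_of_not_dvd hM, he2]
    push_cast
    ring

/-- the `2`-adic valuation of the value -/
theorem val_q (d : DtW D) {R : Finset Eis} {a : Eis} (hR : IsR d.L R) (ha : IsA d.L a) {s t : ℂ} (hs : s ^ 2 = emb D)
    (ht : t ^ 3 = emb (4 * D)) (hb : V d.L d.v d.δ * s / t ∈ CF.KK) (h0 : V d.L d.v d.δ ≠ 0)
    (hm : ∀ A : ValuationSubring ℂ, A.valuation 2 < 1 → A.valuation (Ms d.L R a (gM d.v d.δ)) < 1) :
    ∃ q : ℚ, 0 < q ∧ (V d.L d.v d.δ * s / t) * conj (V d.L d.v d.δ * s / t) = q ∧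
      2 * ((n2 d.v d.δ : ℤ) + if n2 d.v d.δ = 0 then 1 else 0) < padicValRat 2 q := by
  obtain ⟨A₀, hA₀⟩ := exists_A
  obtain ⟨q, m, hq0, hq, hqm, hle, hiff⟩ := zb_main d hR ha hs ht hb h0 A₀ hA₀
  refine ⟨q, hq0, hq, ?_⟩
  have h1 : m ≠ ((n2 d.v d.δ : ℤ) + if n2 d.v d.δ = 0 then 1 else 0) := fun h => hiff.1 h (hm A₀ hA₀)
  rw [hqm]
  omega

/-- The central value is rational, and `0` or divisible by `2`. -/
theorem lvalS (hfree : ∀ p : Eis, Prime p → ¬ p ^ 6 ∣ D) (hnc : ¬ ∃ x : Eis, x ^ 3 = D) (hn : ¬ JT.Cl2 D) : LValS D := by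
  have hdom := CM27.eis_isDomain
  obtain ⟨d, ⟨p₂, pl, hp2, hpl, Φ, hΦ, hL, u, hu, hΦ1⟩, hbt⟩ := exists_dat hfree hnc
  obtain ⟨R, hR⟩ := exists_R d.L
  obtain ⟨a, ha, ho⟩ := exists_a d.L
  refine ⟨p₂, pl, hp2, hpl, Φ, hΦ, hL, ?_⟩
  have hD0 : D ≠ 0 := fun h' => hfree 2 Q3.prime_two (by rw [h']; exact dvd_zero _)
  have h4D : (4 * D : Eis) ≠ 0 := mul_ne_zero (by decide) hD0
  have hX : 0 < ‖emb (4 * D)‖ := by
    rw [norm_pos_iff, Ne, map_eq_zero_iff emb emb_injective]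
    exact h4D
  -- cube root of `|4 D|`
  obtain ⟨X, hX0, hX3, hXr⟩ : ∃ X : ℝ, 0 < X ∧ X ^ 3 = ‖emb (4 * D)‖ ∧ ‖emb (4 * D)‖ ^ ((1 : ℝ) / 3) = X := by
    refine ⟨_, Real.rpow_pos_of_pos hX _, ?_, rfl⟩
    rw [← Real.rpow_natCast, ← Real.rpow_mul hX.le]
    norm_num
  have hΦn := zc_abs hu _ d.L hΦ1
  have hNpos := zc_norm_pos d.L
  have hmc : Φ 1 * conj (Φ 1) = ((‖Φ 1‖ ^ 2 : ℝ) : ℂ) := by
    rw [Complex.mul_conj, Complex.normSq_eq_norm_sq]
  by_cases hV0 : V d.L d.v d.δ = 0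
  · refine ⟨0, ?_, Or.inl rfl⟩
    rw [hmc, hΦn, hV0, norm_zero]
    simp
  · obtain ⟨s, hs⟩ := IsAlgClosed.exists_pow_nat_eq (emb D) (n := 2) (by norm_num)
    obtain ⟨t, ht⟩ := IsAlgClosed.exists_pow_nat_eq (emb (4 * D)) (n := 3) (by norm_num)
    obtain ⟨q', hq'0, hq', hlt⟩ := val_q d hR ha hs ht (hbt s t hs ht) hV0
      (mom_lt d hnc (ex2_of hfree hnc hn) hR ha ho)
    obtain ⟨q₀, hq₀, hq₀e, hval⟩ := zc_den d
    have h2 : Fact (Nat.Prime 2) := ⟨Nat.prime_two⟩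
    have hvq : padicValRat 2 (q' / q₀) = padicValRat 2 q' - 2 * ((n2 d.v d.δ : ℤ) + if n2 d.v d.δ = 0 then 1 else 0) := by
      rw [padicValRat.div hq'0.ne' hq₀.ne', hval]
    refine ⟨q' / q₀, ?_, Or.inr ?_⟩
    · have hs2 : ‖s‖ ^ 2 = ‖emb D‖ := by rw [← norm_pow, hs]
      have ht2 : ‖t‖ = X := by
        have h3 : ‖t‖ ^ 3 = X ^ 3 := by rw [← norm_pow, ht, hX3]
        exact (pow_left_inj₀ (norm_nonneg t) hX0.le (by norm_num)).1 h3
      have hD4 : X ^ 3 = 4 * ‖emb D‖ := by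
        rw [hX3, map_mul, norm_mul, map_ofNat, Complex.norm_ofNat]
      have hq2 : (q' : ℝ) = ‖V d.L d.v d.δ‖ ^ 2 * X / 4 := by
        have h5 : ((‖V d.L d.v d.δ * s / t‖ ^ 2 : ℝ) : ℂ) = ((q' : ℝ) : ℂ) := by
          rw [← Complex.normSq_eq_norm_sq, ← Complex.mul_conj, hq']
          push_cast
          rfl
        have h6 : ‖V d.L d.v d.δ * s / t‖ ^ 2 = (q' : ℝ) := by exact_mod_cast h5
        rw [← h6, norm_div, norm_mul, div_pow, mul_pow, hs2, ht2]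
        field_simp
        rw [hD4]
        ring
      rw [hmc, hΦn, hXr]
      have h7 : Om ^ 2 * ‖V d.L d.v d.δ‖ ^ 2 / (36 * 4 ^ n2 d.v d.δ * (d.L.f.norm : ℝ)) =
          (((q' / q₀ : ℚ) : ℝ) * (JG.kap D : ℝ) / X) * Om ^ 2 := by
        have hk : (0 : ℝ) < (JG.kap D : ℝ) := by
          rw [zc_kap d]
          split_ifs <;> norm_num
        have h8 : ((q₀ : ℚ) : ℝ) = 9 * 4 ^ n2 d.v d.δ * (d.L.f.norm : ℝ) * (JG.kap D : ℝ) := by
          rw [hq₀e]; push_cast; rfl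
        rw [Rat.cast_div, h8, hq2]
        field_simp
        ring
      rw [h7]
      push_cast
      ring
    · rw [hvq]
      linarith

end J2S
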